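import Pool.Agent.V5helper1.SD.Final
import Pool.Agent.V5helper1.SR.Lower
set_option autoImplicit false

/-! Reduction to finitely generated groups, the integral form and the optimality. -/

open scoped Classical Pointwise
set_option linter.unusedSectionVars false
set_option linter.unusedVariables false

namespace V5helper1.SD

open H112

theorem Covered.map {G G' : Type*} [AddCommGroup G] [AddCommGroup G'] {A : Finset G'} {D n : ℝ}
    (h : Covered A D n) (f : G' →+ G) (hf : Function.Injective f) :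
    Covered (A.image f) D n := by
  obtain ⟨d, B, ψ, H, T, hd, hB, hH, hprop, hvol, hT, hcov⟩ := h
  refine ⟨d, B, f.comp ψ, H.map f, T.image f, hd, hB, ?_, ?_, ?_, ?_, ?_⟩
  · have : (H.map f : Set G).Finite := by
      rw [AddSubgroup.coe_map]
      exact (Set.toFinite (H : Set G')).image _
    exact this.to_subtype
  · rintro ⟨c, x⟩ ⟨hc, hx⟩ ⟨c', x'⟩ ⟨hc', hx'⟩ heq
    obtain ⟨h, hh, rfl⟩ := hx
    obtain ⟨h', hh', rfl⟩ := hx'
    simp only [AddMonoidHom.comp_apply] at heq hc hc'
    rw [← map_add, ← map_add] at heq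
    have h1 := hprop (Set.mk_mem_prod (a := c) (b := h) hc hh)
      (Set.mk_mem_prod (a := c') (b := h') hc' hh') (hf heq)
    rw [Prod.mk.injEq] at h1
    rw [h1.1, h1.2]
  · have h1 : Nat.card (H.map f) = Nat.card H :=
      Nat.card_congr (H.equivMapOfInjective f hf).toEquiv.symm
    rw [h1, Finset.card_image_of_injective _ hf]
    exact hvol
  · refine le_trans ?_ hT
    exact_mod_cast Finset.card_image_le
  · intro a ha
    obtain ⟨a', ha', rfl⟩ := Finset.mem_image.1 ha
    obtain ⟨t, ht, c, hc, h, hh, e⟩ := hcov a' ha'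
    refine ⟨f t, Finset.mem_image_of_mem _ ht, c, hc, f h, ⟨h, hh, rfl⟩, ?_⟩
    rw [e, map_add, map_add]
    rfl

/-- a set is nonempty, so its doubling is at least `1` -/
theorem one_le_K {G : Type*} [AddCommGroup G] {K : ℝ} {A : Finset G}
    (hA : A.Nonempty) (hK : ((A + A).card : ℝ) ≤ K * A.card) : 1 ≤ K := by
  have hApos : (0 : ℝ) < A.card := by exact_mod_cast hA.card_pos
  have h1 : (A.card : ℝ) ≤ (A + A).card := by
    exact_mod_cast Finset.card_le_card_add_right hA
  nlinarith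

theorem small_K {K ε : ℝ} (hK1 : 1 ≤ K) (hε : 0 < ε) (hε1 : ε ≤ 1) :
    ((2 * 2 : ℝ)) ^ (2000000000000 * (1 + Real.log (1 + Real.log (2 * 2))) / (1 / 2) ^ 2) ≤
      (2 * K) ^ (30000000000000 * (1 + Real.log (1 + Real.log (2 * K))) / ε ^ 2) := by
  have hκlog2 : Real.log 2 ≤ Real.log (2 * K) := Real.log_le_log (by norm_num) (by linarith)
  have h69 := log_two_gt
  have h70 := log2_lt
  have e4 : Real.log (2 * 2) = 2 * Real.log 2 := by
    rw [Real.log_mul (by norm_num) (by norm_num)]; ring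
  have h1 : Real.log (1 + Real.log (2 * 2)) ≤ 1.4 := by
    have := Real.log_le_sub_one_of_pos (show (0 : ℝ) < 1 + Real.log (2 * 2) by
      rw [e4]; linarith)
    rw [e4] at this ⊢
    linarith
  have h2 : (0.4 : ℝ) ≤ Real.log (1 + Real.log (2 * K)) := by
    have h3 := Real.one_sub_inv_le_log_of_pos (show (0 : ℝ) < 1 + Real.log (2 * K) by linarith)
    have h4 : (1 + Real.log (2 * K))⁻¹ ≤ (1.69 : ℝ)⁻¹ := inv_anti₀ (by norm_num) (by linarith)
    have h5 : ((1.69 : ℝ))⁻¹ ≤ 0.6 := by norm_num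
    linarith
  have hexp : 2 * (2000000000000 * (1 + Real.log (1 + Real.log (2 * 2))) / (1 / 2) ^ 2) ≤
      30000000000000 * (1 + Real.log (1 + Real.log (2 * K))) / ε ^ 2 := by
    have hε2 : ε ^ 2 ≤ 1 := pow_le_one₀ hε.le hε1
    have h3 : 30000000000000 * (1 + Real.log (1 + Real.log (2 * K))) ≤
        30000000000000 * (1 + Real.log (1 + Real.log (2 * K))) / ε ^ 2 := by
      rw [le_div_iff₀ (by positivity)]
      exact mul_le_of_le_one_right (by linarith) hε2
    refine le_trans ?_ h3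
    have h4 : 2 * (2000000000000 * (1 + Real.log (1 + Real.log (2 * 2))) / (1 / 2) ^ 2) =
        16000000000000 * (1 + Real.log (1 + Real.log (2 * 2))) := by ring
    rw [h4]
    obtain ⟨y, hy⟩ : ∃ y : ℝ, y = Real.log (1 + Real.log (2 * 2)) := ⟨_, rfl⟩
    obtain ⟨x, hx⟩ : ∃ x : ℝ, x = Real.log (1 + Real.log (2 * K)) := ⟨_, rfl⟩
    rw [← hy] at h1 ⊢
    rw [← hx] at h2 ⊢
    norm_num at h1 h2 ⊢
    linarith
  have h22 : (2 * 2 : ℝ) = 2 ^ (2 : ℝ) := by norm_num
  calc ((2 * 2 : ℝ)) ^ (2000000000000 * (1 + Real.log (1 + Real.log (2 * 2))) / (1 / 2) ^ 2)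
      = (2 : ℝ) ^ (2 * (2000000000000 * (1 + Real.log (1 + Real.log (2 * 2))) / (1 / 2) ^ 2)) := by
        conv_lhs => rw [show ((2 * 2 : ℝ) ^ (2000000000000 * (1 + Real.log (1 + Real.log (2 * 2))) /
          (1 / 2) ^ 2)) = ((2 : ℝ) ^ (2 : ℝ)) ^ (2000000000000 *
            (1 + Real.log (1 + Real.log (2 * 2))) / (1 / 2) ^ 2) by rw [← h22]]
        rw [← Real.rpow_mul (by norm_num)]
    _ ≤ (2 : ℝ) ^ (30000000000000 * (1 + Real.log (1 + Real.log (2 * K))) / ε ^ 2) :=
        Real.rpow_le_rpow_of_exponent_le (by norm_num) hexp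
    _ ≤ _ := by
        apply Real.rpow_le_rpow (by norm_num) (by linarith)
        have : 0 ≤ 1 + Real.log (1 + Real.log (2 * K)) := by linarith
        positivity

/-- **The near-polynomial Freiman-Ruzsa theorem with the sharp dimension.** -/
theorem sharp {G : Type*} [AddCommGroup G] {K ε : ℝ} {A : Finset G}
    (hA : A.Nonempty) (hK : ((A + A).card : ℝ) ≤ K * A.card) (hε : 0 < ε) (hε1 : ε ≤ 1) :
    Covered A (max 1 ((1 + ε) * Real.logb 2 K))
      ((2 * K) ^ (30000000000000 * (1 + Real.log (1 + Real.log (2 * K))) / ε ^ 2)) := by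
  have hK1 := one_le_K hA hK
  obtain ⟨Γ, hΓ, hfg, A', f, hinj, hA'⟩ : ∃ (Γ : Type _) (_ : AddCommGroup Γ)
      (_ : AddGroup.FG Γ) (A' : Finset Γ) (f : Γ →+ G), Function.Injective f ∧ A'.image f = A := by
    obtain ⟨A', hA'⟩ := exists_model A (AddSubgroup.closure (A : Set G))
      (fun a ha => AddSubgroup.subset_closure ha)
    refine ⟨AddSubgroup.closure (A : Set G), inferInstance, ?_, A', _,
      (AddSubgroup.closure (A : Set G)).subtype_injective, hA'⟩
    rw [AddGroup.fg_iff_addSubgroup_fg]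
    exact ⟨A, rfl⟩
  have hA'ne : A'.Nonempty := by
    rw [← hA'] at hA; exact Finset.image_nonempty.1 hA
  have hcard : A'.card = A.card := by
    rw [← hA', Finset.card_image_of_injective _ hinj]
  have hcard2 : (A' + A').card = (A + A).card := by
    rw [← hA', ← Finset.image_add, Finset.card_image_of_injective _ hinj]
  have hK' : ((A' + A').card : ℝ) ≤ K * A'.card := by rw [hcard2, hcard]; exact hK
  rw [← hA']
  refine Covered.map ?_ f hinj
  rcases le_or_gt 2 K with hK2 | hK2
  · obtain ⟨d, hd, h⟩ := sharp_fg hA'ne hK' hK2 hε hε1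
    refine h.mono (hd.trans (le_max_right _ _)) ?_
    apply Real.rpow_le_rpow_of_exponent_le (by linarith)
    have h69 := log_two_gt
    have h1 : 0 ≤ Real.log (1 + Real.log (2 * K)) := by
      apply Real.log_nonneg
      have : 0 ≤ Real.log (2 * K) := Real.log_nonneg (by linarith)
      linarith
    have h2 : (2000000000000 : ℝ) ≤ 30000000000000 := by norm_num
    have h3 : (0 : ℝ) ≤ 1 + Real.log (1 + Real.log (2 * K)) := by linarith
    exact div_le_div_of_nonneg_right (mul_le_mul_of_nonneg_right h2 h3) (sq_nonneg ε)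
  · have hK'' : ((A' + A').card : ℝ) ≤ 2 * A'.card :=
      hK'.trans (mul_le_mul_of_nonneg_right hK2.le (Nat.cast_nonneg _))
    obtain ⟨d, hd, h⟩ := sharp_fg hA'ne hK'' le_rfl (ε := 1 / 2) (by norm_num) (by norm_num)
    have hd1 : (d : ℝ) ≤ 1 := by
      rw [Real.logb_self_eq_one (by norm_num)] at hd
      have h1 : (d : ℝ) < 2 := by linarith
      have h2 : d < 2 := by exact_mod_cast h1
      have h3 : d ≤ 1 := by omega
      exact_mod_cast h3
    exact h.mono (hd1.trans (le_max_left _ _)) (small_K hK1 hε hε1)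

/-- the form with the integer part of `log₂ K` -/
theorem sharp_int {G : Type*} [AddCommGroup G] {K δ : ℝ} {A : Finset G}
    (hA : A.Nonempty) (hK : ((A + A).card : ℝ) ≤ K * A.card) (hδ : 0 < δ) (hδ1 : δ ≤ 1) :
    Covered A (max 1 (Real.logb 2 K + δ))
      (Real.exp (100000000000000 * δ⁻¹ ^ 2 * Real.log (2 * K) ^ 3 *
        (1 + Real.log (1 + Real.log (2 * K))))) := by
  have hK1 := one_le_K hA hK
  obtain ⟨κ, hκ⟩ : ∃ κ : ℝ, κ = Real.log (2 * K) := ⟨_, rfl⟩
  have hκlog2 : Real.log 2 ≤ κ := by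
    rw [hκ]; exact Real.log_le_log (by norm_num) (by linarith)
  have h69 := log_two_gt
  have hκ69 : (0.69 : ℝ) < κ := lt_of_lt_of_le h69 hκlog2
  have hlogκ : 0 ≤ Real.log (1 + κ) := Real.log_nonneg (by linarith)
  have hlog2 : 0 < Real.log 2 := Real.log_pos (by norm_num)
  obtain ⟨s, hs⟩ : ∃ s : ℝ, s = max 1 (Real.logb 2 K) := ⟨_, rfl⟩
  have hs1 : 1 ≤ s := by rw [hs]; exact le_max_left _ _
  have hlogb0 : 0 ≤ Real.logb 2 K := Real.logb_nonneg (by norm_num) hK1
  have hsκ : s * 0.69 ≤ κ := by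
    have h3 : Real.logb 2 K * 0.69 ≤ κ := by
      have h4 : Real.logb 2 K * Real.log 2 = Real.log K := by
        unfold Real.logb; field_simp
      have h5 : Real.logb 2 K * 0.69 ≤ Real.logb 2 K * Real.log 2 :=
        mul_le_mul_of_nonneg_left h69.le hlogb0
      have h6 : Real.log K ≤ κ := by
        rw [hκ]; exact Real.log_le_log (by linarith) (by linarith)
      linarith
    rw [hs]
    rcases max_choice 1 (Real.logb 2 K) with h | h
    · rw [h]; linarith
    · rw [h]; exact h3
  have h := sharp hA hK (ε := δ / s) (by positivity) (by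
    rw [div_le_one (by linarith)]; linarith)
  refine h.mono ?_ ?_
  · apply max_le (le_max_left _ _)
    refine le_trans ?_ (le_max_right _ _)
    have h1 : δ / s * Real.logb 2 K ≤ δ := by
      rw [div_mul_eq_mul_div, div_le_iff₀ (by linarith)]
      apply mul_le_mul_of_nonneg_left _ hδ.le
      rw [hs]; exact le_max_right _ _
    linarith
  · have e1 : 30000000000000 * (1 + Real.log (1 + Real.log (2 * K))) / (δ / s) ^ 2 =
        30000000000000 * (δ⁻¹ ^ 2 * s ^ 2 * (1 + Real.log (1 + κ))) := by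
      rw [hκ, div_pow]
      field_simp
    rw [e1, ← exp_eq_rpow hK1, ← hκ]
    apply Real.exp_le_exp.2
    have h1 : s ^ 2 ≤ 2.2 * κ ^ 2 := by
      have h2 : (s * 0.69) ^ 2 ≤ κ ^ 2 := pow_le_pow_left₀ (by linarith) hsκ 2
      have h3 : (s * 0.69) ^ 2 = 0.4761 * s ^ 2 := by ring
      rw [h3] at h2
      have h4 : 0 ≤ κ ^ 2 := by positivity
      linarith
    have h2 : 0 ≤ κ * δ⁻¹ ^ 2 * (1 + Real.log (1 + κ)) := by positivity
    calc 30000000000000 * κ * (δ⁻¹ ^ 2 * s ^ 2 * (1 + Real.log (1 + κ)))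
        = 30000000000000 * (κ * δ⁻¹ ^ 2 * (1 + Real.log (1 + κ))) * s ^ 2 := by ring
      _ ≤ 30000000000000 * (κ * δ⁻¹ ^ 2 * (1 + Real.log (1 + κ))) * (2.2 * κ ^ 2) :=
          mul_le_mul_of_nonneg_left h1 (by linarith)
      _ = 66000000000000 * (δ⁻¹ ^ 2 * κ ^ 3 * (1 + Real.log (1 + κ))) := by ring
      _ ≤ 100000000000000 * (δ⁻¹ ^ 2 * κ ^ 3 * (1 + Real.log (1 + κ))) := by
          apply mul_le_mul_of_nonneg_right (by norm_num)
          positivity
      _ = _ := by ring

/-- **Optimality.** -/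
theorem optimal (m N : ℕ) : ∃ A : Finset (Fin m → ℤ), A.Nonempty ∧
    ((A + A).card : ℝ) ≤ 2 ^ m * A.card ∧ ∀ D n : ℝ, Covered A D n → D < m → N ≤ n := by
  obtain ⟨A, hA, hK, hlow⟩ := SR.lower m N
  refine ⟨A, hA, by exact_mod_cast hK, ?_⟩
  rintro D n ⟨d, B, ψ, H, T, hd, hB, hH, hprop, hvol, hT, hcov⟩ hD
  have hdm : d < m := by
    have : (d : ℝ) < m := lt_of_le_of_lt hd hD
    exact_mod_cast this
  have h1 := hlow ((Finset.univ : Finset (Fin d)).image (fun i => ψ (Pi.single i 1))) T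
    (lt_of_le_of_lt Finset.card_image_le (by simpa using hdm)) (by
      intro a ha
      obtain ⟨t, ht, c, hc, h, hh, e⟩ := hcov a ha
      refine ⟨t, ht, ?_⟩
      have hh0 : h = 0 := by
        have h2 : IsOfFinAddOrder (⟨h, hh⟩ : H) := isOfFinAddOrder_of_finite _
        rw [isOfFinAddOrder_iff_nsmul_eq_zero] at h2
        obtain ⟨n, hn, h3⟩ := h2
        have h4 := congrArg Subtype.val h3
        simp only [AddSubgroup.coe_nsmul, AddSubgroup.coe_zero] at h4
        rcases smul_eq_zero.1 h4 with h5 | h5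
        · omega
        · exact h5
      have e2 : a - t = ∑ i, c i • ψ (Pi.single i 1) := by
        rw [e, hh0, add_zero, add_sub_cancel_left]
        have e3 : c = ∑ i, c i • (Pi.single i (1 : ℤ) : Fin d → ℤ) := by
          funext j
          simp [Finset.sum_apply, Pi.single_apply]
        conv_lhs => rw [e3]
        rw [map_sum]
        exact Finset.sum_congr rfl fun i _ => map_zsmul _ _ _
      rw [e2]
      refine AddSubgroup.sum_mem _ fun i _ => AddSubgroup.zsmul_mem _ ?_ _
      apply AddSubgroup.subset_closure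
      exact Finset.mem_coe.2 (Finset.mem_image_of_mem _ (Finset.mem_univ _)))
  have h2 : (N : ℝ) ≤ T.card := by exact_mod_cast h1
  exact h2.trans hT

end V5helper1.SD
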