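import Pool.Agent.H112R2.Cover
set_option autoImplicit false

/-! Large finite subgroups (the starting result `H112.big_subgroup`, with properness added). -/

set_option linter.unusedSectionVars false
set_option linter.unusedVariables false

namespace V5helper1.SD

open H112 Finset

variable {G : Type*} [AddCommGroup G]

/-- a finite abelian group `H` larger than `a ≥ 1` is covered by few translates of a
one-dimensional coset progression of volume `≤ a`. -/
theorem big_subgroup' (H₀ : AddSubgroup G) (hfin : Finite H₀) {a : ℕ} (ha : 1 ≤ a)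
    (hbig : a < Nat.card H₀) :
    ∃ (l : ℕ) (g : G) (H₁ : AddSubgroup G) (T : Finset G), Finite H₁ ∧ H₁ ≤ H₀ ∧
      (2 * l + 1) * Nat.card H₁ ≤ a ∧ (T.card : ℝ) * a ≤ 6 * Nat.card H₀ ∧
      (∀ h ∈ H₀, ∃ t ∈ T, ∃ c : ℤ, |c| ≤ l ∧ ∃ h' ∈ H₁, h = t + c • g + h') ∧
      ∀ k : ℤ, |k| ≤ 2 * l → k • g ∈ H₁ → k = 0 := by
  classical
  -- choose H₁ maximal
  have hex : ∃ n : ℕ, n ≤ a ∧ ∃ H₁ : AddSubgroup G, H₁ ≤ H₀ ∧ Nat.card H₁ = n := by
    exact ⟨1, ha, ⊥, bot_le, by simp⟩
  obtain ⟨n, ⟨hna, H₁, hle, hcard⟩, hmax⟩ : ∃ n : ℕ, (n ≤ a ∧ ∃ H₁ : AddSubgroup G, H₁ ≤ H₀ ∧ Nat.card H₁ = n) ∧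
      ∀ n', (n' ≤ a ∧ ∃ H₁ : AddSubgroup G, H₁ ≤ H₀ ∧ Nat.card H₁ = n') → n' ≤ n := by
    have hb : ∀ n : ℕ, (n ≤ a ∧ ∃ H₁ : AddSubgroup G, H₁ ≤ H₀ ∧ Nat.card H₁ = n) → n ≤ a := fun n h => h.1
    obtain ⟨n0, h0⟩ := hex
    refine ⟨Nat.findGreatest (fun n => n ≤ a ∧ ∃ H₁ : AddSubgroup G, H₁ ≤ H₀ ∧ Nat.card H₁ = n) a, ?_, ?_⟩
    · exact Nat.findGreatest_spec (P := fun n => n ≤ a ∧ ∃ H₁ : AddSubgroup G, H₁ ≤ H₀ ∧ Nat.card H₁ = n) h0.1 h0
    · intro n' h'
      exact Nat.le_findGreatest h'.1 h'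
  have hfin1 : Finite H₁ := Finite.of_injective (fun x : H₁ => (⟨x.1, hle x.2⟩ : H₀)) (by
    intro x y h
    apply Subtype.ext
    exact congrArg (fun z : H₀ => (z : G)) h)
  have hH1pos : 0 < Nat.card H₁ := Nat.card_pos
  have hne : ∃ g ∈ H₀, g ∉ H₁ := by
    by_contra hcon
    push Not at hcon
    have : H₀ = H₁ := le_antisymm hcon hle
    rw [this] at hbig
    omega
  obtain ⟨g, hg0, hg1⟩ := hne
  have hsup_le : H₁ ⊔ AddSubgroup.zmultiples g ≤ H₀ := by
    apply sup_le hle
    rw [AddSubgroup.zmultiples_le]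
    exact hg0
  have hsup_big : a < Nat.card (H₁ ⊔ AddSubgroup.zmultiples g : AddSubgroup G) := by
    by_contra hcon
    push Not at hcon
    have h1 := hmax _ ⟨hcon, _, hsup_le, rfl⟩
    have hfin2 : Finite (H₁ ⊔ AddSubgroup.zmultiples g : AddSubgroup G) :=
      Finite.of_injective (fun x : (H₁ ⊔ AddSubgroup.zmultiples g : AddSubgroup G) => (⟨x.1, hsup_le x.2⟩ : H₀)) (by
        intro x y h
        apply Subtype.ext
        exact congrArg (fun z : H₀ => (z : G)) h)
    have h2 : H₁ = H₁ ⊔ AddSubgroup.zmultiples g := by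
      apply AddSubgroup.eq_of_le_of_card_ge le_sup_left
      rw [hcard]; exact h1
    apply hg1
    rw [h2]
    exact (le_sup_right : AddSubgroup.zmultiples g ≤ _) (AddSubgroup.mem_zmultiples g)
  -- parameters
  set x := a / Nat.card H₁ with hx
  have hx1 : 1 ≤ x := by
    rw [hx, Nat.le_div_iff_mul_le hH1pos]; omega
  have hxa : x * Nat.card H₁ ≤ a := Nat.div_mul_le_self _ _
  have hxa2 : a < (x + 1) * Nat.card H₁ := by
    have := Nat.lt_div_mul_add hH1pos (a := a)
    rw [← hx] at this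
    linarith [add_mul x 1 (Nat.card H₁)]
  set l := (x - 1) / 2 with hl
  have hl1 : 2 * l + 1 ≤ x := by omega
  have hl2 : x + 1 ≤ 3 * (l + 1) := by omega
  -- finsets
  have hsetfin0 : (H₀ : Set G).Finite := Set.toFinite _
  have hsetfin1 : (H₁ : Set G).Finite := Set.toFinite _
  set F0 := hsetfin0.toFinset with hF0
  set F1 := hsetfin1.toFinset with hF1
  have hF0c : F0.card = Nat.card H₀ := by
    rw [hF0, ← Set.ncard_eq_toFinset_card _ hsetfin0]; rfl
  have hF1c : F1.card = Nat.card H₁ := by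
    rw [hF1, ← Set.ncard_eq_toFinset_card _ hsetfin1]; rfl
  set P := ((Finset.range (l + 1)) ×ˢ F1).image (fun p : ℕ × G => p.1 • g + p.2) with hP
  have hnotin2 : ∀ k : ℕ, 0 < k → k ≤ 2 * l → k • g ∉ H₁ := by
    intro k hk hkl hmem
    have h1 := cover_sup_card H₁ g hk hmem
    have h2 : k * Nat.card H₁ ≤ x * Nat.card H₁ := Nat.mul_le_mul_right _ (by omega)
    omega
  have hnotin : ∀ k : ℕ, 0 < k → k ≤ l → k • g ∉ H₁ :=
    fun k hk hkl => hnotin2 k hk (by omega)
  have hPc : P.card = (l + 1) * Nat.card H₁ := by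
    rw [hP, Finset.card_image_of_injOn, Finset.card_product, Finset.card_range, hF1c]
    -- injectivity
    have key : ∀ c c' : ℕ, ∀ h h' : G, c' < c → c ≤ l → h ∈ H₁ → h' ∈ H₁ → c • g + h = c' • g + h' → False := by
      intro c c' h h' hlt hcl hh hh' heq
      apply hnotin (c - c') (by omega) (by omega)
      have : (c - c') • g = h' - h := by
        have e1 : c • g = (c - c') • g + c' • g := by
          rw [← add_smul]; congr 1; omega
        rw [e1] at heq
        have : (c - c') • g + h + c' • g = h' + c' • g := by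
          rw [add_right_comm, heq, add_comm]
        have := add_right_cancel this
        rw [← this]; abel
      rw [this]
      exact H₁.sub_mem hh' hh
    rintro ⟨c, h⟩ hc ⟨c', h'⟩ hc' heq
    simp only [Finset.coe_product, Set.mem_prod, Finset.mem_range, hF1,
      Set.Finite.mem_toFinset, SetLike.mem_coe] at hc hc'
    simp only at heq
    rcases lt_trichotomy c c' with hlt | heqc | hgt
    · exact (key c' c h' h hlt (by omega) hc'.2 hc.2 heq.symm).elim
    · subst heqc
      rw [add_left_cancel heq]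
    · exact (key c c' h h' hgt (by omega) hc.2 hc'.2 heq).elim
  have hPne : P.Nonempty := by
    rw [← Finset.card_pos, hPc]; positivity
  have hPsub : ∀ p ∈ P, p ∈ H₀ := by
    intro p hp
    rw [hP, Finset.mem_image] at hp
    obtain ⟨⟨c, h⟩, hch, rfl⟩ := hp
    simp only [Finset.mem_product, Finset.mem_range, hF1, Set.Finite.mem_toFinset,
      SetLike.mem_coe] at hch
    exact H₀.add_mem (H₀.nsmul_mem hg0 _) (hle hch.2)
  open scoped Pointwise in
  have hadd : ((F0 + P).card : ℝ) ≤ ((Nat.card H₀ : ℝ) / P.card) * P.card := by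
    have hPpos : (0 : ℝ) < P.card := by exact_mod_cast hPne.card_pos
    rw [div_mul_cancel₀ _ hPpos.ne', ← hF0c]
    norm_cast
    apply Finset.card_le_card
    intro z hz
    obtain ⟨u, hu, v, hv, rfl⟩ := Finset.mem_add.1 hz
    rw [hF0, Set.Finite.mem_toFinset] at hu ⊢
    exact H₀.add_mem hu (hPsub v hv)
  obtain ⟨T, hTsub, hTc, hcov⟩ := Finset.ruzsa_covering_add hPne hadd
  refine ⟨l, g, H₁, T, hfin1, hle, ?_, ?_, ?_, ?_⟩
  · calc (2 * l + 1) * Nat.card H₁ ≤ x * Nat.card H₁ := Nat.mul_le_mul_right _ hl1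
      _ ≤ a := hxa
  · have hPpos : (0 : ℝ) < P.card := by exact_mod_cast hPne.card_pos
    rw [le_div_iff₀ hPpos] at hTc
    have h3 : (a : ℝ) ≤ 3 * P.card := by
      have : a ≤ 3 * P.card := by
        rw [hPc]
        have := Nat.mul_le_mul_right (Nat.card H₁) hl2
        nlinarith
      exact_mod_cast this
    have hT0 : (0:ℝ) ≤ T.card := by positivity
    have hH0 : (0:ℝ) ≤ Nat.card H₀ := by positivity
    calc (T.card : ℝ) * a ≤ T.card * (3 * P.card) := mul_le_mul_of_nonneg_left h3 hT0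
      _ = 3 * (T.card * P.card) := by ring
      _ ≤ 3 * Nat.card H₀ := by linarith
      _ ≤ 6 * Nat.card H₀ := by linarith
  · intro h hh
    have hh' : h ∈ F0 := by rw [hF0, Set.Finite.mem_toFinset]; exact hh
    have := hcov hh'
    obtain ⟨t, ht, d, hd, rfl⟩ := Finset.mem_add.1 this
    obtain ⟨p, hp, p', hp', rfl⟩ := Finset.mem_sub.1 hd
    rw [hP, Finset.mem_image] at hp hp'
    obtain ⟨⟨c, u⟩, hcu, rfl⟩ := hp
    obtain ⟨⟨c', u'⟩, hcu', rfl⟩ := hp'
    simp only [Finset.mem_product, Finset.mem_range, hF1, Set.Finite.mem_toFinset,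
      SetLike.mem_coe] at hcu hcu'
    refine ⟨t, ht, (c : ℤ) - c', ?_, u - u', H₁.sub_mem hcu.2 hcu'.2, ?_⟩
    · rw [abs_le]; constructor <;> omega
    · simp only [sub_smul, natCast_zsmul]
      abel
  · intro k hk hmem
    by_contra hk0
    rcases lt_trichotomy k 0 with hneg | h0 | hpos
    · apply hnotin2 (-k).toNat (by omega) (by rw [abs_le] at hk; omega)
      have e : ((-k).toNat : ℤ) • g = (-k) • g := by rw [Int.toNat_of_nonneg (by omega)]
      rw [← natCast_zsmul, e, neg_smul]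
      exact H₁.neg_mem hmem
    · exact hk0 h0
    · apply hnotin2 k.toNat (by omega) (by rw [abs_le] at hk; omega)
      have e : (k.toNat : ℤ) • g = k • g := by rw [Int.toNat_of_nonneg (by omega)]
      rw [← natCast_zsmul, e]
      exact hmem

end V5helper1.SD
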