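import Mathlib
set_option autoImplicit false

/-! Generating sets of `ℤ ^ m` contain large families that are independent modulo `2`. -/

open scoped Classical
set_option linter.unusedVariables false

namespace V5helper1.SD

/-- reduction modulo `2` -/
def red2 (m : ℕ) : (Fin m → ℤ) →+ (Fin m → ZMod 2) where
  toFun c := fun i => ((c i : ℤ) : ZMod 2)
  map_zero' := by funext i; simp
  map_add' a b := by funext i; simp

theorem exists_indep {m : ℕ} (C : Set (Fin m → ℤ)) (hC : Submodule.span ℤ C = ⊤) {M : ℕ}
    (hM : M ≤ m) :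
    ∃ v : Fin M → (Fin m → ℤ), (∀ i, v i ∈ C) ∧
      ∀ (k : ℕ) (a : Fin M → ℤ) (w : Fin m → ℤ), ∑ i, a i • v i = ((2 : ℤ) ^ k) • w →
        ∀ i, ((2 : ℤ) ^ k) ∣ a i := by
  have h2 : Fact (Nat.Prime 2) := ⟨Nat.prime_two⟩
  have hspan : Submodule.span (ZMod 2) (red2 m '' C) = ⊤ := by
    rw [eq_top_iff]
    intro x _
    have hx : ∃ z : Fin m → ℤ, red2 m z = x := by
      refine ⟨fun i => ((x i).val : ℤ), ?_⟩
      funext i
      simp [red2]
    obtain ⟨z, rfl⟩ := hx
    have hz : z ∈ Submodule.span ℤ C := by rw [hC]; trivial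
    induction hz using Submodule.span_induction with
    | mem u hu => exact Submodule.subset_span ⟨u, hu, rfl⟩
    | zero => rw [map_zero]; exact Submodule.zero_mem _
    | add a b _ _ iha ihb =>
      rw [map_add]; exact Submodule.add_mem _ (iha trivial) (ihb trivial)
    | smul t a _ ih =>
      rw [map_zsmul]
      have e : t • red2 m a = ((t : ZMod 2)) • red2 m a := by
        rw [Int.cast_smul_eq_zsmul]
      rw [e]; exact Submodule.smul_mem _ _ (ih trivial)
  obtain ⟨b, hb, hbspan, hli⟩ := exists_linearIndependent (ZMod 2) (red2 m '' C)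
  rw [hspan] at hbspan
  have hbfin : Finite b := hli.finite
  have hbft : Fintype b := Fintype.ofFinite b
  let B : Module.Basis b (ZMod 2) (Fin m → ZMod 2) := Module.Basis.mk hli (by
    rw [Subtype.range_coe, hbspan])
  have hcard : Fintype.card b = m := by
    have h1 := Module.finrank_eq_card_basis B
    rw [Module.finrank_fin_fun] at h1
    exact h1.symm
  obtain ⟨e⟩ : Nonempty (Fin M ↪ b) := by
    apply Function.Embedding.nonempty_of_card_le
    rw [Fintype.card_fin, hcard]
    exact hM
  have hpre : ∀ i : Fin M, ∃ u ∈ C, red2 m u = (e i : Fin m → ZMod 2) := fun i => hb (e i).2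
  choose v hv hve using hpre
  have hvli : LinearIndependent (ZMod 2) (fun i => red2 m (v i)) := by
    have h1 := hli.comp e e.injective
    have h2 : (fun i => red2 m (v i)) = (Subtype.val : b → (Fin m → ZMod 2)) ∘ e := by
      funext i
      exact hve i
    rw [h2]
    exact h1
  refine ⟨v, hv, ?_⟩
  intro k
  induction k with
  | zero =>
    intro a w _ i
    simp
  | succ k ih =>
    intro a w h i
    have h1 : ∀ i, (2 : ℤ) ∣ a i := by
      have h3 := congrArg (red2 m) h
      rw [map_sum] at h3
      simp only [map_zsmul] at h3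
      have h4 : ((2 : ℤ) ^ (k + 1)) • red2 m w = 0 := by
        rw [← Int.cast_smul_eq_zsmul (ZMod 2)]
        have : (((2 : ℤ) ^ (k + 1) : ℤ) : ZMod 2) = 0 := by
          rw [ZMod.intCast_zmod_eq_zero_iff_dvd]
          exact dvd_pow_self _ (by omega)
        rw [this, zero_smul]
      rw [h4] at h3
      have h5 : ∑ i, ((a i : ℤ) : ZMod 2) • red2 m (v i) = 0 := by
        rw [← h3]
        exact Finset.sum_congr rfl fun i _ => Int.cast_smul_eq_zsmul _ _ _
      have h6 := Fintype.linearIndependent_iff.1 hvli _ h5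
      intro i
      exact (ZMod.intCast_zmod_eq_zero_iff_dvd (a i) 2).1 (h6 i)
    choose c hc using h1
    have h7 : ∑ i, c i • v i = ((2 : ℤ) ^ k) • w := by
      have h8 : (2 : ℤ) • (∑ i, c i • v i) = (2 : ℤ) • (((2 : ℤ) ^ k) • w) := by
        rw [Finset.smul_sum, smul_smul, ← pow_succ', ← h]
        refine Finset.sum_congr rfl fun i _ => ?_
        rw [smul_smul, ← hc i]
      exact smul_right_injective _ (two_ne_zero) h8
    have h9 := ih c w h7 i
    rw [hc i, pow_succ']
    exact mul_dvd_mul_left 2 h9

end V5helper1.SD
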