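import Mathlib
set_option autoImplicit false

/-! Numerical estimates. -/

set_option linter.unusedVariables false

namespace V5helper1.SD

theorem log_le_two_sqrt {x : ℝ} (hx : 0 < x) : Real.log x ≤ 2 * Real.sqrt x := by
  have h1 : Real.log x = 2 * Real.log (Real.sqrt x) := by
    rw [Real.log_sqrt hx.le]; ring
  have h2 := Real.log_le_sub_one_of_pos (Real.sqrt_pos.2 hx)
  rw [h1]; linarith

/-- the choice of the exponent in the Bohr set step -/
theorem choice_n (m g M : ℕ) (hg : 4 ≤ g) (hM : 2 ≤ M) :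
    ∃ (n : ℕ), n = (400 * g ^ 2 * M ^ 2 * (m + 1) ^ 2) ^ 2 ∧ 1 ≤ n ∧
      (1 / 4 : ℝ) ^ n ≤ Real.exp (-(2 * (m * Real.log (8 * n * n * m + 1)) +
        2 * (m * Real.log (4 * m + 1)))) / 4 ∧
      (g : ℝ) * (M * (4 * Real.sqrt (m * Real.log (4 * (n + 1) * m + 1) / n))) < 1 / 2 := by
  obtain ⟨Z, hZ⟩ : ∃ Z : ℕ, Z = 400 * g ^ 2 * M ^ 2 * (m + 1) ^ 2 := ⟨_, rfl⟩
  obtain ⟨n, hn⟩ : ∃ n : ℕ, n = Z ^ 2 := ⟨_, rfl⟩
  have hgR : (4 : ℝ) ≤ g := by exact_mod_cast hg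
  have hMR : (2 : ℝ) ≤ M := by exact_mod_cast hM
  have hm0 : (0 : ℝ) ≤ m := Nat.cast_nonneg m
  have hm1 : (1 : ℝ) ≤ (m : ℝ) + 1 := by linarith
  have hZR : (Z : ℝ) = 400 * g ^ 2 * M ^ 2 * (m + 1) ^ 2 := by rw [hZ]; push_cast; ring
  have hnR : (n : ℝ) = Z ^ 2 := by rw [hn]; push_cast; ring
  have hg2 : (16 : ℝ) ≤ (g : ℝ) ^ 2 := by nlinarith
  have hM2 : (4 : ℝ) ≤ (M : ℝ) ^ 2 := by nlinarith
  have hm2 : (1 : ℝ) ≤ ((m : ℝ) + 1) ^ 2 := one_le_pow₀ hm1
  have hgM : (64 : ℝ) ≤ (g : ℝ) ^ 2 * (M : ℝ) ^ 2 := by nlinarith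
  have hZ1 : 400 * ((m : ℝ) + 1) ^ 2 ≤ Z := by
    rw [hZR]
    have : 0 ≤ ((m : ℝ) + 1) ^ 2 := by positivity
    nlinarith
  have hZpos : (0 : ℝ) < Z := by nlinarith
  have hZ400 : (400 : ℝ) ≤ Z := by nlinarith
  have hnpos : (0 : ℝ) < n := by rw [hnR]; positivity
  have hn1 : (1 : ℝ) ≤ n := by rw [hnR]; nlinarith
  have hsqn : Real.sqrt n = Z := by rw [hnR]; exact Real.sqrt_sq hZpos.le
  refine ⟨n, by rw [hn, hZ], by exact_mod_cast hn1, ?_, ?_⟩
  · -- the tail condition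
    have h1 : Real.log (8 * n * n * m + 1) ≤ 7 * (m + 1) * Z := by
      have e1 : (8 * (n : ℝ) * n * m + 1) ≤ (3 * n * (m + 1)) ^ 2 := by
        have h2 : (1 : ℝ) ≤ (n : ℝ) ^ 2 := one_le_pow₀ hn1
        have h3 : (m : ℝ) ≤ ((m : ℝ) + 1) ^ 2 := by nlinarith
        have h4 : (8 * (n : ℝ) * n * m + 1) = 8 * n ^ 2 * m + 1 := by ring
        rw [h4, mul_pow, mul_pow]
        have h5 : 8 * (n : ℝ) ^ 2 * m ≤ 8 * (n : ℝ) ^ 2 * (((m : ℝ) + 1) ^ 2) :=
          mul_le_mul_of_nonneg_left h3 (by positivity)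
        have h6 : (1 : ℝ) ≤ (n : ℝ) ^ 2 * (((m : ℝ) + 1) ^ 2) := one_le_mul_of_one_le_of_one_le h2 hm2
        nlinarith
      have h7 : (0 : ℝ) < 3 * n * (m + 1) := by positivity
      have h8 : Real.log (8 * n * n * m + 1) ≤ 2 * Real.log (3 * n * (m + 1)) := by
        have h9 := Real.log_le_log (by positivity) e1
        rw [Real.log_pow] at h9
        push_cast at h9
        exact h9
      have h9 := log_le_two_sqrt h7
      have h10 : Real.sqrt (3 * n * (m + 1)) ≤ 1.75 * (m + 1) * Z := by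
        rw [show (1.75 * ((m : ℝ) + 1) * Z) = Real.sqrt ((1.75 * ((m : ℝ) + 1) * Z) ^ 2) by
          rw [Real.sqrt_sq (by positivity)]]
        apply Real.sqrt_le_sqrt
        rw [hnR]
        have h11 : (m : ℝ) + 1 ≤ ((m : ℝ) + 1) ^ 2 := by nlinarith
        have h12 : 0 ≤ (Z : ℝ) ^ 2 := by positivity
        calc 3 * (Z : ℝ) ^ 2 * (m + 1) ≤ 3 * (Z : ℝ) ^ 2 * ((m : ℝ) + 1) ^ 2 :=
              mul_le_mul_of_nonneg_left h11 (by positivity)
          _ ≤ (1.75 * ((m : ℝ) + 1) * Z) ^ 2 := by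
              rw [mul_pow, mul_pow]
              have : 0 ≤ (Z : ℝ) ^ 2 * ((m : ℝ) + 1) ^ 2 := by positivity
              nlinarith
      nlinarith
    have h2 : Real.log (4 * m + 1) ≤ 4 * (m + 1) := by
      have h3 := Real.log_le_sub_one_of_pos (show (0 : ℝ) < 4 * m + 1 by positivity)
      linarith
    have hc : 2 * (m * Real.log (8 * n * n * m + 1)) + 2 * (m * Real.log (4 * m + 1)) ≤
        22 * ((m : ℝ) + 1) ^ 2 * Z := by
      have h3 : (m : ℝ) * Real.log (8 * n * n * m + 1) ≤ (m + 1) * (7 * (m + 1) * Z) := by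
        have h4 : (m : ℝ) * Real.log (8 * n * n * m + 1) ≤ m * (7 * (m + 1) * Z) :=
          mul_le_mul_of_nonneg_left h1 hm0
        have h5 : 0 ≤ 7 * ((m : ℝ) + 1) * Z := by positivity
        nlinarith
      have h4 : (m : ℝ) * Real.log (4 * m + 1) ≤ (m + 1) * (4 * (m + 1)) := by
        have h5 : (m : ℝ) * Real.log (4 * m + 1) ≤ m * (4 * (m + 1)) :=
          mul_le_mul_of_nonneg_left h2 hm0
        nlinarith
      have h5 : ((m : ℝ) + 1) ^ 2 ≤ ((m : ℝ) + 1) ^ 2 * Z := le_mul_of_one_le_right (by positivity) (by linarith)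
      nlinarith
    have hlarge : 22 * ((m : ℝ) + 1) ^ 2 * Z + 2 ≤ n := by
      rw [hnR]
      have h3 : 400 * ((m : ℝ) + 1) ^ 2 * Z ≤ (Z : ℝ) ^ 2 :=
        (mul_le_mul_of_nonneg_right hZ1 hZpos.le).trans (le_of_eq (by ring))
      have h4 : (2 : ℝ) ≤ ((m : ℝ) + 1) ^ 2 * Z := by nlinarith
      nlinarith
    have h14 : (1 / 4 : ℝ) ≤ Real.exp (-1) := by
      rw [Real.exp_neg]
      have : Real.exp 1 < 4 := by have := Real.exp_one_lt_d9; linarith
      rw [one_div]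
      exact inv_anti₀ (Real.exp_pos 1) this.le
    set x := 2 * (m * Real.log (8 * n * n * m + 1)) + 2 * (m * Real.log (4 * m + 1)) with hx
    calc (1 / 4 : ℝ) ^ n ≤ Real.exp (-1) ^ n := pow_le_pow_left₀ (by norm_num) h14 _
      _ = Real.exp (-(n : ℝ)) := by
          rw [← Real.exp_nat_mul]; congr 1; ring
      _ ≤ Real.exp (-(x + 2)) := Real.exp_le_exp.2 (by linarith)
      _ = Real.exp (-x) * Real.exp (-2) := by rw [← Real.exp_add]; congr 1; ring
      _ ≤ Real.exp (-x) / 4 := by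
          have h5 : Real.exp (-2) ≤ 1 / 4 := by
            rw [Real.exp_neg, one_div]
            apply inv_anti₀ (by norm_num)
            have : (2 : ℝ) ≤ Real.exp 1 := by have := Real.exp_one_gt_d9; linarith
            have h6 : Real.exp 2 = Real.exp 1 * Real.exp 1 := by rw [← Real.exp_add]; norm_num
            nlinarith
          have := Real.exp_pos (-x)
          nlinarith
  · -- the radius
    have h1 : Real.log (4 * (n + 1) * m + 1) ≤ 6 * (m + 1) * Z := by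
      have h2 := log_le_two_sqrt (show (0 : ℝ) < 4 * (n + 1) * m + 1 by positivity)
      have h3 : Real.sqrt (4 * (n + 1) * m + 1) ≤ 3 * (m + 1) * Z := by
        rw [show (3 * ((m : ℝ) + 1) * Z) = Real.sqrt ((3 * ((m : ℝ) + 1) * Z) ^ 2) by
          rw [Real.sqrt_sq (by positivity)]]
        apply Real.sqrt_le_sqrt
        have h4 : 4 * ((n : ℝ) + 1) * m + 1 ≤ 9 * n * (m + 1) := by nlinarith
        refine h4.trans ?_
        rw [hnR]
        have h11 : (m : ℝ) + 1 ≤ ((m : ℝ) + 1) ^ 2 := by nlinarith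
        have h12 : 0 ≤ (Z : ℝ) ^ 2 := by positivity
        nlinarith
      linarith
    have h2 : (m : ℝ) * Real.log (4 * (n + 1) * m + 1) / n ≤ (1 / (8 * g * M + 1)) ^ 2 := by
      rw [div_pow, one_pow, div_le_div_iff₀ hnpos (by positivity), one_mul, hnR]
      have h3 : (m : ℝ) * Real.log (4 * (n + 1) * m + 1) ≤ (m + 1) * (6 * (m + 1) * Z) := by
        have h4 : (m : ℝ) * Real.log (4 * (n + 1) * m + 1) ≤ m * (6 * (m + 1) * Z) :=
          mul_le_mul_of_nonneg_left h1 hm0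
        have h5 : 0 ≤ 6 * ((m : ℝ) + 1) * Z := by positivity
        nlinarith
      have h4 : (8 * (g : ℝ) * M + 1) ^ 2 ≤ 66.1 * ((g : ℝ) ^ 2 * M ^ 2) := by
        have h5 : (8 : ℝ) ≤ g * M := by nlinarith
        have h6 : (g : ℝ) ^ 2 * M ^ 2 = (g * M) ^ 2 := by ring
        rw [h6]
        nlinarith
      calc (m : ℝ) * Real.log (4 * (↑Z ^ 2 + 1) * m + 1) * (8 * g * M + 1) ^ 2
          = ((m : ℝ) * Real.log (4 * (n + 1) * m + 1)) * (8 * g * M + 1) ^ 2 := by rw [hnR]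
        _ ≤ ((m + 1) * (6 * (m + 1) * Z)) * (66.1 * ((g : ℝ) ^ 2 * M ^ 2)) :=
            mul_le_mul h3 h4 (by positivity) (by positivity)
        _ = 396.6 * (g ^ 2 * M ^ 2 * (m + 1) ^ 2) * Z := by ring
        _ ≤ Z * Z := by
            apply mul_le_mul_of_nonneg_right _ hZpos.le
            rw [hZR]
            have : 0 ≤ (g : ℝ) ^ 2 * M ^ 2 * (m + 1) ^ 2 := by positivity
            nlinarith
        _ = (Z : ℝ) ^ 2 := by ring
    have h3 : Real.sqrt (m * Real.log (4 * (n + 1) * m + 1) / n) ≤ 1 / (8 * g * M + 1) := by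
      rw [← Real.sqrt_sq (show (0 : ℝ) ≤ 1 / (8 * g * M + 1) by positivity)]
      exact Real.sqrt_le_sqrt h2
    have hgM0 : 0 ≤ (g : ℝ) * (M * 4) := by positivity
    calc (g : ℝ) * (M * (4 * Real.sqrt (m * Real.log (4 * (n + 1) * m + 1) / n)))
        = (g : ℝ) * (M * 4) * Real.sqrt (m * Real.log (4 * (n + 1) * m + 1) / n) := by ring
      _ ≤ (g : ℝ) * (M * 4) * (1 / (8 * g * M + 1)) := mul_le_mul_of_nonneg_left h3 hgM0
      _ < 1 / 2 := by
          rw [mul_one_div, div_lt_div_iff₀ (by positivity) (by norm_num)]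
          linarith

end V5helper1.SD
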