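import Pool.Agent.H112R2.Final
set_option autoImplicit false

/-! Numerical estimates, second part. -/

set_option linter.unusedVariables false

namespace V5helper1.SD

open H112

theorem log2_lt : Real.log 2 < 0.7 := by
  have := Real.log_two_lt_d9; linarith

theorem log5_lt : Real.log 5 < 2 := by
  rw [Real.log_lt_iff_lt_exp (by norm_num)]
  have h4 : (2.7 : ℝ) ≤ Real.exp 1 := by have := Real.exp_one_gt_d9; linarith
  have h5 : Real.exp 2 = Real.exp 1 ^ 2 := by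
    rw [← Real.exp_nat_mul]; norm_num
  rw [h5]
  calc (5 : ℝ) < 2.7 ^ 2 := by norm_num
    _ ≤ _ := pow_le_pow_left₀ (by norm_num) h4 2

theorem log301_lt : Real.log 301 < 6 := by
  rw [Real.log_lt_iff_lt_exp (by norm_num)]
  have h4 : (2.7 : ℝ) ≤ Real.exp 1 := by have := Real.exp_one_gt_d9; linarith
  have h5 : Real.exp 6 = Real.exp 1 ^ 6 := by
    rw [← Real.exp_nat_mul]; norm_num
  rw [h5]
  calc (301 : ℝ) < 2.7 ^ 6 := by norm_num
    _ ≤ _ := pow_le_pow_left₀ (by norm_num) h4 6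

theorem log400_lt : Real.log 400 < 7 := by
  rw [Real.log_lt_iff_lt_exp (by norm_num)]
  have h4 : (2.7 : ℝ) ≤ Real.exp 1 := by have := Real.exp_one_gt_d9; linarith
  have h5 : Real.exp 7 = Real.exp 1 ^ 7 := by
    rw [← Real.exp_nat_mul]; norm_num
  rw [h5]
  calc (400 : ℝ) < 2.7 ^ 7 := by norm_num
    _ ≤ _ := pow_le_pow_left₀ (by norm_num) h4 7

theorem log_M_le {M : ℕ} {κ l : ℝ} (hκ : 0.69 < κ) (hl : l = 1 + Real.log (1 + κ)) (hM0 : 1 ≤ M)
    (hM : (M : ℝ) ≤ 5 * κ) : Real.log M ≤ 2 * l := by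
  have hM1 : (1 : ℝ) ≤ M := by exact_mod_cast hM0
  have hlog : 0 ≤ Real.log (1 + κ) := Real.log_nonneg (by linarith)
  have h1 : (M : ℝ) ≤ 5 * (1 + κ) := by linarith
  have h2 := Real.log_le_log (by linarith) h1
  rw [Real.log_mul (by norm_num) (by linarith)] at h2
  have := log5_lt
  rw [hl]; linarith

theorem log_m1_le {m : ℕ} {κ l : ℝ} (hκ : 0.69 < κ) (hl : l = 1 + Real.log (1 + κ))
    (hm : (m : ℝ) ≤ 300 * κ) : Real.log (m + 1) ≤ 6 * l := by
  have hm0 : (0 : ℝ) ≤ m := Nat.cast_nonneg m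
  have hlog : 0 ≤ Real.log (1 + κ) := Real.log_nonneg (by linarith)
  have h1 : (m : ℝ) + 1 ≤ 301 * (1 + κ) := by linarith
  have h2 := Real.log_le_log (by linarith) h1
  rw [Real.log_mul (by norm_num) (by linarith)] at h2
  have := log301_lt
  rw [hl]; linarith

/-- the exponent in the size of the Bohr set -/
theorem num_c {m M n k n₁ : ℕ} {κ l I : ℝ} (hκ : 0.69 < κ) (hl : l = 1 + Real.log (1 + κ))
    (hI : 1 ≤ I) (hm : (m : ℝ) ≤ 300 * κ) (hM0 : 1 ≤ M) (hM : (M : ℝ) ≤ 5 * κ)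
    (hk : (k : ℝ) ≤ 4 * I) (hn₁ : (n₁ : ℝ) ≤ 80000001 * (l * I))
    (hn : n = (400 * (2 ^ ((k + 2) * n₁)) ^ 2 * M ^ 2 * (m + 1) ^ 2) ^ 2) :
    2 * (m * Real.log (8 * n * n * m + 1)) + 2 * (m * Real.log (4 * m + 1)) ≤
      1700000000000 * κ * (l * I ^ 2) := by
  have hlog : 0 ≤ Real.log (1 + κ) := Real.log_nonneg (by linarith)
  have hl1 : 1 ≤ l := by rw [hl]; linarith
  have hm0 : (0 : ℝ) ≤ m := Nat.cast_nonneg m
  have hM1 : (1 : ℝ) ≤ M := by exact_mod_cast hM0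
  have hI2 : I ≤ I ^ 2 := by nlinarith
  have hI21 : 1 ≤ I ^ 2 := by linarith
  obtain ⟨w, hw⟩ : ∃ w : ℝ, w = l * I ^ 2 := ⟨_, rfl⟩
  have hlw : l ≤ w := by rw [hw]; exact le_mul_of_one_le_right (by linarith) hI21
  have hw1 : 1 ≤ w := hl1.trans hlw
  -- log of the integer
  have hlogg : Real.log ((2 : ℝ) ^ ((k + 2) * n₁)) ≤ 336000005 * w := by
    rw [Real.log_pow]
    push_cast
    have h1 : ((k : ℝ) + 2) * n₁ ≤ (6 * I) * (80000001 * (l * I)) := by
      apply mul_le_mul _ hn₁ (Nat.cast_nonneg _) (by positivity)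
      linarith
    have h2 : (6 * I) * (80000001 * (l * I)) = 480000006 * w := by rw [hw]; ring
    rw [h2] at h1
    have h3 : 0 ≤ Real.log 2 := Real.log_nonneg (by norm_num)
    calc ((k : ℝ) + 2) * n₁ * Real.log 2 ≤ (480000006 * w) * Real.log 2 :=
          mul_le_mul_of_nonneg_right h1 h3
      _ ≤ (480000006 * w) * 0.7 := mul_le_mul_of_nonneg_left log2_lt.le (by positivity)
      _ ≤ 336000005 * w := by linarith
  have hnR : (n : ℝ) = (400 * ((2 : ℝ) ^ ((k + 2) * n₁)) ^ 2 * M ^ 2 * (m + 1) ^ 2) ^ 2 := by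
    rw [hn]; push_cast; ring
  have hgpos : (0 : ℝ) < 2 ^ ((k + 2) * n₁) := by positivity
  have hlogn : Real.log n ≤ 1344000100 * w := by
    rw [hnR, Real.log_pow, Real.log_mul (by positivity) (by positivity),
      Real.log_mul (by positivity) (by positivity), Real.log_mul (by positivity) (by positivity),
      Real.log_pow ((2 : ℝ) ^ ((k + 2) * n₁)) 2, Real.log_pow (M : ℝ) 2,
      Real.log_pow ((m : ℝ) + 1) 2]
    push_cast
    have h1 := log_M_le hκ hl hM0 hM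
    have h2 := log_m1_le hκ hl hm
    have h3 := log400_lt
    nlinarith
  have hn1 : (1 : ℝ) ≤ n := by
    rw [hnR]
    apply one_le_pow₀
    have h1 : (1 : ℝ) ≤ (2 ^ ((k + 2) * n₁)) ^ 2 := one_le_pow₀ (one_le_pow₀ (by norm_num))
    have h2 : (1 : ℝ) ≤ (M : ℝ) ^ 2 := one_le_pow₀ hM1
    have h3 : (1 : ℝ) ≤ ((m : ℝ) + 1) ^ 2 := one_le_pow₀ (by linarith)
    have h4 : (1 : ℝ) ≤ 400 * (2 ^ ((k + 2) * n₁)) ^ 2 := by linarith
    exact one_le_mul_of_one_le_of_one_le (one_le_mul_of_one_le_of_one_le h4 h2) h3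
  have h8 : Real.log (8 * n * n * m + 1) ≤ 2688000300 * w := by
    have e1 : (8 * (n : ℝ) * n * m + 1) ≤ (3 * n * (m + 1)) ^ 2 := by
      have h2 : (1 : ℝ) ≤ (n : ℝ) ^ 2 := one_le_pow₀ hn1
      have h3 : (m : ℝ) ≤ ((m : ℝ) + 1) ^ 2 := by nlinarith
      have h4 : (8 * (n : ℝ) * n * m + 1) = 8 * n ^ 2 * m + 1 := by ring
      rw [h4, mul_pow, mul_pow]
      have h5 : 8 * (n : ℝ) ^ 2 * m ≤ 8 * (n : ℝ) ^ 2 * (((m : ℝ) + 1) ^ 2) :=
        mul_le_mul_of_nonneg_left h3 (by positivity)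
      have hm2 : (1 : ℝ) ≤ ((m : ℝ) + 1) ^ 2 := one_le_pow₀ (by linarith)
      have h6 : (1 : ℝ) ≤ (n : ℝ) ^ 2 * (((m : ℝ) + 1) ^ 2) :=
        one_le_mul_of_one_le_of_one_le h2 hm2
      nlinarith
    have h9 := Real.log_le_log (by positivity) e1
    rw [Real.log_pow, Real.log_mul (by positivity) (by positivity),
      Real.log_mul (by norm_num) (by positivity)] at h9
    push_cast at h9
    have h2 := log_m1_le hκ hl hm
    have h3 : Real.log 3 ≤ 2 := by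
      have := Real.log_le_sub_one_of_pos (show (0 : ℝ) < 3 by norm_num)
      linarith
    linarith
  have h9 : Real.log (4 * m + 1) ≤ 8 * l := by rw [hl]; exact log_4m_le hκ hm
  have h10 : (m : ℝ) * Real.log (8 * n * n * m + 1) ≤ (300 * κ) * (2688000300 * w) := by
    calc (m : ℝ) * Real.log (8 * n * n * m + 1) ≤ m * (2688000300 * w) :=
          mul_le_mul_of_nonneg_left h8 hm0
      _ ≤ _ := mul_le_mul_of_nonneg_right hm (by positivity)
  have h11 : (m : ℝ) * Real.log (4 * m + 1) ≤ (300 * κ) * (8 * w) := by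
    calc (m : ℝ) * Real.log (4 * m + 1) ≤ m * (8 * w) :=
          mul_le_mul_of_nonneg_left (by linarith) hm0
      _ ≤ _ := mul_le_mul_of_nonneg_right hm (by positivity)
  have h12 : 0 ≤ κ * w := by positivity
  rw [← hw]
  nlinarith

/-- the number of translates -/
theorem num_W {m M k n₂ : ℕ} {κ l I x V : ℝ} (hκ : 0.69 < κ) (hl : l = 1 + Real.log (1 + κ))
    (hI : 1 ≤ I) (hm : (m : ℝ) ≤ 300 * κ) (hM0 : 1 ≤ M) (hM : (M : ℝ) ≤ 5 * κ)
    (hk : (k : ℝ) ≤ 4 * I) (hn₂ : (n₂ : ℝ) ≤ 130001 * (l * I)) (hx0 : 0 ≤ x)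
    (hx : x ≤ Real.exp (8000 * κ * l)) :
    x * (2 * (2 ^ (2 * n₂ + k + 4) * M) * m + 1) ^ m * (Real.exp 1 * (4 * m + 1) ^ m) ≤
      Real.exp (55000000 * κ * (l * I)) := by
  have hlog : 0 ≤ Real.log (1 + κ) := Real.log_nonneg (by linarith)
  have hl1 : 1 ≤ l := by rw [hl]; linarith
  have hm0 : (0 : ℝ) ≤ m := Nat.cast_nonneg m
  have hM1 : (1 : ℝ) ≤ M := by exact_mod_cast hM0
  obtain ⟨w, hw⟩ : ∃ w : ℝ, w = l * I := ⟨_, rfl⟩
  have hlw : l ≤ w := by rw [hw]; exact le_mul_of_one_le_right (by linarith) hI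
  have hIw : I ≤ w := by rw [hw]; exact le_mul_of_one_le_left (by linarith) hl1
  have hw1 : 1 ≤ w := hl1.trans hlw
  rw [← hw] at hn₂ ⊢
  have h1 : Real.log (2 * (2 ^ (2 * n₂ + k + 4) * M) * m + 1) ≤ 182020 * w := by
    have e1 : (2 * (2 ^ (2 * n₂ + k + 4) * (M : ℝ)) * m + 1) ≤
        2 ^ (2 * n₂ + k + 5) * M * (m + 1) := by
      have e2 : (2 : ℝ) ^ (2 * n₂ + k + 5) = 2 * 2 ^ (2 * n₂ + k + 4) := by
        rw [pow_succ]; ring
      rw [e2]
      have e3 : (1 : ℝ) ≤ 2 * 2 ^ (2 * n₂ + k + 4) * M := by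
        have e4 : (1 : ℝ) ≤ 2 ^ (2 * n₂ + k + 4) := one_le_pow₀ (by norm_num)
        exact one_le_mul_of_one_le_of_one_le (by linarith) hM1
      nlinarith
    have h2 := Real.log_le_log (by positivity) e1
    rw [Real.log_mul (by positivity) (by positivity), Real.log_mul (by positivity) (by positivity),
      Real.log_pow] at h2
    push_cast at h2
    have h3 := log_M_le hκ hl hM0 hM
    have h4 := log_m1_le hκ hl hm
    have h5 : (2 * (n₂ : ℝ) + k + 5) * Real.log 2 ≤ (260011 * w) * 0.7 := by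
      apply mul_le_mul _ log2_lt.le (Real.log_nonneg (by norm_num)) (by positivity)
      linarith
    linarith
  have h2 : (2 * (2 ^ (2 * n₂ + k + 4) * (M : ℝ)) * m + 1) ^ m ≤
      Real.exp ((300 * κ) * (182020 * w)) :=
    pow_le_exp (by positivity) h1 hm (by positivity)
  have h3 : (4 * (m : ℝ) + 1) ^ m ≤ Real.exp ((300 * κ) * (8 * w)) := by
    apply pow_le_exp (by positivity) _ hm (by positivity)
    have := log_4m_le hκ hm
    rw [← hl] at this
    linarith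
  have h4 : Real.exp 1 ≤ Real.exp (2 * κ * w) := by
    apply Real.exp_le_exp.2
    nlinarith
  have h5 : x ≤ Real.exp (8000 * κ * w) := by
    refine hx.trans (Real.exp_le_exp.2 ?_)
    have : 0 ≤ 8000 * κ := by positivity
    exact mul_le_mul_of_nonneg_left hlw this
  calc x * (2 * (2 ^ (2 * n₂ + k + 4) * M) * m + 1) ^ m * (Real.exp 1 * (4 * m + 1) ^ m)
      ≤ Real.exp (8000 * κ * w) * Real.exp ((300 * κ) * (182020 * w)) *
        (Real.exp (2 * κ * w) * Real.exp ((300 * κ) * (8 * w))) := by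
        gcongr
    _ = Real.exp (8000 * κ * w + (300 * κ) * (182020 * w) + (2 * κ * w + (300 * κ) * (8 * w))) := by
        rw [← Real.exp_add, ← Real.exp_add, ← Real.exp_add]
    _ ≤ Real.exp (55000000 * κ * w) := by
        apply Real.exp_le_exp.2
        have : 0 ≤ κ * w := by positivity
        nlinarith

/-- the scales -/
theorem num_scale {n₂ : ℕ} {κ lam l ε K y : ℝ} (hκ : 0.69 < κ) (hl : l = 1 + Real.log (1 + κ))
    (hε : 0 < ε) (hlam : κ ≤ 2 * lam) (hn₂ : 130000 * l / ε ≤ n₂) (hK0 : 0 < K)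
    (hK : K < Real.exp κ) (hy : y ≤ Real.exp (8000 * κ * l)) :
    y * K < (Real.exp (ε / 8 * lam)) ^ n₂ := by
  have hlog : 0 ≤ Real.log (1 + κ) := Real.log_nonneg (by linarith)
  have hl1 : 1 ≤ l := by rw [hl]; linarith
  have h1 : y * K ≤ Real.exp (8000 * κ * l) * K := mul_le_mul_of_nonneg_right hy hK0.le
  have h2 : Real.exp (8000 * κ * l) * K < Real.exp (8000 * κ * l) * Real.exp κ :=
    mul_lt_mul_of_pos_left hK (Real.exp_pos _)
  refine (lt_of_le_of_lt h1 h2).trans_le ?_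
  rw [← Real.exp_add, ← Real.exp_nat_mul]
  apply Real.exp_le_exp.2
  rw [div_le_iff₀ hε] at hn₂
  have h3 : 130000 * l * (κ / 2) ≤ (n₂ * ε) * lam :=
    mul_le_mul hn₂ (by linarith) (by positivity) (by positivity)
  have h4 : κ ≤ κ * l := le_mul_of_one_le_right (by linarith) hl1
  have h5 : (n₂ : ℝ) * (ε / 8 * lam) = ((n₂ * ε) * lam) / 8 := by ring
  rw [h5]
  nlinarith

/-- the contradiction -/
theorem num_final {M k n₁ : ℕ} {κ lam l ε I W₀ : ℝ} (hκ : 0.69 < κ)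
    (hl : l = 1 + Real.log (1 + κ)) (hε : 0 < ε) (hε1 : ε ≤ 1) (hI : ε * I = 1)
    (hlam : κ ≤ 2 * lam) (hk : 3 ≤ k * ε) (hn₁ : 80000000 * (l * I) ≤ n₁)
    (hM : (1 + ε) * lam < M * Real.log 2) (hW : W₀ ≤ Real.exp (55000000 * κ * (l * I))) :
    ((Real.exp ((1 + ε / 8) * lam)) ^ (k + 1)) ^ n₁ * W₀ < ((2 : ℝ) ^ (k * M)) ^ n₁ := by
  have hlog : 0 ≤ Real.log (1 + κ) := Real.log_nonneg (by linarith)
  have hl1 : 1 ≤ l := by rw [hl]; linarith
  have hI0 : 0 < I := by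
    by_contra hneg
    push Not at hneg
    have : ε * I ≤ 0 := mul_nonpos_of_nonneg_of_nonpos hε.le hneg
    linarith
  have hk0 : (0 : ℝ) < k := by
    by_contra hneg
    push Not at hneg
    have : (k : ℝ) * ε ≤ 0 := mul_nonpos_of_nonpos_of_nonneg hneg hε.le
    linarith
  have hn0 : (0 : ℝ) < n₁ := lt_of_lt_of_le (by positivity) hn₁
  have e1 : ((Real.exp ((1 + ε / 8) * lam)) ^ (k + 1)) ^ n₁ =
      Real.exp (n₁ * ((k + 1) * ((1 + ε / 8) * lam))) := by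
    rw [← Real.exp_nat_mul, ← Real.exp_nat_mul]
    push_cast
    rfl
  have e2 : ((2 : ℝ) ^ (k * M)) ^ n₁ = Real.exp (n₁ * (k * (M * Real.log 2))) := by
    rw [← Real.exp_log (show (0 : ℝ) < 2 by norm_num), ← Real.exp_nat_mul, ← Real.exp_nat_mul]
    rw [Real.log_exp]
    push_cast
    ring_nf
  rw [e1, e2]
  have h1 : Real.exp (n₁ * ((k + 1) * ((1 + ε / 8) * lam))) * W₀ ≤
      Real.exp (n₁ * ((k + 1) * ((1 + ε / 8) * lam))) * Real.exp (55000000 * κ * (l * I)) :=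
    mul_le_mul_of_nonneg_left hW (Real.exp_pos _).le
  refine lt_of_le_of_lt h1 ?_
  rw [← Real.exp_add]
  apply Real.exp_lt_exp.2
  have hlam0 : 0 < lam := by linarith
  have h2 : (n₁ : ℝ) * (k * ((1 + ε) * lam)) < n₁ * (k * (M * Real.log 2)) := by
    apply mul_lt_mul_of_pos_left _ hn0
    exact mul_lt_mul_of_pos_left hM hk0
  refine lt_of_le_of_lt ?_ h2
  have h3 : 1.5 ≤ (k : ℝ) * (1 + ε) - (k + 1) * (1 + ε / 8) := by nlinarith
  have h4 : 1.5 * lam ≤ ((k : ℝ) * (1 + ε) - (k + 1) * (1 + ε / 8)) * lam :=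
    mul_le_mul_of_nonneg_right h3 hlam0.le
  have h5 : 80000000 * (l * I) * (0.75 * κ) ≤ n₁ * (((k : ℝ) * (1 + ε) - (k + 1) * (1 + ε / 8)) * lam) := by
    apply mul_le_mul hn₁ _ (by positivity) hn0.le
    linarith
  have h6 : 0 ≤ l * I * κ := by positivity
  nlinarith

end V5helper1.SD
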