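import Pool.Agent.V5helper1.SD.LLx
import Pool.Agent.V5helper1.SD.Big
set_option autoImplicit false

/-! Shrinking a convex coset progression to volume at most `|A|`
(adapted from the starting result `H112.cover_final`). -/

open scoped Classical Pointwise
set_option linter.unusedSectionVars false
set_option linter.unusedVariables false

namespace V5helper1.SD

open H112 Finset

variable {G : Type*} [AddCommGroup G]

/-- the coset progression is proper -/
def Proper {d : ℕ} (B : Set (Fin d → ℝ)) (ψ : (Fin d → ℤ) →+ G) (H₀ : AddSubgroup G) : Prop :=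
  Set.InjOn (fun p : (Fin d → ℤ) × G => ψ p.1 + p.2)
    ({c : Fin d → ℤ | (fun i => (c i : ℝ)) ∈ B} ×ˢ (H₀ : Set G))

theorem shrink {A : Finset G} (hA : A.Nonempty) {V : ℝ} (hV : 1 ≤ V)
    {m : ℕ} (N : Seminorm ℝ (Fin m → ℝ)) (ψ : (Fin m → ℤ) →+ G) (hN : ∀ x, N x = 0 → x = 0)
    (H₀ : AddSubgroup G) (hH₀ : Finite H₀) {ρ : ℝ} (hρ0 : 0 < ρ)
    (hsize : ((LL N (2 * ρ)).ncard : ℝ) * Nat.card H₀ ≤ V * A.card) {X : Finset G}
    (hX : ∀ a ∈ A, ∃ x ∈ X, ∃ c ∈ LL N ρ, a - x - ψ c ∈ H₀)
    (hprop : ∀ c ∈ LL N (2 * ρ), ψ c ∈ H₀ → c = 0) :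
    ∃ (d : ℕ) (B : Set (Fin d → ℝ)) (ψ' : (Fin d → ℤ) →+ G) (H₁ : AddSubgroup G) (T : Finset G),
      d ≤ max m 1 ∧ SymmBody B ∧ Finite H₁ ∧ Proper B ψ' H₁ ∧
      {c : Fin d → ℤ | (fun i => (c i : ℝ)) ∈ B}.ncard * Nat.card H₁ ≤ A.card ∧
      (T.card : ℝ) ≤ X.card * (6 * V * (8 * m + 1) ^ m) ∧
      Covers B ψ' H₁ T A := by
  have hannpos : 0 < Nat.card H₀ := Nat.card_pos
  have hAc : 0 < A.card := hA.card_pos
  have hpow1 : (1 : ℝ) ≤ (8 * m + 1) ^ m := one_le_pow₀ (by
    have : (0:ℝ) ≤ m := by positivity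
    linarith)
  have hLfin : ∀ r, (LL N r).Finite := fun r => LL_finite hN r
  by_cases hcase : A.card < Nat.card H₀
  · -- big subgroup
    obtain ⟨l, g, H₁, T', hfin1, hle, hvol, hT', hcov, hprop1⟩ := big_subgroup' H₀ hH₀ hAc hcase
    let ψ' : (Fin 1 → ℤ) →+ G :=
      { toFun := fun c => c 0 • g
        map_zero' := by simp
        map_add' := fun a b => by simp [add_smul] }
    let N1 : Seminorm ℝ (Fin 1 → ℝ) := normSeminorm ℝ (Fin 1 → ℝ)
    have hN1 : ∀ x : Fin 1 → ℝ, N1 x = |x 0| := by
      intro x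
      show ‖x‖ = |x 0|
      rw [← Real.norm_eq_abs]
      apply le_antisymm
      · rw [pi_norm_le_iff_of_nonneg (norm_nonneg _)]
        intro i
        rw [Subsingleton.elim i 0]
      · exact norm_le_pi_norm x 0
    set LF := (hLfin ρ).toFinset with hLF
    set T : Finset G := (X ×ˢ (LF ×ˢ T')).image (fun p => p.1 + ψ p.2.1 + p.2.2) with hT
    refine ⟨1, {x | N1 x ≤ (l : ℝ) + 1 / 2}, ψ', H₁, T, le_max_right _ _, ?_, hfin1, ?_, ?_, ?_,
      ?_⟩
    · apply symmBody_ball N1
      · intro x hx
        exact norm_eq_zero.1 hx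
      · positivity
    · have hbd : ∀ c : Fin 1 → ℤ, (fun i => (c i : ℝ)) ∈ {x : Fin 1 → ℝ | N1 x ≤ (l : ℝ) + 1 / 2} →
          |c 0| ≤ l := by
        intro c h
        simp only [Set.mem_ofPred_eq, hN1] at h
        have h' : |c 0| < (l : ℤ) + 1 := by
          have : ((|c 0| : ℤ) : ℝ) < ((l : ℤ) + 1 : ℤ) := by
            push_cast
            linarith
          exact_mod_cast this
        omega
      rintro ⟨c, h⟩ ⟨hc, hh⟩ ⟨c', h'⟩ ⟨hc', hh'⟩ heq
      simp only at hc hh hc' hh' heq
      have h1 := hbd c hc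
      have h2 := hbd c' hc'
      have h3 : (c 0 - c' 0) • g ∈ H₁ := by
        have h4 : (c 0 - c' 0) • g = h' - h := by
          rw [sub_smul]
          have h5 : c 0 • g + h = c' 0 • g + h' := heq
          rw [sub_eq_sub_iff_add_eq_add, h5, add_comm]
        rw [h4]
        exact H₁.sub_mem hh' hh
      have h4 := hprop1 _ (by
        have := abs_sub (c 0) (c' 0)
        omega) h3
      have h5 : c = c' := by
        funext i
        rw [Subsingleton.elim i 0]
        omega
      subst h5
      rw [add_left_cancel heq]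
    · have e : {c : Fin 1 → ℤ | (fun i => (c i : ℝ)) ∈ {x : Fin 1 → ℝ | N1 x ≤ (l : ℝ) + 1 / 2}} =
          (fun z : ℤ => (fun _ : Fin 1 => z)) '' (Finset.Icc (-(l : ℤ)) l : Set ℤ) := by
        ext c
        simp only [Set.mem_ofPred_eq, hN1, Set.mem_image, Finset.coe_Icc, Set.mem_Icc]
        constructor
        · intro h
          refine ⟨c 0, ?_, ?_⟩
          · have h' : |c 0| < (l : ℤ) + 1 := by
              have : ((|c 0| : ℤ) : ℝ) < ((l : ℤ) + 1 : ℤ) := by
                push_cast
                linarith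
              exact_mod_cast this
            rw [abs_lt] at h'
            constructor <;> omega
          · ext i
            rw [Subsingleton.elim i 0]
        · rintro ⟨z, hz, rfl⟩
          have : ((|z| : ℤ) : ℝ) ≤ ((l : ℤ) : ℝ) := by
            exact_mod_cast abs_le.2 hz
          push_cast at this
          linarith
      have hcount : {c : Fin 1 → ℤ | (fun i => (c i : ℝ)) ∈ {x : Fin 1 → ℝ | N1 x ≤ (l : ℝ) + 1 / 2}}.ncard
          = 2 * l + 1 := by
        rw [e, Set.ncard_image_of_injective]
        · rw [Set.ncard_coe_finset, Int.card_Icc]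
          omega
        · intro a b hab
          exact congrFun hab 0
      rw [hcount]
      exact hvol
    · -- card
      have hTc : T.card ≤ X.card * ((LL N ρ).ncard * T'.card) := by
        rw [hT]
        refine Finset.card_image_le.trans ?_
        rw [Finset.card_product, Finset.card_product, Set.ncard_eq_toFinset_card _ (hLfin ρ)]
      have h3 : ((LL N ρ).ncard : ℝ) * Nat.card H₀ ≤ V * A.card := by
        refine le_trans ?_ hsize
        have h4 : (LL N ρ).ncard ≤ (LL N (2 * ρ)).ncard :=
          Set.ncard_le_ncard (LL_mono N (by linarith)) (hLfin _)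
        have h5 : ((LL N ρ).ncard : ℝ) ≤ (LL N (2 * ρ)).ncard := by exact_mod_cast h4
        exact mul_le_mul_of_nonneg_right h5 (Nat.cast_nonneg _)
      have hA0 : (0:ℝ) < A.card := by exact_mod_cast hAc
      have h5 : ((LL N ρ).ncard : ℝ) * T'.card ≤ 6 * V := by
        have h6 : ((LL N ρ).ncard : ℝ) * T'.card * A.card ≤ 6 * V * A.card := by
          calc ((LL N ρ).ncard : ℝ) * T'.card * A.card = ((LL N ρ).ncard : ℝ) * (T'.card * A.card) := by ring
            _ ≤ ((LL N ρ).ncard : ℝ) * (6 * Nat.card H₀) :=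
                mul_le_mul_of_nonneg_left hT' (by positivity)
            _ = 6 * (((LL N ρ).ncard : ℝ) * Nat.card H₀) := by ring
            _ ≤ 6 * (V * A.card) := by linarith
            _ = _ := by ring
        exact le_of_mul_le_mul_right h6 hA0
      calc (T.card : ℝ) ≤ X.card * (((LL N ρ).ncard : ℝ) * T'.card) := by exact_mod_cast hTc
        _ ≤ X.card * (6 * V) := mul_le_mul_of_nonneg_left h5 (by positivity)
        _ ≤ X.card * (6 * V * (8 * m + 1) ^ m) := by
            apply mul_le_mul_of_nonneg_left _ (by positivity)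
            have : 0 ≤ 6 * V := by linarith
            nlinarith
    · intro a ha
      obtain ⟨x, hx, c, hc, hh⟩ := hX a ha
      obtain ⟨t, ht, z, hz, h', hh', heq⟩ := hcov _ hh
      refine ⟨x + ψ c + t, ?_, fun _ => z, ?_, h', hh', ?_⟩
      · rw [hT, Finset.mem_image]
        refine ⟨(x, c, t), ?_, rfl⟩
        simp only [Finset.mem_product, hLF, Set.Finite.mem_toFinset]
        exact ⟨hx, hc, ht⟩
      · simp only [Set.mem_ofPred_eq, hN1]
        have : ((|z| : ℤ) : ℝ) ≤ ((l : ℤ) : ℝ) := by exact_mod_cast hz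
        push_cast at this
        linarith
      · show a = x + ψ c + t + z • g + h'
        have : a = x + ψ c + (a - x - ψ c) := by abel
        rw [this, heq]
        abel
  · push Not at hcase
    -- find j
    have hexj : ∃ j : ℕ, (LL N (ρ / 2 ^ j)).ncard * Nat.card H₀ ≤ A.card := by
      have hpos : ∀ c ∈ LL N ρ, c ≠ 0 → 0 < N (fun i => (c i : ℝ)) := by
        intro c _ hc0
        refine lt_of_le_of_ne (apply_nonneg N _) (fun h => hc0 ?_)
        have := hN _ h.symm
        ext i
        have h6 := congrFun this i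
        simp only [Pi.zero_apply] at h6 ⊢
        exact_mod_cast h6
      -- minimal positive value
      obtain ⟨ε, hε, hεmin⟩ : ∃ ε : ℝ, 0 < ε ∧ ∀ c ∈ LL N ρ, c ≠ 0 → ε ≤ N (fun i => (c i : ℝ)) := by
        set F := ((hLfin ρ).toFinset.erase 0).image (fun c => N (fun i => (c i : ℝ))) with hF
        rcases F.eq_empty_or_nonempty with hemp | hne
        · refine ⟨1, one_pos, fun c hc hc0 => ?_⟩
          exfalso
          have : N (fun i => (c i : ℝ)) ∈ F := by
            rw [hF, Finset.mem_image]
            exact ⟨c, by simp [hc0, hc], rfl⟩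
          rw [hemp] at this
          simp at this
        · refine ⟨F.min' hne, ?_, fun c hc hc0 => ?_⟩
          · obtain ⟨c, hc, hceq⟩ := Finset.mem_image.1 (F.min'_mem hne)
            simp only [Finset.mem_erase, Set.Finite.mem_toFinset] at hc
            rw [← hceq]
            exact hpos c hc.2 hc.1
          · apply Finset.min'_le
            rw [hF, Finset.mem_image]
            exact ⟨c, by simp [hc0, hc], rfl⟩
      obtain ⟨j, hj⟩ := exists_pow_lt_of_lt_one (by positivity : 0 < ε / ρ) (by norm_num : (1/2 : ℝ) < 1)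
      refine ⟨j, ?_⟩
      have hsub : LL N (ρ / 2 ^ j) ⊆ {0} := by
        intro c hc
        by_contra hc0
        simp only [Set.mem_singleton_iff] at hc0
        have hc' : N (fun i => (c i : ℝ)) ≤ ρ / 2 ^ j := hc
        have hle : ρ / 2 ^ j ≤ ρ := div_le_self hρ0.le (one_le_pow₀ (by norm_num))
        have h3 := hεmin c (hc'.trans hle) hc0
        have h4 : ρ / 2 ^ j < ε := by
          rw [lt_div_iff₀ hρ0] at hj
          calc ρ / 2 ^ j = (1 / 2) ^ j * ρ := by rw [one_div, inv_pow]; ring
            _ < ε := hj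
        linarith
      have : (LL N (ρ / 2 ^ j)).ncard ≤ 1 := by
        have := Set.ncard_le_ncard hsub (Set.finite_singleton _)
        simpa using this
      calc (LL N (ρ / 2 ^ j)).ncard * Nat.card H₀ ≤ 1 * Nat.card H₀ :=
            Nat.mul_le_mul_right _ this
        _ ≤ A.card := by omega
    set j := Nat.find hexj with hj
    have hjspec : (LL N (ρ / 2 ^ j)).ncard * Nat.card H₀ ≤ A.card := Nat.find_spec hexj
    have hjmin : ∀ k < j, A.card < (LL N (ρ / 2 ^ k)).ncard * Nat.card H₀ := by
      intro k hk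
      have := Nat.find_min hexj hk
      omega
    have hrpos : 0 < ρ / 2 ^ j := by positivity
    have hrle : ρ / 2 ^ j ≤ ρ := div_le_self hρ0.le (one_le_pow₀ (by norm_num))
    have hbodycount : {c : Fin m → ℤ | (fun i => (c i : ℝ)) ∈ {x : Fin m → ℝ | N x ≤ ρ / 2 ^ j}} = LL N (ρ / 2 ^ j) := rfl
    -- the covering of the ball of radius `ρ`
    obtain ⟨Y, hYc, hYcov⟩ : ∃ Y : Finset (Fin m → ℤ), (Y.card : ℝ) ≤ V * (8 * m + 1) ^ m ∧
        ∀ b ∈ LL N ρ, ∃ y ∈ Y, b - y ∈ LL N (ρ / 2 ^ j) := by
      rcases Nat.eq_zero_or_pos j with hj0 | hjpos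
      · refine ⟨{0}, ?_, fun b hb => ⟨0, by simp, ?_⟩⟩
        · rw [Finset.card_singleton]
          push_cast
          nlinarith
        · rw [sub_zero, hj0, pow_zero, div_one]
          exact hb
      · set r := ρ / 2 ^ j with hr
        have h2r : ρ / 2 ^ (j - 1) = 2 * r := by
          rw [hr]
          obtain ⟨k, hk⟩ : ∃ k, j = k + 1 := ⟨j - 1, by omega⟩
          rw [hk, Nat.add_sub_cancel, pow_succ]
          field_simp
        have hbig := hjmin (j - 1) (by omega)
        rw [h2r] at hbig
        have h2rle : 2 * r ≤ ρ := by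
          rw [← h2r]
          exact div_le_self hρ0.le (one_le_pow₀ (by norm_num))
        have hd := LL_card hN (r := r / 2) (by linarith) 4 (by norm_num)
        have e4 : ((4 : ℕ) : ℝ) * (r / 2) = 2 * r := by push_cast; ring
        rw [e4] at hd
        have hH0 : (0 : ℝ) < Nat.card H₀ := by exact_mod_cast hannpos
        have hAle : (A.card : ℝ) ≤ (8 * m + 1) ^ m * (LL N (r / 2)).ncard * Nat.card H₀ := by
          have : A.card ≤ (2 * 4 * m + 1) ^ m * (LL N (r / 2)).ncard * Nat.card H₀ :=
            hbig.le.trans (Nat.mul_le_mul_right _ hd)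
          have h8 : (A.card : ℝ) ≤ (2 * 4 * m + 1) ^ m * (LL N (r / 2)).ncard * Nat.card H₀ := by
            exact_mod_cast this
          have e : (2 * 4 * (m : ℝ) + 1) = 8 * m + 1 := by ring
          rwa [e] at h8
        have hsz : ((LL N (2 * ρ)).ncard : ℝ) ≤ (V * (8 * m + 1) ^ m) * (LL N (r / 2)).ncard := by
          refine le_of_mul_le_mul_right ?_ hH0
          calc ((LL N (2 * ρ)).ncard : ℝ) * Nat.card H₀ ≤ V * A.card := hsize
            _ ≤ V * ((8 * m + 1) ^ m * (LL N (r / 2)).ncard * Nat.card H₀) :=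
                mul_le_mul_of_nonneg_left hAle (by linarith)
            _ = _ := by ring
        have hPne : (hLfin (r / 2)).toFinset.Nonempty := by
          refine ⟨0, ?_⟩
          rw [Set.Finite.mem_toFinset]
          exact LL_zero_mem N (by linarith)
        have hadd : (((hLfin ρ).toFinset + (hLfin (r / 2)).toFinset).card : ℝ) ≤
            (V * (8 * m + 1) ^ m) * (hLfin (r / 2)).toFinset.card := by
          have hsub : (hLfin ρ).toFinset + (hLfin (r / 2)).toFinset ⊆ (hLfin (2 * ρ)).toFinset := by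
            intro z hz
            obtain ⟨u, hu, v, hv, rfl⟩ := Finset.mem_add.1 hz
            rw [Set.Finite.mem_toFinset] at hu hv ⊢
            exact LL_mono N (by linarith) (LL_add' N hu hv)
          have h6 : (hLfin (r / 2)).toFinset.card = (LL N (r / 2)).ncard :=
            (Set.ncard_eq_toFinset_card _ (hLfin (r / 2))).symm
          have h7 : (hLfin (2 * ρ)).toFinset.card = (LL N (2 * ρ)).ncard :=
            (Set.ncard_eq_toFinset_card _ (hLfin (2 * ρ))).symm
          calc (((hLfin ρ).toFinset + (hLfin (r / 2)).toFinset).card : ℝ)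
              ≤ ((hLfin (2 * ρ)).toFinset.card : ℝ) := by
                exact_mod_cast Finset.card_le_card hsub
            _ ≤ _ := by rw [h7, h6]; exact hsz
        obtain ⟨Y, _, hYc, hcov⟩ := Finset.ruzsa_covering_add hPne hadd
        refine ⟨Y, hYc, fun b hb => ?_⟩
        have hb' : b ∈ (hLfin ρ).toFinset := by rw [Set.Finite.mem_toFinset]; exact hb
        obtain ⟨y, hy, d, hd', rfl⟩ := Finset.mem_add.1 (hcov hb')
        obtain ⟨p, hp, p', hp', rfl⟩ := Finset.mem_sub.1 hd'
        rw [Set.Finite.mem_toFinset] at hp hp'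
        refine ⟨y, hy, ?_⟩
        have := LL_add N hp hp'
        rw [add_sub_cancel_left]
        have e : r / 2 + r / 2 = r := by ring
        rwa [e] at this
    refine ⟨m, {x | N x ≤ ρ / 2 ^ j}, ψ, H₀, X + Y.image ψ, le_max_left _ _,
      symmBody_ball N hN hrpos, hH₀, ?_, ?_, ?_, ?_⟩
    · rintro ⟨c, h⟩ ⟨hc, hh⟩ ⟨c', h'⟩ ⟨hc', hh'⟩ heq
      simp only at hc hh hc' hh' heq
      have h1 : c - c' ∈ LL N (2 * ρ) := by
        have hc1 : c ∈ LL N (ρ / 2 ^ j) := hc
        have hc2 : c' ∈ LL N (ρ / 2 ^ j) := hc'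
        exact LL_mono N (by linarith) (LL_add N hc1 hc2)
      have h2 : ψ (c - c') ∈ H₀ := by
        have h4 : ψ (c - c') = h' - h := by
          rw [map_sub, sub_eq_sub_iff_add_eq_add, heq, add_comm]
        rw [h4]
        exact H₀.sub_mem hh' hh
      have h3 : c = c' := sub_eq_zero.1 (hprop _ h1 h2)
      subst h3
      rw [add_left_cancel heq]
    · rw [hbodycount]
      exact hjspec
    · calc ((X + Y.image ψ).card : ℝ) ≤ X.card * (Y.image ψ).card := by
            exact_mod_cast Finset.card_add_le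
        _ ≤ X.card * Y.card := by
            apply mul_le_mul_of_nonneg_left _ (Nat.cast_nonneg _)
            exact_mod_cast Finset.card_image_le
        _ ≤ X.card * (V * (8 * m + 1) ^ m) := mul_le_mul_of_nonneg_left hYc (by positivity)
        _ ≤ X.card * (6 * V * (8 * m + 1) ^ m) := by
            apply mul_le_mul_of_nonneg_left _ (by positivity)
            have : 0 ≤ V * (8 * m + 1) ^ m := by positivity
            nlinarith
    · intro a ha
      obtain ⟨x, hx, c, hc, hac⟩ := hX a ha
      obtain ⟨y, hy, hcy⟩ := hYcov c hc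
      refine ⟨x + ψ y, Finset.add_mem_add hx (Finset.mem_image_of_mem _ hy), c - y, hcy,
        a - x - ψ c, hac, ?_⟩
      rw [map_sub]; abel

end V5helper1.SD
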