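import Pool.Agent.V5helper1.SD.Key
import Pool.Agent.V5helper1.SD.Shrink
import Pool.Agent.V5helper1.SD.Num
import Pool.Agent.V5helper1.SD.Num2
set_option autoImplicit false

/-! The near-polynomial Freiman-Ruzsa theorem with the sharp dimension. -/

open scoped Classical Pointwise
set_option linter.unusedSectionVars false
set_option linter.unusedVariables false

namespace V5helper1.SD

open H112

/-- `A` is covered by at most `n` translates of a proper centred convex coset progression of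
dimension at most `D` and volume at most `|A|`. -/
def Covered {G : Type*} [AddCommGroup G] (A : Finset G) (D n : ℝ) : Prop :=
  ∃ (d : ℕ) (B : Set (Fin d → ℝ)) (ψ : (Fin d → ℤ) →+ G) (H : AddSubgroup G) (T : Finset G),
    (d : ℝ) ≤ D ∧ SymmBody B ∧ Finite H ∧ Proper B ψ H ∧
    {c : Fin d → ℤ | (fun i => (c i : ℝ)) ∈ B}.ncard * Nat.card H ≤ A.card ∧
    (T.card : ℝ) ≤ n ∧ Covers B ψ H T A

theorem Covered.mono {G : Type*} [AddCommGroup G] {A : Finset G} {D D' n n' : ℝ}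
    (h : Covered A D n) (hD : D ≤ D') (hn : n ≤ n') : Covered A D' n' := by
  obtain ⟨d, B, ψ, H, T, h1, h2, h3, h4, h5, h6, h7⟩ := h
  exact ⟨d, B, ψ, H, T, h1.trans hD, h2, h3, h4, h5, h6.trans hn, h7⟩

/-- the case of a finitely generated group and `K ≥ 2` -/
theorem sharp_fg {G : Type*} [AddCommGroup G] [AddGroup.FG G] {K ε : ℝ} {A : Finset G}
    (hA : A.Nonempty) (hK : ((A + A).card : ℝ) ≤ K * A.card) (hK2 : 2 ≤ K) (hε : 0 < ε)
    (hε1 : ε ≤ 1) :
    ∃ d : ℕ, (d : ℝ) ≤ (1 + ε) * Real.logb 2 K ∧ Covered A d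
      ((2 * K) ^ (2000000000000 * (1 + Real.log (1 + Real.log (2 * K))) / ε ^ 2)) := by
  have hK1 : 1 ≤ K := by linarith
  have hK0 : 0 < K := by linarith
  have hApos : (0 : ℝ) < A.card := by exact_mod_cast hA.card_pos
  obtain ⟨κ, hκ⟩ : ∃ κ : ℝ, κ = Real.log (2 * K) := ⟨_, rfl⟩
  obtain ⟨lam, hlam⟩ : ∃ lam : ℝ, lam = Real.log K := ⟨_, rfl⟩
  obtain ⟨l, hl⟩ : ∃ l : ℝ, l = 1 + Real.log (1 + κ) := ⟨_, rfl⟩
  obtain ⟨I, hIdef⟩ : ∃ I : ℝ, I = 1 / ε := ⟨_, rfl⟩
  have hI : ε * I = 1 := by rw [hIdef]; field_simp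
  have hI1 : 1 ≤ I := by rw [hIdef, le_div_iff₀ hε]; linarith
  have hκlog2 : Real.log 2 ≤ κ := by
    rw [hκ]; exact Real.log_le_log (by norm_num) (by linarith)
  have hκ69 : (0.69 : ℝ) < κ := lt_of_lt_of_le log_two_gt hκlog2
  have hκ0 : 0 < κ := by linarith
  have hκlam : κ ≤ 2 * lam := by
    rw [hκ, hlam, Real.log_mul (by norm_num) (by linarith)]
    have : Real.log 2 ≤ Real.log K := Real.log_le_log (by norm_num) hK2
    linarith
  have hlamκ : lam ≤ κ := by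
    rw [hκ, hlam]; exact Real.log_le_log hK0 (by linarith)
  have hlam0 : 0 < lam := by linarith
  have hlogκ : 0 ≤ Real.log (1 + κ) := Real.log_nonneg (by linarith)
  have hl1 : 1 ≤ l := by rw [hl]; linarith
  have hlog2 : 0 < Real.log 2 := Real.log_pos (by norm_num)
  have hKexp : K = Real.exp lam := by rw [hlam, Real.exp_log hK0]
  have hKκ : K < Real.exp κ := by rw [hκ, Real.exp_log (by linarith)]; linarith
  -- the structure theorem
  obtain ⟨S₀, X₀, V, ρ, m, N, ψ, hfin, hV1, hsize, hρ0, hρ12, hX, hN, h1, h2, hm, hXV⟩ :=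
    structure_thm hA hK hK1 hκ
  have hXV' : (X₀.card : ℝ) * V ≤ Real.exp (8000 * κ * l) := by rw [hl]; exact hXV
  have hX₀ne : 0 < X₀.card := by
    obtain ⟨a, ha⟩ := hA
    obtain ⟨x, hx, -⟩ := hX a ha
    exact Finset.card_pos.2 ⟨x, hx⟩
  have hX₀1 : (1 : ℝ) ≤ X₀.card := by exact_mod_cast hX₀ne
  have hX₀e : (X₀.card : ℝ) ≤ Real.exp (8000 * κ * l) :=
    (le_mul_of_one_le_right (by linarith) hV1).trans hXV'
  have hVe : V ≤ Real.exp (8000 * κ * l) :=
    (le_mul_of_one_le_left (by linarith) hX₀1).trans hXV'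
  have hann : Finite (ann S₀) := ann_finite hfin
  have hX' : ∀ a ∈ A, ∃ x ∈ X₀, a - x ∈ DD hN ψ (ann S₀) ρ := by
    intro a ha
    obtain ⟨x, hx, hax⟩ := hX a ha
    exact ⟨x, hx, (mem_DD hN ψ (ann S₀)).2 (h2 _ hax)⟩
  have hV' : ((DD hN ψ (ann S₀) (2 * ρ)).card : ℝ) ≤ V * A.card := by
    refine le_trans ?_ hsize
    have h3 : ((DD hN ψ (ann S₀) (2 * ρ) : Finset G) : Set G) ⊆ bohr S₀ (1 / 6) := by
      intro x hx
      rw [Finset.mem_coe, mem_DD] at hx
      obtain ⟨c, hc, hxc⟩ := hx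
      have hc' : N (fun i => (c i : ℝ)) ≤ 2 * ρ := hc
      have h4 := (h1 c (by linarith) (2 * ρ) (by linarith)).2 hc
      have h5 : x = ψ c + (x - ψ c) := by abel
      rw [h5]
      exact main_bohr_mono (by linarith) (bohr_add_ann h4 hxc)
    have h4 := Set.ncard_le_ncard h3 hfin
    rw [Set.ncard_coe_finset] at h4
    exact_mod_cast h4
  have hcard : ∀ r, 0 ≤ r → r ≤ ρ →
      (DD hN ψ (ann S₀) r).card = (LL N r).ncard * Nat.card (ann S₀) := by
    intro r hr0 hr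
    rw [← cover_card S₀ hρ12 N ψ hN h1 h2 hr0 hr, ← Set.ncard_coe_finset]
    congr 1
    ext x
    rw [Finset.mem_coe, mem_DD]
    constructor
    · rintro ⟨c, hc, hxc⟩
      have h5 : x = ψ c + (x - ψ c) := by abel
      rw [h5]
      exact cover_mem' S₀ hρ12 N ψ h1 hr0 hr hc hxc
    · intro hx
      exact cover_mem S₀ hρ12 N ψ h1 h2 hr0 hr hx
  -- parameters
  obtain ⟨k, hk⟩ : ∃ k : ℕ, k = ⌈3 / ε⌉₊ := ⟨_, rfl⟩
  have hk1 : 3 / ε ≤ k := by rw [hk]; exact Nat.le_ceil _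
  have hk2 : (k : ℝ) ≤ 4 * I := by
    have h3 : (k : ℝ) < 3 / ε + 1 := by rw [hk]; exact Nat.ceil_lt_add_one (by positivity)
    have h4 : 3 / ε = 3 * I := by rw [hIdef]; ring
    rw [h4] at h3; linarith
  have hkε : 3 ≤ k * ε := by rwa [div_le_iff₀ hε] at hk1
  obtain ⟨n₂, hn₂⟩ : ∃ n₂ : ℕ, n₂ = ⌈130000 * l / ε⌉₊ := ⟨_, rfl⟩
  have hn₂1 : 130000 * l / ε ≤ n₂ := by rw [hn₂]; exact Nat.le_ceil _
  have hlI1 : 1 ≤ l * I := one_le_mul_of_one_le_of_one_le hl1 hI1
  have hn₂2 : (n₂ : ℝ) ≤ 130001 * (l * I) := by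
    have h3 : (n₂ : ℝ) < 130000 * l / ε + 1 := by
      rw [hn₂]; exact Nat.ceil_lt_add_one (by positivity)
    have h4 : 130000 * l / ε = 130000 * (l * I) := by rw [hIdef]; ring
    rw [h4] at h3; linarith
  obtain ⟨n₁, hn₁⟩ : ∃ n₁ : ℕ, n₁ = ⌈80000000 * (l * I)⌉₊ := ⟨_, rfl⟩
  have hn₁1 : 80000000 * (l * I) ≤ n₁ := by rw [hn₁]; exact Nat.le_ceil _
  have hn₁2 : (n₁ : ℝ) ≤ 80000001 * (l * I) := by
    have h3 : (n₁ : ℝ) < 80000000 * (l * I) + 1 := by
      rw [hn₁]; exact Nat.ceil_lt_add_one (by positivity)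
    linarith
  have hn₁pos : 1 ≤ n₁ := by
    have : (0 : ℝ) < n₁ := by linarith
    exact_mod_cast this
  obtain ⟨M₀, hM₀⟩ : ∃ M₀ : ℕ, M₀ = ⌊(1 + ε) * Real.logb 2 K⌋₊ := ⟨_, rfl⟩
  have hlogb : Real.logb 2 K = lam / Real.log 2 := by rw [hlam]; rfl
  have hlogb1 : 1 ≤ Real.logb 2 K := by
    rw [hlogb, le_div_iff₀ hlog2, one_mul, hlam]
    exact Real.log_le_log (by norm_num) hK2
  have hlogb0 : 0 ≤ (1 + ε) * Real.logb 2 K := by positivity
  have hM₀1 : (M₀ : ℝ) ≤ (1 + ε) * Real.logb 2 K := by rw [hM₀]; exact Nat.floor_le hlogb0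
  have hM₀2 : (1 + ε) * Real.logb 2 K < M₀ + 1 := by rw [hM₀]; exact Nat.lt_floor_add_one _
  have hM₀ge : 1 ≤ M₀ := by
    rw [hM₀]
    apply Nat.le_floor
    push_cast
    have : 1 * 1 ≤ (1 + ε) * Real.logb 2 K :=
      mul_le_mul (by linarith) hlogb1 (by norm_num) (by linarith)
    linarith
  obtain ⟨M, hMdef⟩ : ∃ M : ℕ, M = M₀ + 1 := ⟨_, rfl⟩
  have hM2 : 2 ≤ M := by omega
  have hM1 : 1 ≤ M := by omega
  have hMR : (M : ℝ) = M₀ + 1 := by rw [hMdef]; push_cast; ring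
  have hMlog : (1 + ε) * lam < M * Real.log 2 := by
    rw [hMR, ← div_lt_iff₀ hlog2]
    rw [hlogb] at hM₀2
    have : (1 + ε) * lam / Real.log 2 = (1 + ε) * (lam / Real.log 2) := by ring
    rw [this]; exact hM₀2
  have hM5 : (M : ℝ) ≤ 5 * κ := by
    have h3 : Real.logb 2 K * 0.69 ≤ κ := by
      have h4 : Real.logb 2 K * Real.log 2 = lam := by rw [hlogb]; field_simp
      have h5 : Real.logb 2 K * 0.69 ≤ Real.logb 2 K * Real.log 2 :=
        mul_le_mul_of_nonneg_left log_two_gt.le (by linarith)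
      linarith
    have h4 : (M₀ : ℝ) ≤ 2 * Real.logb 2 K :=
      hM₀1.trans (mul_le_mul_of_nonneg_right (by linarith) (by linarith))
    rw [hMR]
    linarith
  -- the exponent
  obtain ⟨g, hg⟩ : ∃ g : ℕ, g = 2 ^ ((k + 2) * n₁) := ⟨_, rfl⟩
  have hg4 : 4 ≤ g := by
    rw [hg]
    calc 4 = 2 ^ 2 := by norm_num
      _ ≤ 2 ^ ((k + 2) * n₁) := Nat.pow_le_pow_right (by norm_num) (by nlinarith)
  obtain ⟨n, hn, hn1, h4, hδ⟩ := choice_n m g M hg4 hM2
  obtain ⟨c, hc⟩ : ∃ c : ℝ, c = 2 * (m * Real.log (8 * n * n * m + 1)) +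
    2 * (m * Real.log (4 * m + 1)) := ⟨_, rfl⟩
  rw [← hc] at h4
  obtain ⟨e, he⟩ : ∃ e : ℝ, e = m * Real.log (4 * (n + 1) * m + 1) / n := ⟨_, rfl⟩
  rw [← he] at hδ
  have hgR : (g : ℝ) = 2 ^ ((k + 2) * n₁) := by rw [hg]; push_cast; rfl
  have hδ' : (2 : ℝ) ^ ((k + 2) * n₁) * (M * (4 * Real.sqrt e)) < 1 / 2 := by rw [← hgR]; exact hδ
  have hδ12 : 4 * Real.sqrt e ≤ 1 / 12 := by
    have h3 : (4 : ℝ) ≤ g := by exact_mod_cast hg4
    have h5 : (2 : ℝ) ≤ M := by exact_mod_cast hM2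
    have h6 : 0 ≤ Real.sqrt e := Real.sqrt_nonneg _
    have h7 : (4 * 2 : ℝ) ≤ g * M := mul_le_mul h3 h5 (by norm_num) (by linarith)
    have h8 : (g * M : ℝ) * (4 * Real.sqrt e) < 1 / 2 := by
      have : (g * M : ℝ) * (4 * Real.sqrt e) = g * (M * (4 * Real.sqrt e)) := by ring
      rw [this]; exact hδ
    have h9 : (4 * 2 : ℝ) * (4 * Real.sqrt e) ≤ (g * M : ℝ) * (4 * Real.sqrt e) :=
      mul_le_mul_of_nonneg_right h7 (by positivity)
    linarith
  have hnpos : (0 : ℝ) < n := by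
    have : 0 < n := by omega
    exact_mod_cast this
  have hen : m * Real.log (4 * (n + 1) * m + 1) ≤ n * e := by
    rw [he]; apply le_of_eq; field_simp
  have hc0 : 0 ≤ c := by
    rw [hc]
    have h5 : 0 ≤ Real.log (8 * n * n * m + 1) := Real.log_nonneg (by
      have : (0 : ℝ) ≤ 8 * n * n * m := by positivity
      linarith)
    have h6 : 0 ≤ Real.log (4 * (m : ℝ) + 1) := Real.log_nonneg (by
      have : (0 : ℝ) ≤ 4 * m := by positivity
      linarith)
    positivity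
  have hcle : c ≤ 1700000000000 * κ * (l * I ^ 2) := by
    rw [hc]
    exact num_c hκ69 hl hI1 hm hM1 hM5 hk2 hn₁2 (by rw [hn, hg])
  have hWle := num_W (x := (X₀.card : ℝ)) hκ69 hl hI1 hm hM1 hM5 hk2 hn₂2 (Nat.cast_nonneg _)
    hX₀e (V := V)
  have hscale := num_scale hκ69 hl hε hκlam hn₂1 hK0 hKκ hXV'
  have hfinal := num_final hκ69 hl hε hε1 hI hκlam hkε hn₁1 hMlog (le_refl _)
    (W₀ := Real.exp (55000000 * κ * (l * I)))
  have hKq : K * Real.exp (ε / 8 * lam) = Real.exp ((1 + ε / 8) * lam) := by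
    conv_lhs => rw [hKexp]
    rw [← Real.exp_add]; congr 1; ring
  obtain ⟨S, m', N', ψ', W, hSfin, hm'M, hSsize, hN', h1', hWc, hWcov⟩ :=
    key hN ψ (ann S₀) hA hK hK1 hρ0 hX' hV' hcard (Real.exp_pos (ε / 8 * lam)) hscale hM2 hn1 hc
      h4 hen hδ' (by linarith) hWle (by rw [hKq]; exact hfinal)
  -- the final covering
  have hannS : Finite (ann S) := ann_finite hSfin
  obtain ⟨V', hV'def⟩ : ∃ V' : ℝ, V' = 8 * Real.exp c * V := ⟨_, rfl⟩
  have hV'1 : 1 ≤ V' := by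
    have h3 : 1 ≤ Real.exp c := Real.one_le_exp hc0
    rw [hV'def]
    exact one_le_mul_of_one_le_of_one_le (by linarith) hV1
  have hLLsize := card_LL_le hSfin hN' h1' (R := 1 / 6) (by norm_num) le_rfl
  have hsize' : ((LL N' (2 * (1 / 12))).ncard : ℝ) * Nat.card (ann S) ≤ V' * A.card := by
    have e6 : (2 * (1 / 12) : ℝ) = 1 / 6 := by norm_num
    rw [e6]
    calc ((LL N' (1 / 6)).ncard : ℝ) * Nat.card (ann S) ≤ ((bohr S (1 / 6)).ncard : ℝ) := by
          exact_mod_cast hLLsize.2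
      _ ≤ 8 * Real.exp c * (V * A.card) := hSsize
      _ = V' * A.card := by rw [hV'def]; ring
  obtain ⟨d, B, ψ₁, H₁, T, hd, hB, hH₁, hprop, hvol, hT, hcov⟩ :=
    shrink hA hV'1 N' ψ' hN' (ann S) hannS (ρ := 1 / 12) (by norm_num) hsize' (X := W) (by
      intro a ha
      obtain ⟨w, hw, c', hc', hac⟩ := hWcov a ha
      exact ⟨w, hw, c', LL_mono N' hδ12 hc', hac⟩) (by
      intro c' hc' hψ
      have hc'' : N' (fun i => (c' i : ℝ)) ≤ 2 * (1 / 12) := hc'
      exact LL_zero hN' ((h1' c' (by linarith) 0 le_rfl).1 (bohr_zero_of_ann hψ le_rfl)))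
  refine ⟨M₀, hM₀1, d, B, ψ₁, H₁, T, ?_, hB, hH₁, hprop, hvol, ?_, hcov⟩
  · have h3 : d ≤ M₀ := hd.trans (max_le (by omega) hM₀ge)
    exact_mod_cast h3
  · -- the number of translates
    have e7 : 2000000000000 * (1 + Real.log (1 + Real.log (2 * K))) / ε ^ 2 =
        2000000000000 * (l * I ^ 2) := by
      rw [hl, hκ, hIdef, div_pow, one_pow]; ring
    rw [e7, ← exp_eq_rpow hK1, ← hκ]
    obtain ⟨w, hw⟩ : ∃ w : ℝ, w = κ * (l * I ^ 2) := ⟨_, rfl⟩
    have hII : I ≤ I ^ 2 := by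
      have : I * 1 ≤ I * I := mul_le_mul_of_nonneg_left hI1 (by linarith)
      calc I = I * 1 := by ring
        _ ≤ I * I := this
        _ = I ^ 2 := by ring
    have hI21 : 1 ≤ I ^ 2 := by linarith
    have hlI2 : l ≤ l * I ^ 2 := le_mul_of_one_le_right (by linarith) hI21
    have hκw : κ ≤ w := by
      rw [hw]; exact le_mul_of_one_le_right hκ0.le (by linarith)
    have hκlw : κ * l ≤ w := by rw [hw]; exact mul_le_mul_of_nonneg_left hlI2 hκ0.le
    have hw0 : 0 < w := by linarith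
    have h5 : (W.card : ℝ) ≤ Real.exp (55000000 * w) := by
      refine hWc.trans (Real.exp_le_exp.2 ?_)
      rw [hw]
      have : κ * (l * I) ≤ κ * (l * I ^ 2) := by
        apply mul_le_mul_of_nonneg_left _ hκ0.le
        exact mul_le_mul_of_nonneg_left hII (by linarith)
      calc 55000000 * κ * (l * I) = 55000000 * (κ * (l * I)) := by ring
        _ ≤ 55000000 * (κ * (l * I ^ 2)) := by linarith
    have h6 : 48 ≤ Real.exp (6 * w) := by
      have h7 : Real.exp 4 ≤ Real.exp (6 * w) := Real.exp_le_exp.2 (by linarith)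
      have h8 : (48 : ℝ) ≤ Real.exp 4 := by
        have h4 : (2.7 : ℝ) ≤ Real.exp 1 := by have := Real.exp_one_gt_d9; linarith
        have h5 : Real.exp 4 = Real.exp 1 ^ 4 := by
          rw [← Real.exp_nat_mul]; norm_num
        rw [h5]
        calc (48 : ℝ) ≤ 2.7 ^ 4 := by norm_num
          _ ≤ _ := pow_le_pow_left₀ (by norm_num) h4 4
      linarith
    have h7 : Real.exp c ≤ Real.exp (1700000000000 * w) := by
      apply Real.exp_le_exp.2
      refine hcle.trans (le_of_eq ?_)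
      rw [hw]; ring
    have h8 : V ≤ Real.exp (8000 * w) := by
      refine hVe.trans (Real.exp_le_exp.2 ?_)
      calc 8000 * κ * l = 8000 * (κ * l) := by ring
        _ ≤ 8000 * w := by linarith
    have hm'5 : (m' : ℝ) ≤ 300 * κ := by
      have : (m' : ℝ) ≤ M := by exact_mod_cast hm'M.le
      linarith
    have h9 : (8 * (m' : ℝ) + 1) ^ m' ≤ Real.exp (5 * κ * (16 * l)) := by
      have hm'5' : (m' : ℝ) ≤ 5 * κ := by
        have : (m' : ℝ) ≤ M := by exact_mod_cast hm'M.le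
        linarith
      apply pow_le_exp (by positivity) _ hm'5' (by positivity)
      have h10 : (8 * (m' : ℝ) + 1) ≤ (4 * m' + 1) ^ 2 := by
        have e : (4 * (m' : ℝ) + 1) ^ 2 = 16 * (m' : ℝ) ^ 2 + (8 * m' + 1) := by ring
        rw [e]
        have := sq_nonneg (m' : ℝ)
        linarith
      have h11 := Real.log_le_log (by positivity) h10
      rw [Real.log_pow] at h11
      have h12 := log_4m_le hκ69 hm'5
      rw [← hl] at h12
      push_cast at h11
      linarith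
    have h10 : Real.exp (5 * κ * (16 * l)) ≤ Real.exp (80 * w) := by
      apply Real.exp_le_exp.2
      calc 5 * κ * (16 * l) = 80 * (κ * l) := by ring
        _ ≤ 80 * w := by linarith
    calc (T.card : ℝ) ≤ W.card * (6 * V' * (8 * m' + 1) ^ m') := hT
      _ = W.card * (48 * (Real.exp c * (V * (8 * m' + 1) ^ m'))) := by rw [hV'def]; ring
      _ ≤ Real.exp (55000000 * w) * (Real.exp (6 * w) * (Real.exp (1700000000000 * w) *
            (Real.exp (8000 * w) * Real.exp (80 * w)))) := by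
          gcongr
          exact h9.trans h10
      _ = Real.exp (55000000 * w + (6 * w + (1700000000000 * w + (8000 * w + 80 * w)))) := by
          rw [← Real.exp_add, ← Real.exp_add, ← Real.exp_add, ← Real.exp_add]
      _ ≤ Real.exp (2000000000000 * κ * (l * I ^ 2)) := by
          apply Real.exp_le_exp.2
          have : 2000000000000 * κ * (l * I ^ 2) = 2000000000000 * w := by rw [hw]; ring
          rw [this]
          linarith

end V5helper1.SD
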