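import Pool.Agent.V5helper1.SD.LLx
set_option autoImplicit false

/-! Lower bound for `2 ^ k Y + Y + F` by clusters and separated sets. -/

open scoped Classical Pointwise
set_option linter.unusedSectionVars false
set_option linter.unusedVariables false

namespace V5helper1.SD

open H112

variable {Q : Type*} [AddCommGroup Q] {m : ℕ}

/-- `D` is separated at scale `r` -/
def Sepd (N : Seminorm ℝ (Fin m → ℝ)) (θ : (Fin m → ℤ) →+ Q) (r : ℝ) (D : Finset Q) : Prop :=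
  ∀ d ∈ D, ∀ d' ∈ D, (∃ c ∈ LL N r, d - d' = θ c) → d = d'

/-- maximal separated sets -/
theorem exists_sepd (N : Seminorm ℝ (Fin m → ℝ)) (θ : (Fin m → ℤ) →+ Q) {r : ℝ} (hr : 0 ≤ r)
    (Y : Finset Q) :
    ∃ D ⊆ Y, Sepd N θ r D ∧ ∀ y ∈ Y, ∃ d ∈ D, ∃ c ∈ LL N r, y - d = θ c := by
  obtain ⟨D, hD, hmax⟩ := Finset.exists_max_image
    (Y.powerset.filter (fun D => Sepd N θ r D)) Finset.card
    ⟨∅, Finset.mem_filter.2 ⟨Finset.empty_mem_powerset _, fun d hd => absurd hd (Finset.notMem_empty _)⟩⟩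
  obtain ⟨hDY, hDs⟩ := Finset.mem_filter.1 hD
  rw [Finset.mem_powerset] at hDY
  refine ⟨D, hDY, hDs, fun y hy => ?_⟩
  by_contra hcon
  push Not at hcon
  have hyD : y ∉ D := by
    intro h
    exact hcon y h 0 (LL_zero_mem N hr) (by rw [sub_self, map_zero])
  have h1 : Sepd N θ r (insert y D) := by
    intro d hd d' hd' h
    rcases Finset.mem_insert.1 hd with rfl | hd1
    · rcases Finset.mem_insert.1 hd' with rfl | hd2
      · rfl
      · obtain ⟨c, hc, e⟩ := h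
        exact absurd e (hcon d' hd2 c hc)
    · rcases Finset.mem_insert.1 hd' with rfl | hd2
      · obtain ⟨c, hc, e⟩ := h
        refine absurd ?_ (hcon d hd1 (-c) (LL_neg N hc))
        rw [map_neg, ← e]; abel
      · exact hDs d hd1 d' hd2 h
  have h2 := hmax (insert y D) (Finset.mem_filter.2
    ⟨Finset.mem_powerset.2 (Finset.insert_subset hy hDY), h1⟩)
  rw [Finset.card_insert_of_notMem hyD] at h2
  omega

/-- the cube -/
noncomputable def cube (θ : (Fin m → ℤ) →+ Q) {M : ℕ} (v : Fin M → (Fin m → ℤ)) (k : ℕ) :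
    Finset Q :=
  (Finset.univ : Finset (Fin M → Fin (2 ^ k))).image
    (fun a => θ (∑ i, ((a i : ℕ) : ℤ) • v i))

theorem cube_norm (N : Seminorm ℝ (Fin m → ℝ)) {M k : ℕ} {v : Fin M → (Fin m → ℤ)} {δ : ℝ}
    (hδ : 0 ≤ δ) (hv : ∀ i, v i ∈ LL N δ) (a : Fin M → ℤ) (ha : ∀ i, |a i| ≤ 2 ^ k) :
    ∑ i, a i • v i ∈ LL N (2 ^ k * M * δ) := by
  have e : (fun l => (((∑ i, a i • v i) l : ℤ) : ℝ) : Fin m → ℝ) =
      ∑ i, ((a i : ℤ) : ℝ) • (fun l => ((v i l : ℤ) : ℝ) : Fin m → ℝ) := by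
    funext l
    simp [Finset.sum_apply]
  show N _ ≤ _
  rw [e]
  refine (Dim_sum_le N _ _).trans ?_
  calc ∑ i : Fin M, N (((a i : ℤ) : ℝ) • (fun l => ((v i l : ℤ) : ℝ) : Fin m → ℝ))
      ≤ ∑ i : Fin M, 2 ^ k * δ := by
        refine Finset.sum_le_sum fun i _ => ?_
        rw [map_smul_eq_mul, Real.norm_eq_abs]
        have h1 : |((a i : ℤ) : ℝ)| ≤ 2 ^ k := by
          have := ha i
          have h2 : ((|a i| : ℤ) : ℝ) ≤ ((2 ^ k : ℤ) : ℝ) := by exact_mod_cast this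
          push_cast at h2
          exact h2
        exact mul_le_mul h1 (hv i) (apply_nonneg N _) (by positivity)
    _ = 2 ^ k * M * δ := by simp; ring

/-- **The lower bound.** -/
theorem low_step (N : Seminorm ℝ (Fin m → ℝ)) (θ : (Fin m → ℤ) →+ Q)
    (hN : ∀ x, N x = 0 → x = 0)
    (hθ : ∀ c : Fin m → ℤ, N (fun i => (c i : ℝ)) < 1 / 2 → θ c = 0 → c = 0)
    {M k : ℕ} {v : Fin M → (Fin m → ℤ)} {δ : ℝ} (hδ : 0 ≤ δ) (hv : ∀ i, v i ∈ LL N δ)
    (hdiv : ∀ (a : Fin M → ℤ) (w : Fin m → ℤ), ∑ i, a i • v i = ((2 : ℤ) ^ k) • w →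
        ∀ i, ((2 : ℤ) ^ k) ∣ a i)
    {Y : Finset Q} (hYne : Y.Nonempty) {r r' : ℝ} (hr : 0 ≤ r)
    (hrr : 2 * 2 ^ k * r + 2 ^ k * M * δ ≤ r') (hr' : r' < 1 / 2)
    {D D' : Finset Q} (hD'Y : D' ⊆ Y) (hD' : Sepd N θ r' D')
    (hDcov : ∀ y ∈ Y, ∃ d ∈ D, ∃ c ∈ LL N r, y - d = θ c) (hDY : D ⊆ Y)
    {L : ℝ} (hL : ((Y.image (fun y => (2 ^ k) • y) + (Y + cube θ v k)).card : ℝ) ≤ L * Y.card)
    (hL0 : 0 ≤ L) :
    (2 : ℝ) ^ (k * M) * D'.card ≤ L * D.card := by
  -- the heaviest cluster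
  set cl : Q → Finset Q := fun y₀ => Y.filter (fun y => ∃ c ∈ LL N r, y - y₀ = θ c) with hcl
  obtain ⟨y₀, hy₀, hmax⟩ := Finset.exists_max_image Y (fun y => (cl y).card) hYne
  have hclpos : 0 < (cl y₀).card := by
    refine Finset.card_pos.2 ⟨y₀, Finset.mem_filter.2 ⟨hy₀, 0, LL_zero_mem N hr, ?_⟩⟩
    rw [sub_self, map_zero]
  -- upper bound for `Y`
  have hup : Y.card ≤ D.card * (cl y₀).card := by
    have h1 : Y ⊆ D.biUnion cl := by
      intro y hy
      obtain ⟨d, hd, c, hc, e⟩ := hDcov y hy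
      exact Finset.mem_biUnion.2 ⟨d, hd, Finset.mem_filter.2 ⟨hy, c, hc, e⟩⟩
    refine (Finset.card_le_card h1).trans (Finset.card_biUnion_le.trans ?_)
    refine (Finset.sum_le_sum fun d hd => hmax d (hDY hd)).trans (le_of_eq ?_)
    rw [Finset.sum_const, smul_eq_mul]
  -- lower bound
  have hlow : 2 ^ (k * M) * ((cl y₀).card * D'.card) ≤
      (Y.image (fun y => (2 ^ k) • y) + (Y + cube θ v k)).card := by
    have e1 : 2 ^ (k * M) * ((cl y₀).card * D'.card) =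
        ((Finset.univ : Finset (Fin M → Fin (2 ^ k))) ×ˢ ((cl y₀) ×ˢ D')).card := by
      rw [Finset.card_product, Finset.card_product, Finset.card_univ, Fintype.card_fun,
        Fintype.card_fin, Fintype.card_fin, ← pow_mul]
    rw [e1]
    refine Finset.card_le_card_of_injOn
      (fun p => (2 ^ k) • p.2.1 + (p.2.2 + θ (∑ i, ((p.1 i : ℕ) : ℤ) • v i))) ?_ ?_
    · rintro ⟨a, y, d⟩ hp
      obtain ⟨-, hp2⟩ := Finset.mem_product.1 (Finset.mem_coe.1 hp)
      obtain ⟨hy, hd⟩ := Finset.mem_product.1 hp2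
      refine Finset.mem_coe.2 (Finset.add_mem_add ?_ (Finset.add_mem_add (hD'Y hd) ?_))
      · exact Finset.mem_image_of_mem _ (Finset.mem_filter.1 hy).1
      · exact Finset.mem_image_of_mem _ (Finset.mem_univ _)
    · rintro ⟨a, y, d⟩ hp ⟨a', y', d'⟩ hp' heq
      obtain ⟨-, hp2⟩ := Finset.mem_product.1 (Finset.mem_coe.1 hp)
      obtain ⟨hy, hd⟩ := Finset.mem_product.1 hp2
      obtain ⟨-, hp2'⟩ := Finset.mem_product.1 (Finset.mem_coe.1 hp')
      obtain ⟨hy', hd'⟩ := Finset.mem_product.1 hp2'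
      simp only at hy hd hy' hd' heq
      obtain ⟨-, c, hc, hyc⟩ := Finset.mem_filter.1 hy
      obtain ⟨-, c', hc', hyc'⟩ := Finset.mem_filter.1 hy'
      -- the vector
      set w : Fin m → ℤ := ∑ i, (((a' i : ℕ) : ℤ) - ((a i : ℕ) : ℤ)) • v i with hw
      have hwN : w ∈ LL N (2 ^ k * M * δ) := by
        refine cube_norm N hδ hv _ fun i => ?_
        have h1 : ((a i : ℕ)) < 2 ^ k := (a i).2
        have h2 : ((a' i : ℕ)) < 2 ^ k := (a' i).2
        have h3 : ((a i : ℕ) : ℤ) < 2 ^ k := by exact_mod_cast h1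
        have h4 : ((a' i : ℕ) : ℤ) < 2 ^ k := by exact_mod_cast h2
        rw [abs_le]
        constructor <;> omega
      have hcc : c' - c ∈ LL N (r + r) := LL_add N hc' hc
      have hcc2 : ((2 : ℤ) ^ k) • (c' - c) ∈ LL N (2 * 2 ^ k * r) := by
        have h1 := LL_zsmul N hcc ((2 : ℤ) ^ k)
        have h2 : |(((2 : ℤ) ^ k : ℤ) : ℝ)| * (r + r) = 2 * 2 ^ k * r := by
          push_cast
          rw [abs_of_pos (by positivity)]
          ring
        rw [h2] at h1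
        exact h1
      have hsum : ((2 : ℤ) ^ k) • (c' - c) + w ∈ LL N r' := LL_mono N hrr (LL_add' N hcc2 hwN)
      have hdd : d - d' = θ (((2 : ℤ) ^ k) • (c' - c) + w) := by
        have h1 : θ w = θ (∑ i, ((a' i : ℕ) : ℤ) • v i) - θ (∑ i, ((a i : ℕ) : ℤ) • v i) := by
          rw [← map_sub, hw, ← Finset.sum_sub_distrib]
          congr 1
          exact Finset.sum_congr rfl fun i _ => sub_smul _ _ _
        have h2 : θ (((2 : ℤ) ^ k) • (c' - c)) = (2 ^ k) • y' - (2 ^ k) • y := by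
          rw [map_zsmul, map_sub, ← hyc, ← hyc']
          have h3 : y' - y₀ - (y - y₀) = y' - y := by abel
          rw [h3, ← smul_sub]
          have h4 : ((2 : ℤ) ^ k) = ((2 ^ k : ℕ) : ℤ) := by push_cast; rfl
          rw [h4, natCast_zsmul]
        rw [map_add, h1, h2]
        have h5 : d - d' = ((2 ^ k) • y' + (d' + θ (∑ i, ((a' i : ℕ) : ℤ) • v i))) -
            ((2 ^ k) • y + (d + θ (∑ i, ((a i : ℕ) : ℤ) • v i))) +
            (d - d') := by rw [heq]; abel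
        rw [h5]
        abel
      have hddeq : d = d' := hD' d hd d' hd' ⟨_, hsum, hdd⟩
      rw [hddeq, sub_self] at hdd
      have hzero : ((2 : ℤ) ^ k) • (c' - c) + w = 0 :=
        hθ _ (lt_of_le_of_lt hsum hr') hdd.symm
      have hdvd := hdiv (fun i => ((a' i : ℕ) : ℤ) - ((a i : ℕ) : ℤ)) (c - c') (by
        have h6 : w = -(((2 : ℤ) ^ k) • (c' - c)) := by
          rw [eq_neg_iff_add_eq_zero, add_comm]; exact hzero
        rw [← hw, h6, ← smul_neg, neg_sub])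
      have haa : a = a' := by
        funext i
        have h1 : ((a i : ℕ)) < 2 ^ k := (a i).2
        have h2 : ((a' i : ℕ)) < 2 ^ k := (a' i).2
        have h3 : ((a i : ℕ) : ℤ) < 2 ^ k := by exact_mod_cast h1
        have h4 : ((a' i : ℕ) : ℤ) < 2 ^ k := by exact_mod_cast h2
        have h5 : |((a' i : ℕ) : ℤ) - ((a i : ℕ) : ℤ)| < 2 ^ k := by
          rw [abs_lt]; constructor <;> omega
        have h6 := Int.eq_zero_of_abs_lt_dvd (hdvd i) h5
        apply Fin.ext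
        omega
      subst haa
      have hw0 : w = 0 := by
        rw [hw]
        simp
      rw [hw0, add_zero] at hzero
      have hc0 : c' - c = 0 := by
        rcases smul_eq_zero.1 hzero with h | h
        · exact absurd h (by positivity)
        · exact h
      have hcc' : c' = c := sub_eq_zero.1 hc0
      have hyy : y = y' := by
        have h7 : y - y₀ = y' - y₀ := by rw [hyc, hyc', hcc']
        exact sub_left_injective h7
      rw [hyy, hddeq]
  have hclr : (0 : ℝ) < (cl y₀).card := by exact_mod_cast hclpos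
  have h1 : ((2 : ℝ) ^ (k * M) * D'.card) * (cl y₀).card ≤ (L * D.card) * (cl y₀).card := by
    calc ((2 : ℝ) ^ (k * M) * D'.card) * (cl y₀).card
        = ((2 ^ (k * M) * ((cl y₀).card * D'.card) : ℕ) : ℝ) := by push_cast; ring
      _ ≤ ((Y.image (fun y => (2 ^ k) • y) + (Y + cube θ v k)).card : ℝ) := by
          exact_mod_cast hlow
      _ ≤ L * Y.card := hL
      _ ≤ L * (D.card * (cl y₀).card) := by
          apply mul_le_mul_of_nonneg_left _ hL0
          exact_mod_cast hup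
      _ = _ := by ring
  exact le_of_mul_le_mul_right h1 hclr

/-- iteration over `n` scales -/
theorem low_iterate (N : Seminorm ℝ (Fin m → ℝ)) (θ : (Fin m → ℤ) →+ Q)
    (hN : ∀ x, N x = 0 → x = 0)
    (hθ : ∀ c : Fin m → ℤ, N (fun i => (c i : ℝ)) < 1 / 2 → θ c = 0 → c = 0)
    {M k : ℕ} {v : Fin M → (Fin m → ℤ)} {δ : ℝ} (hδ : 0 ≤ δ) (hv : ∀ i, v i ∈ LL N δ)
    (hdiv : ∀ (a : Fin M → ℤ) (w : Fin m → ℤ), ∑ i, a i • v i = ((2 : ℤ) ^ k) • w →
        ∀ i, ((2 : ℤ) ^ k) ∣ a i)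
    {Y : Finset Q} (hYne : Y.Nonempty)
    {L : ℝ} (hL : ((Y.image (fun y => (2 ^ k) • y) + (Y + cube θ v k)).card : ℝ) ≤ L * Y.card)
    (hL0 : 0 ≤ L) (n : ℕ) (hn : (2 : ℝ) ^ ((k + 2) * n) * (M * δ) < 1 / 2) {X : ℝ}
    (hX : ∀ D ⊆ Y, Sepd N θ (M * δ) D → (D.card : ℝ) ≤ X) :
    ((2 : ℝ) ^ (k * M)) ^ n ≤ L ^ n * X := by
  have hMδ : 0 ≤ (M : ℝ) * δ := by positivity
  have hr0 : ∀ j : ℕ, 0 ≤ (2 : ℝ) ^ ((k + 2) * j) * (M * δ) := fun j => by positivity
  choose D hDY hDs hDc using fun j : ℕ => exists_sepd N θ (hr0 j) Y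
  have hmain : ∀ j ≤ n, ((2 : ℝ) ^ (k * M)) ^ j * (D j).card ≤ L ^ j * X := by
    intro j
    induction j with
    | zero =>
      intro _
      rw [pow_zero, pow_zero, one_mul, one_mul]
      have h1 := hDs 0
      rw [Nat.mul_zero, pow_zero, one_mul] at h1
      exact hX _ (hDY 0) h1
    | succ j ih =>
      intro hj
      have h1 := ih (by omega)
      have h2 := low_step N θ hN hθ hδ hv hdiv hYne (r := (2 : ℝ) ^ ((k + 2) * j) * (M * δ))
        (r' := (2 : ℝ) ^ ((k + 2) * (j + 1)) * (M * δ)) (hr0 j) (by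
          have e1 : (2 : ℝ) ^ ((k + 2) * (j + 1)) = 2 ^ ((k + 2) * j) * (2 ^ k * 4) := by
            rw [Nat.mul_add, pow_add, Nat.mul_one, pow_add]; norm_num
          rw [e1]
          have e2 : (1 : ℝ) ≤ 2 ^ ((k + 2) * j) := one_le_pow₀ (by norm_num)
          have e3 : 0 ≤ (2 : ℝ) ^ k * (M * δ) := by positivity
          nlinarith) (by
          refine lt_of_le_of_lt ?_ hn
          apply mul_le_mul_of_nonneg_right _ hMδ
          exact pow_le_pow_right₀ (by norm_num) (Nat.mul_le_mul_left _ hj))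
        (hDY (j + 1)) (hDs (j + 1)) (hDc j) (hDY j) hL hL0
      calc ((2 : ℝ) ^ (k * M)) ^ (j + 1) * (D (j + 1)).card
          = ((2 : ℝ) ^ (k * M)) ^ j * ((2 : ℝ) ^ (k * M) * (D (j + 1)).card) := by ring
        _ ≤ ((2 : ℝ) ^ (k * M)) ^ j * (L * (D j).card) :=
            mul_le_mul_of_nonneg_left h2 (by positivity)
        _ = L * (((2 : ℝ) ^ (k * M)) ^ j * (D j).card) := by ring
        _ ≤ L * (L ^ j * X) := mul_le_mul_of_nonneg_left h1 hL0
        _ = _ := by ring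
  have h3 := hmain n le_rfl
  have h4 : (1 : ℝ) ≤ (D n).card := by
    obtain ⟨y, hy⟩ := hYne
    obtain ⟨d, hd, _⟩ := hDc n y hy
    exact_mod_cast Finset.card_pos.2 ⟨d, hd⟩
  calc ((2 : ℝ) ^ (k * M)) ^ n ≤ ((2 : ℝ) ^ (k * M)) ^ n * (D n).card :=
        le_mul_of_one_le_right (by positivity) h4
    _ ≤ _ := h3

end V5helper1.SD
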