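import Pool.Agent.V5helper1.SD.Step
import Pool.Agent.V5helper1.SD.Low
import Pool.Agent.V5helper1.SD.Cube
set_option autoImplicit false

/-! The main step: a Bohr set of dimension less than `M`. -/

open scoped Classical Pointwise
set_option linter.unusedSectionVars false
set_option linter.unusedVariables false

namespace V5helper1.SD

open H112

variable {G : Type*} [AddCommGroup G]

/-- pigeonhole over the scales -/
theorem pigeon (f : ℕ → ℝ) {q : ℝ} (hq : 0 ≤ q) (n : ℕ) (h : ∀ j < n, q * f (j + 1) < f j) :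
    q ^ n * f n ≤ f 0 := by
  induction n with
  | zero => simp
  | succ n ih =>
    have h1 := ih fun j hj => h j (by omega)
    have h2 := h n (by omega)
    calc q ^ (n + 1) * f (n + 1) = q ^ n * (q * f (n + 1)) := by ring
      _ ≤ q ^ n * f n := mul_le_mul_of_nonneg_left h2.le (pow_nonneg hq _)
      _ ≤ f 0 := h1

section
variable {m : ℕ} {N : Seminorm ℝ (Fin m → ℝ)} (hN : ∀ x, N x = 0 → x = 0) (ψ : (Fin m → ℤ) →+ G)
  (H₀ : AddSubgroup G) [Finite H₀]

/-- **A good scale.** -/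
theorem scale_thm {K : ℝ} {A : Finset G} (hA : A.Nonempty)
    (hK : ((A + A).card : ℝ) ≤ K * A.card) (hK1 : 1 ≤ K) {ρ : ℝ} (hρ : 0 < ρ) {X₀ : Finset G}
    {V : ℝ} (hX₀ : ∀ a ∈ A, ∃ x ∈ X₀, a - x ∈ DD hN ψ H₀ ρ)
    (hV : ((DD hN ψ H₀ (2 * ρ)).card : ℝ) ≤ V * A.card) {q : ℝ} (hq : 0 < q) {n₂ : ℕ}
    (hn₂ : X₀.card * V * K < q ^ n₂) :
    ∃ j < n₂, ∃ Y : Finset G, Y.Nonempty ∧ Y ⊆ A + DD hN ψ H₀ (ρ / 4 ^ j / 4) ∧
      Pet (K * q) Y (A + DD hN ψ H₀ (ρ / 4 ^ j / 2)) := by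
  have hAc : (0 : ℝ) < A.card := by exact_mod_cast hA.card_pos
  obtain ⟨X, hXA, hXne, hX, hmin⟩ := SR.exists_petridis hA hK
  have hXc : (0 : ℝ) < X.card := by exact_mod_cast hXne.card_pos
  have hXpet : Pet K X A := by
    intro Z
    have h1 := Finset.pluennecke_petridis_inequality_add (A := X) (B := A) Z hmin
    have h2 : ((Z + X + A).card : ℝ) * X.card ≤ (X + A).card * (Z + X).card := by exact_mod_cast h1
    have h3 : ((Z + X + A).card : ℝ) * X.card ≤ (K * (Z + X).card) * X.card := by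
      calc ((Z + X + A).card : ℝ) * X.card ≤ (X + A).card * (Z + X).card := h2
        _ ≤ (K * X.card) * (Z + X).card := mul_le_mul_of_nonneg_right hX (Nat.cast_nonneg _)
        _ = _ := by ring
    have h4 := le_of_mul_le_mul_right h3 hXc
    rw [add_assoc Z, add_comm Z, add_comm Z] at h4
    exact h4
  have hXA2 : (A.card : ℝ) ≤ K * X.card := by
    refine le_trans ?_ hX
    exact_mod_cast Finset.card_le_card_add_left hXne
  set f : ℕ → ℝ := fun j => ((X + DD hN ψ H₀ (ρ / 4 ^ j)).card : ℝ) with hf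
  have hf0 : f 0 ≤ X₀.card * (V * A.card) := by
    have h1 : X + DD hN ψ H₀ (ρ / 4 ^ 0) ⊆ X₀ + DD hN ψ H₀ (2 * ρ) := by
      intro z hz
      obtain ⟨x, hx, y, hy, rfl⟩ := Finset.mem_add.1 hz
      obtain ⟨x₀, hx₀, hxx⟩ := hX₀ x (hXA hx)
      rw [pow_zero, div_one] at hy
      have h2 := DD_add hN ψ H₀ hxx hy
      have e : ρ + ρ = 2 * ρ := by ring
      rw [e] at h2
      have e2 : x + y = x₀ + (x - x₀ + y) := by abel
      rw [e2]
      exact Finset.add_mem_add hx₀ h2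
    calc f 0 ≤ ((X₀ + DD hN ψ H₀ (2 * ρ)).card : ℝ) :=
          Nat.cast_le.2 (Finset.card_le_card h1)
      _ ≤ X₀.card * (DD hN ψ H₀ (2 * ρ)).card := by exact_mod_cast Finset.card_add_le
      _ ≤ X₀.card * (V * A.card) := mul_le_mul_of_nonneg_left hV (Nat.cast_nonneg _)
  have hfn : (X.card : ℝ) ≤ f n₂ := by
    have h1 : (DD hN ψ H₀ (ρ / 4 ^ n₂)).Nonempty := ⟨0, DD_zero hN ψ H₀ (by positivity)⟩
    exact Nat.cast_le.2 (Finset.card_le_card_add_right h1)
  obtain ⟨j, hj, hjq⟩ : ∃ j < n₂, f j ≤ q * f (j + 1) := by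
    by_contra hcon
    push Not at hcon
    have h1 := pigeon f hq.le n₂ hcon
    have h2 : q ^ n₂ * X.card ≤ (X₀.card * V * K) * X.card := by
      have hX₀V : 0 ≤ (X₀.card : ℝ) * V := by
        by_contra hneg
        push Not at hneg
        have h3 : (0 : ℝ) ≤ X₀.card * (V * A.card) := le_trans (Nat.cast_nonneg _) hf0
        have h4 : (X₀.card : ℝ) * (V * A.card) = (X₀.card * V) * A.card := by ring
        rw [h4] at h3
        have := mul_neg_of_neg_of_pos hneg hAc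
        linarith
      calc q ^ n₂ * X.card ≤ q ^ n₂ * f n₂ := mul_le_mul_of_nonneg_left hfn (by positivity)
        _ ≤ X₀.card * (V * A.card) := h1.trans hf0
        _ = (X₀.card * V) * A.card := by ring
        _ ≤ (X₀.card * V) * (K * X.card) := mul_le_mul_of_nonneg_left hXA2 hX₀V
        _ = _ := by ring
    have h3 := le_of_mul_le_mul_right h2 hXc
    linarith
  refine ⟨j, hj, ?_⟩
  set s := ρ / 4 ^ j with hs
  have hspos : 0 < s := by positivity
  have hs1 : ρ / 4 ^ (j + 1) = s / 4 := by rw [hs, pow_succ]; field_simp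
  have hjq' : ((X + DD hN ψ H₀ s).card : ℝ) ≤ q * (X + DD hN ψ H₀ (s / 4)).card := by
    have := hjq
    simp only [hf] at this
    rw [hs1] at this
    exact this
  have hne0 : (X + DD hN ψ H₀ (s / 4)).Nonempty := hXne.add ⟨0, DD_zero hN ψ H₀ (by positivity)⟩
  have hmain : (((X + DD hN ψ H₀ (s / 4)) + (A + DD hN ψ H₀ (s / 2))).card : ℝ) ≤
      (K * q) * (X + DD hN ψ H₀ (s / 4)).card := by
    have h1 : (X + DD hN ψ H₀ (s / 4)) + (A + DD hN ψ H₀ (s / 2)) ⊆
        X + A + DD hN ψ H₀ s := by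
      intro z hz
      obtain ⟨u, hu, w, hw, rfl⟩ := Finset.mem_add.1 hz
      obtain ⟨x, hx, d, hd, rfl⟩ := Finset.mem_add.1 hu
      obtain ⟨a, ha, e, he, rfl⟩ := Finset.mem_add.1 hw
      have e1 : x + d + (a + e) = x + a + (d + e) := by abel
      rw [e1]
      refine Finset.add_mem_add (Finset.add_mem_add hx ha) ?_
      exact DD_mono hN ψ H₀ (by linarith) (DD_add hN ψ H₀ hd he)
    calc (((X + DD hN ψ H₀ (s / 4)) + (A + DD hN ψ H₀ (s / 2))).card : ℝ)
        ≤ ((X + A + DD hN ψ H₀ s).card : ℝ) := by exact_mod_cast Finset.card_le_card h1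
      _ ≤ K * (X + DD hN ψ H₀ s).card := hXpet _
      _ ≤ K * (q * (X + DD hN ψ H₀ (s / 4)).card) :=
          mul_le_mul_of_nonneg_left hjq' (by linarith)
      _ = _ := by ring
  obtain ⟨Y, hY, hYne, hYpet⟩ := pet_exists hne0 hmain
  exact ⟨Y, hYne, hY.trans (Finset.add_subset_add_right hXA), hYpet⟩

/-- **The main step.** -/
theorem key [AddGroup.FG G] {K : ℝ} {A : Finset G} (hA : A.Nonempty)
    (hK : ((A + A).card : ℝ) ≤ K * A.card) (hK1 : 1 ≤ K) {ρ : ℝ} (hρ : 0 < ρ) {X₀ : Finset G}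
    {V : ℝ} (hX₀ : ∀ a ∈ A, ∃ x ∈ X₀, a - x ∈ DD hN ψ H₀ ρ)
    (hV : ((DD hN ψ H₀ (2 * ρ)).card : ℝ) ≤ V * A.card)
    (hcard : ∀ r, 0 ≤ r → r ≤ ρ → (DD hN ψ H₀ r).card = (LL N r).ncard * Nat.card H₀)
    {q : ℝ} (hq : 0 < q) {n₂ : ℕ} (hn₂ : X₀.card * V * K < q ^ n₂)
    {k M : ℕ} (hM : 2 ≤ M) {n : ℕ} (hn : 1 ≤ n) {c ε : ℝ}
    (hc : c = 2 * (m * Real.log (8 * n * n * m + 1)) + 2 * (m * Real.log (4 * m + 1)))
    (h4 : (1 / 4 : ℝ) ^ n ≤ Real.exp (-c) / 4)
    (hε : m * Real.log (4 * (n + 1) * m + 1) ≤ n * ε) {n₁ : ℕ}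
    (hδ : (2 : ℝ) ^ ((k + 2) * n₁) * (M * (4 * Real.sqrt ε)) < 1 / 2)
    (hδ6 : 4 * Real.sqrt ε ≤ 1 / 6) {W₀ : ℝ}
    (hW₀ : X₀.card * (2 * (2 ^ (2 * n₂ + k + 4) * M) * m + 1) ^ m *
      (Real.exp 1 * (4 * m + 1) ^ m) ≤ W₀)
    (hfinal : ((K * q) ^ (k + 1)) ^ n₁ * W₀ < ((2 : ℝ) ^ (k * M)) ^ n₁) :
    ∃ (S : Set (G →+ UnitAddCircle)) (m' : ℕ) (N' : Seminorm ℝ (Fin m' → ℝ))
      (ψ' : (Fin m' → ℤ) →+ G) (W : Finset G),
      (bohr S (1 / 6)).Finite ∧ m' < M ∧
      ((bohr S (1 / 6)).ncard : ℝ) ≤ 8 * Real.exp c * (V * A.card) ∧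
      (∀ x, N' x = 0 → x = 0) ∧
      (∀ c : Fin m' → ℤ, N' (fun i => (c i : ℝ)) < 1 / 2 → ∀ r : ℝ, 0 ≤ r →
        (ψ' c ∈ bohr S r ↔ c ∈ LL N' r)) ∧
      (W.card : ℝ) ≤ W₀ ∧
      ∀ a ∈ A, ∃ w ∈ W, ∃ c ∈ LL N' (4 * Real.sqrt ε), a - w - ψ' c ∈ ann S := by
  obtain ⟨j, hj, Y, hYne, hYA, hYpet⟩ := scale_thm hN ψ H₀ hA hK hK1 hρ hX₀ hV hq hn₂
  have hM0 : (0 : ℝ) < M := by
    have : 0 < M := by omega
    exact_mod_cast this
  set s := ρ / 4 ^ j with hs
  have hspos : 0 < s := by positivity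
  have hsρ : s ≤ ρ := div_le_self hρ.le (one_le_pow₀ (by norm_num))
  obtain ⟨τ, hτ⟩ : ∃ τ : ℝ, τ = s / 4 / (2 ^ (k + 1) * M) := ⟨_, rfl⟩
  have hτpos : 0 < τ := by rw [hτ]; positivity
  have hτM : (M : ℝ) * (2 ^ k * (τ + τ)) = s / 4 := by
    rw [hτ, pow_succ]; field_simp; ring
  have hτρ : τ ≤ ρ := by
    have h1 : τ ≤ s / 4 := by
      rw [hτ]
      apply div_le_self (by positivity)
      have h2 : (1 : ℝ) ≤ 2 ^ (k + 1) := one_le_pow₀ (by norm_num)
      have h3 : (1 : ℝ) ≤ M := by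
        have : 1 ≤ M := by omega
        exact_mod_cast this
      nlinarith
    linarith
  set R : ℕ := 2 ^ (2 * j + k + 4) * M with hR
  have hRpos : 1 ≤ R := by
    rw [hR]
    have : 0 < 2 ^ (2 * j + k + 4) * M := by positivity
    omega
  have hRτ : (R : ℝ) * τ = 2 * ρ := by
    rw [hR, hτ, hs]
    push_cast
    have e : (2 : ℝ) ^ (2 * j + k + 4) = 4 ^ j * 2 ^ (k + 1) * 8 := by
      have : (4 : ℝ) ^ j = 2 ^ (2 * j) := by rw [pow_mul]; norm_num
      rw [this, ← pow_add, show (8 : ℝ) = 2 ^ 3 by norm_num, ← pow_add]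
      congr 1
    rw [e]
    field_simp
    ring
  set P := DD hN ψ H₀ τ with hP
  obtain ⟨S, E, hEP, hSfin, hSsize, hEcard, hE⟩ :=
    bohr_step hN ψ H₀ hτpos.le (hcard τ hτpos.le hτρ) hn hc h4 hε
  set δ := 4 * Real.sqrt ε with hδdef
  have hδ0 : 0 ≤ δ := by positivity
  have hPne : P.Nonempty := ⟨0, DD_zero hN ψ H₀ hτpos.le⟩
  have hPpos : (0 : ℝ) < P.card := by exact_mod_cast hPne.card_pos
  have hEne : E.Nonempty := by
    rw [Finset.nonempty_iff_ne_empty]
    rintro rfl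
    simp at hEcard
    exact absurd hEcard hPne.ne_empty
  -- the lattice generated by `E - E`
  set YE : Set G := {z | ∃ x ∈ E, ∃ y ∈ E, z = x - y} with hYE
  have hYEb : YE ⊆ bohr S δ := by
    rintro z ⟨x, hx, y, hy, rfl⟩
    exact hE x hx y hy
  obtain ⟨m', N', ψ', hN', h1', h2', hspan⟩ := lattice_repr' S hSfin hδ0 hδ6 YE hYEb
  have hannfin : Finite (ann S) := ann_finite hSfin
  -- covering of `P`
  obtain ⟨XE, hXEP, hXEc, hXEcov⟩ : ∃ XE ⊆ P, (XE.card : ℝ) ≤ Real.exp 1 * (4 * m + 1) ^ m ∧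
      P ⊆ XE + (E - E) := by
    apply Finset.ruzsa_covering_add hEne
    have h1 : P + E ⊆ DD hN ψ H₀ ((2 : ℕ) * τ) := by
      intro z hz
      obtain ⟨x, hx, y, hy, rfl⟩ := Finset.mem_add.1 hz
      have h2 := DD_add hN ψ H₀ hx (hEP hy)
      have e : τ + τ = ((2 : ℕ) : ℝ) * τ := by push_cast; ring
      rwa [e] at h2
    have h2 := (Finset.card_le_card h1).trans
      (DD_growth hN ψ H₀ hτpos.le (hcard τ hτpos.le hτρ) 2 (by norm_num))
    have h3 : ((P + E).card : ℝ) ≤ (2 * 2 * m + 1) ^ m * P.card := by exact_mod_cast h2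
    have e : (2 * 2 * (m : ℝ) + 1) = 4 * m + 1 := by ring
    rw [e] at h3
    calc ((P + E).card : ℝ) ≤ (4 * m + 1) ^ m * P.card := h3
      _ ≤ (4 * m + 1) ^ m * (Real.exp 1 * E.card) :=
          mul_le_mul_of_nonneg_left hEcard (by positivity)
      _ = _ := by ring
  obtain ⟨T, hTc, hTcov⟩ := DD_cover hN ψ H₀ hτpos.le R hRpos
  rw [hRτ] at hTcov
  set W := X₀ + T + XE with hW
  have hWc : (W.card : ℝ) ≤ W₀ := by
    have h1 : W.card ≤ X₀.card * T.card * XE.card :=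
      Finset.card_add_le.trans (Nat.mul_le_mul_right _ Finset.card_add_le)
    have h2 : (T.card : ℝ) ≤ (2 * (2 ^ (2 * n₂ + k + 4) * M) * m + 1) ^ m := by
      have h3 : (T.card : ℝ) ≤ (2 * R * m + 1) ^ m := by exact_mod_cast hTc
      refine h3.trans (pow_le_pow_left₀ (by positivity) ?_ _)
      have h4 : (R : ℝ) ≤ 2 ^ (2 * n₂ + k + 4) * M := by
        rw [hR]
        push_cast
        apply mul_le_mul_of_nonneg_right _ hM0.le
        exact pow_le_pow_right₀ (by norm_num) (by omega)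
      have hm0 : (0 : ℝ) ≤ m := Nat.cast_nonneg m
      nlinarith
    calc (W.card : ℝ) ≤ X₀.card * T.card * XE.card := by exact_mod_cast h1
      _ ≤ X₀.card * (2 * (2 ^ (2 * n₂ + k + 4) * M) * m + 1) ^ m *
          (Real.exp 1 * (4 * m + 1) ^ m) := by gcongr
      _ ≤ W₀ := hW₀
  -- everything near `A` is covered
  have hcover : ∀ z : G, (∃ x ∈ X₀, z - x ∈ DD hN ψ H₀ (2 * ρ)) →
      ∃ w ∈ W, ∃ c ∈ LL N' δ, z - w - ψ' c ∈ ann S := by
    rintro z ⟨x, hx, hzx⟩
    obtain ⟨t, ht, hzt⟩ := hTcov _ hzx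
    obtain ⟨e, he, u, hu, heu⟩ := Finset.mem_add.1 (hXEcov hzt)
    obtain ⟨a, ha, b, hb, rfl⟩ := Finset.mem_sub.1 hu
    obtain ⟨c, hc1, hc2⟩ := h2' (a - b) ⟨a, ha, b, hb, rfl⟩
    refine ⟨x + t + e, Finset.add_mem_add (Finset.add_mem_add hx ht) he, c, hc1, ?_⟩
    have e1 : z - (x + t + e) - ψ' c = a - b - ψ' c := by
      have : z = x + t + (z - x - t) := by abel
      rw [this, ← heu]; abel
    rw [e1]; exact hc2
  refine ⟨S, m', N', ψ', W, hSfin, ?_, ?_, hN', h1', hWc, ?_⟩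
  · -- the dimension
    by_contra hcon
    push Not at hcon
    obtain ⟨v, hvC, hdiv⟩ := exists_indep _ hspan hcon
    have hvN : ∀ i, v i ∈ LL N' δ := fun i => (hvC i).1
    have hvg : ∀ i, ∃ g ∈ YE, g - ψ' (v i) ∈ ann S := fun i => (hvC i).2
    choose g hgYE hgann using hvg
    -- the quotient
    obtain ⟨Q, hQ, π, hπ0⟩ : ∃ (Q : Type _) (_ : AddCommGroup Q) (π : G →+ Q),
        ∀ x, π x = 0 ↔ x ∈ ann S :=
      ⟨G ⧸ ann S, inferInstance, QuotientAddGroup.mk' (ann S),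
        fun x => QuotientAddGroup.eq_zero_iff x⟩
    set θ : (Fin m' → ℤ) →+ Q := π.comp ψ' with hθ
    have hθ0 : ∀ c : Fin m' → ℤ, N' (fun i => (c i : ℝ)) < 1 / 2 → θ c = 0 → c = 0 := by
      intro c hc1 hc2
      have h3 : ψ' c ∈ ann S := (hπ0 _).1 hc2
      exact LL_zero hN' ((h1' c hc1 0 le_rfl).1 (bohr_zero_of_ann h3 le_rfl))
    -- the cube in `G`
    set F : Finset G := (Finset.univ : Finset (Fin M → Fin (2 ^ k))).image
      (fun a => ∑ i, ((a i : ℕ) : ℤ) • g i) with hF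
    have hFim : F.image π = cube θ v k := by
      rw [hF, Finset.image_image]
      unfold cube
      apply Finset.image_congr
      intro a _
      simp only [Function.comp]
      rw [map_sum, map_sum]
      refine Finset.sum_congr rfl fun i _ => ?_
      rw [map_zsmul, map_zsmul]
      congr 1
      have h3 : π (g i - ψ' (v i)) = 0 := (hπ0 _).2 (hgann i)
      rw [map_sub, sub_eq_zero] at h3
      exact h3
    have hgτ : ∀ i, g i ∈ DD hN ψ H₀ (τ + τ) := by
      intro i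
      obtain ⟨x, hx, y, hy, e⟩ := hgYE i
      rw [e]
      exact DD_sub hN ψ H₀ (hEP hx) (hEP hy)
    have hFs : F ⊆ DD hN ψ H₀ (s / 4) := by
      intro z hz
      obtain ⟨a, -, rfl⟩ := Finset.mem_image.1 hz
      have h3 := DD_sum hN ψ H₀ g (fun i => ((a i : ℕ) : ℤ)) (A := 2 ^ k) (fun i => by
        have h4 : ((a i : ℕ)) < 2 ^ k := (a i).2
        have h5 : ((a i : ℕ) : ℝ) ≤ 2 ^ k := by exact_mod_cast h4.le
        rw [abs_of_nonneg (by positivity)]
        push_cast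
        exact h5) hgτ
      rw [hτM] at h3
      exact h3
    have hYB : Y ⊆ A + DD hN ψ H₀ (s / 2) :=
      hYA.trans (Finset.add_subset_add_left (DD_mono hN ψ H₀ (by linarith)))
    have hYF : Y + F ⊆ A + DD hN ψ H₀ (s / 2) := by
      intro z hz
      obtain ⟨y, hy, f, hf, rfl⟩ := Finset.mem_add.1 hz
      obtain ⟨a, ha, d, hd, rfl⟩ := Finset.mem_add.1 (hYA hy)
      have h3 := DD_add hN ψ H₀ hd (hFs hf)
      have e : s / 4 + s / 4 = s / 2 := by ring
      rw [e] at h3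
      rw [add_assoc]
      exact Finset.add_mem_add ha h3
    have hker : {x : G | π x = 0}.Finite := by
      have : {x : G | π x = 0} = (ann S : Set G) := by
        ext x; exact hπ0 x
      rw [this]; exact Set.toFinite _
    have hKq : 0 ≤ K * q := by positivity
    have hup := pet_upper hKq hYpet hYB hYF π (dil_ker_finite π hker) k
    have e1 : (Y.image π).image (fun y => (2 ^ k) • y) = Y.image (dil π k) := by
      rw [Finset.image_image]; rfl
    have e2 : (Y + F).image π = Y.image π + cube θ v k := by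
      rw [Finset.image_add, hFim]
    rw [← e1, e2] at hup
    have hit := low_iterate N' θ hN' hθ0 hδ0 hvN (hdiv k) (hYne.image π) hup
      (pow_nonneg hKq _) n₁ hδ (X := W₀) (by
        intro D hDY hDs
        refine le_trans ?_ hWc
        -- injection of `D` into `W`
        have hD : ∀ d : Q, ∃ w : G, d ∈ D → (w ∈ W ∧ ∃ c ∈ LL N' δ, d - π w = θ c) := by
          intro d
          by_cases hd : d ∈ D
          · obtain ⟨y, hy, rfl⟩ := Finset.mem_image.1 (hDY hd)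
            obtain ⟨a, ha, b, hb, rfl⟩ := Finset.mem_add.1 (hYA hy)
            obtain ⟨x, hx, hax⟩ := hX₀ a ha
            obtain ⟨w, hw, c, hc1, hc2⟩ := hcover (a + b) ⟨x, hx, by
              have h3 := DD_add hN ψ H₀ hax hb
              have e3 : a + b - x = a - x + b := by abel
              rw [e3]
              exact DD_mono hN ψ H₀ (by linarith) h3⟩
            refine ⟨w, fun _ => ⟨hw, c, hc1, ?_⟩⟩
            have h4 := (hπ0 _).2 hc2
            rw [map_sub, map_sub, sub_eq_zero] at h4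
            rw [h4]; rfl
          · exact ⟨0, fun h => absurd h hd⟩
        choose w hw using hD
        have h5 : D.card ≤ W.card := by
          apply Finset.card_le_card_of_injOn w
          · intro d hd
            exact (hw d hd).1
          · intro d hd d' hd' heq
            obtain ⟨c, hc1, hc2⟩ := (hw d hd).2
            obtain ⟨c', hc1', hc2'⟩ := (hw d' hd').2
            apply hDs d hd d' hd'
            refine ⟨c - c', LL_mono N' ?_ (LL_add N' hc1 hc1'), ?_⟩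
            · have hM2 : (2 : ℝ) ≤ M := by exact_mod_cast hM
              nlinarith
            · rw [map_sub, ← hc2, ← hc2', heq]; abel
        exact_mod_cast h5)
    exact absurd hfinal (not_lt.2 hit)
  · -- the size
    have h3 : (P.card : ℝ) ≤ V * A.card := by
      refine le_trans ?_ hV
      exact_mod_cast Finset.card_le_card (DD_mono hN ψ H₀ (by linarith))
    refine hSsize.trans ?_
    exact mul_le_mul_of_nonneg_left h3 (by positivity)
  · intro a ha
    obtain ⟨x, hx, hax⟩ := hX₀ a ha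
    exact hcover a ⟨x, hx, DD_mono hN ψ H₀ (by linarith) hax⟩

end

end V5helper1.SD
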