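import Pool.Agent.H112R2.Main
set_option autoImplicit false

/-! Lattice points of balls: coverings by smaller balls, finiteness. -/

open scoped Classical
set_option linter.unusedVariables false

namespace V5helper1.SD

open H112

/-- the lattice points of a ball are covered by few translates of those of a smaller ball -/
theorem LL_cover {m : ℕ} (N : Seminorm ℝ (Fin m → ℝ)) {r : ℝ} (hr : 0 ≤ r)
    (hfin : (LL N r).Finite) (R : ℕ) (hR : 1 ≤ R) :
    ∃ T : Finset (Fin m → ℤ), T.card ≤ (2 * R * m + 1) ^ m ∧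
      ∀ y ∈ LL N r, ∃ t ∈ T, y - t ∈ LL N (r / R) := by
  obtain ⟨k, x, hli, hx, hc⟩ := Dim_family N hfin
  have hkm : k ≤ m := by
    have := hli.fintype_card_le_finrank
    simpa using this
  have hR0 : (0 : ℝ) < R := by exact_mod_cast hR
  choose! a ha1 ha using hc
  let cell : (Fin m → ℤ) → (Fin k → ℤ) := fun y i => ⌊R * m * a y i⌋
  let C : Finset (Fin k → ℤ) := Fintype.piFinset fun _ => Finset.Icc (-(R * m : ℤ)) (R * m)
  have hC : C.card = (2 * R * m + 1) ^ k := by
    simp only [C, Fintype.card_piFinset, Finset.prod_const, Finset.card_univ, Fintype.card_fin,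
      Int.card_Icc]
    congr 1
    have h1 : (R * m : ℤ) + 1 - -(R * m : ℤ) = ((2 * R * m + 1 : ℕ) : ℤ) := by
      push_cast; ring
    rw [h1, Int.toNat_natCast]
  have hmaps : ∀ y ∈ LL N r, cell y ∈ C := by
    intro y hy
    simp only [C, Fintype.mem_piFinset, Finset.mem_Icc, cell]
    intro i
    have h1 := abs_le.mp (ha1 y hy i)
    have hm : (0 : ℝ) ≤ R * m := by positivity
    constructor
    · rw [Int.le_floor]; push_cast; nlinarith
    · have : ⌊(R : ℝ) * (m : ℝ) * a y i⌋ ≤ ⌊((R : ℝ) * (m : ℝ))⌋ := Int.floor_le_floor (by nlinarith)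
      refine this.trans ?_
      have : ((R : ℝ) * (m : ℝ)) = ((R * m : ℤ) : ℝ) := by push_cast; ring
      rw [this, Int.floor_intCast]
  -- a representative of each cell
  have hrep : ∀ z : Fin k → ℤ, ∃ t : Fin m → ℤ, (∃ y ∈ LL N r, cell y = z) →
      t ∈ LL N r ∧ cell t = z := by
    intro z
    by_cases h : ∃ y ∈ LL N r, cell y = z
    · obtain ⟨y, hy, h⟩ := h
      exact ⟨y, fun _ => ⟨hy, h⟩⟩
    · exact ⟨0, fun h' => absurd h' h⟩
  choose rep hrep using hrep
  refine ⟨C.image rep, ?_, ?_⟩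
  · refine Finset.card_image_le.trans ?_
    rw [hC]
    exact Nat.pow_le_pow_right (by omega) hkm
  · intro y hy
    obtain ⟨ht, htc⟩ := hrep (cell y) ⟨y, hy, rfl⟩
    refine ⟨rep (cell y), Finset.mem_image_of_mem _ (hmaps y hy), ?_⟩
    set t := rep (cell y) with htdef
    show N _ ≤ r / R
    have hsub : (fun l => (((y - t) l : ℤ) : ℝ) : Fin m → ℝ) =
        ∑ i, (a y i - a t i) • (fun l => (x i l : ℝ) : Fin m → ℝ) := by
      have e1 := ha y hy
      have e2 := ha t ht
      have : (fun l => (((y - t) l : ℤ) : ℝ) : Fin m → ℝ) =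
          (fun l => (y l : ℝ)) - (fun l => (t l : ℝ)) := by
        funext l; simp
      rw [this, e1, e2, ← Finset.sum_sub_distrib]
      exact Finset.sum_congr rfl fun i _ => (sub_smul _ _ _).symm
    rw [hsub]
    have hterm : ∀ i : Fin k, N ((a y i - a t i) • (fun l => (x i l : ℝ) : Fin m → ℝ)) ≤
        1 / (R * m) * r := by
      intro i
      rw [map_smul_eq_mul]
      have hmpos : 0 < (m : ℝ) := by
        have : 0 < k := i.pos
        exact_mod_cast lt_of_lt_of_le this hkm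
      have hcell : cell y i = cell t i := by rw [htc]
      have habs : |(R : ℝ) * (m : ℝ) * a y i - R * m * a t i| < 1 :=
        Int.abs_sub_lt_one_of_floor_eq_floor hcell
      have h1 : ‖a y i - a t i‖ ≤ 1 / (R * m) := by
        rw [Real.norm_eq_abs, le_div_iff₀ (by positivity)]
        have : |a y i - a t i| * (R * m) = |(R : ℝ) * (m : ℝ) * a y i - R * m * a t i| := by
          rw [← mul_sub, abs_mul, abs_of_pos (by positivity : (0:ℝ) < R * m), mul_comm]
        rw [this]; exact habs.le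
      exact mul_le_mul h1 (hx i) (apply_nonneg N _) (by positivity)
    calc _ ≤ ∑ i : Fin k, N ((a y i - a t i) • (fun l => (x i l : ℝ) : Fin m → ℝ)) :=
          Dim_sum_le N _ _
      _ ≤ ∑ i : Fin k, 1 / (R * m) * r := Finset.sum_le_sum fun i _ => hterm i
      _ = k / (R * m) * r := by simp; ring
      _ ≤ 1 / R * r := by
        apply mul_le_mul_of_nonneg_right _ hr
        rcases Nat.eq_zero_or_pos m with hm | hm
        · have hk0 : k = 0 := by omega
          subst hk0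
          simp
        · rw [div_le_div_iff₀ (by positivity) (by positivity)]
          have : (k : ℝ) ≤ m := by exact_mod_cast hkm
          nlinarith
      _ = r / R := by ring

/-- all balls of a norm contain finitely many lattice points -/
theorem LL_finite {m : ℕ} {N : Seminorm ℝ (Fin m → ℝ)} (hN : ∀ x, N x = 0 → x = 0) (r : ℝ) :
    (LL N r).Finite := by
  have h1 := (symmBody_ball N hN (r := max r 1) (by positivity)).2.1.isBounded
  rw [isBounded_iff_forall_norm_le] at h1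
  obtain ⟨C, hC⟩ := h1
  have h2 : (Set.Icc (fun _ : Fin m => -(⌈C⌉ : ℤ)) (fun _ => ⌈C⌉)).Finite := Set.finite_Icc _ _
  refine h2.subset ?_
  intro c hc
  have h3 : N (fun i => (c i : ℝ)) ≤ max r 1 := le_trans hc (le_max_left _ _)
  have h4 := hC _ h3
  rw [Set.mem_Icc, Pi.le_def, Pi.le_def]
  have h5 : ∀ i, |(c i : ℝ)| ≤ C := by
    intro i
    have h6 := (norm_le_pi_norm (fun i => (c i : ℝ)) i).trans h4
    rwa [Real.norm_eq_abs] at h6
  have h6 : ∀ i, |c i| ≤ ⌈C⌉ := by
    intro i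
    have h7 : ((|c i| : ℤ) : ℝ) ≤ ((⌈C⌉ : ℤ) : ℝ) := by
      push_cast
      exact (h5 i).trans (Int.le_ceil C)
    exact_mod_cast h7
  exact ⟨fun i => (abs_le.1 (h6 i)).1, fun i => (abs_le.1 (h6 i)).2⟩

theorem LL_mono {m : ℕ} (N : Seminorm ℝ (Fin m → ℝ)) {r s : ℝ} (h : r ≤ s) : LL N r ⊆ LL N s :=
  fun _ hc => le_trans hc h

theorem LL_add' {m : ℕ} (N : Seminorm ℝ (Fin m → ℝ)) {a b : ℝ} {c d : Fin m → ℤ}
    (hc : c ∈ LL N a) (hd : d ∈ LL N b) : c + d ∈ LL N (a + b) := by
  have h1 : (fun i => (((c + d) i : ℤ) : ℝ)) = (fun i => (c i : ℝ)) + (fun i => (d i : ℝ)) := by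
    funext i; simp
  show N _ ≤ a + b
  rw [h1]
  exact (map_add_le_add N _ _).trans (add_le_add hc hd)

theorem LL_neg {m : ℕ} (N : Seminorm ℝ (Fin m → ℝ)) {a : ℝ} {c : Fin m → ℤ}
    (hc : c ∈ LL N a) : -c ∈ LL N a := by
  have h1 : (fun i => (((-c) i : ℤ) : ℝ)) = -(fun i => (c i : ℝ)) := by
    funext i; simp
  show N _ ≤ a
  rw [h1, map_neg_eq_map]
  exact hc

theorem LL_zsmul {m : ℕ} (N : Seminorm ℝ (Fin m → ℝ)) {a : ℝ} {c : Fin m → ℤ}
    (hc : c ∈ LL N a) (z : ℤ) : z • c ∈ LL N (|(z : ℝ)| * a) := by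
  have h1 : (fun i => (((z • c) i : ℤ) : ℝ)) = (z : ℝ) • (fun i => (c i : ℝ)) := by
    funext i; simp
  show N _ ≤ _
  rw [h1, map_smul_eq_mul, Real.norm_eq_abs]
  exact mul_le_mul_of_nonneg_left hc (abs_nonneg _)

theorem LL_zero_mem {m : ℕ} (N : Seminorm ℝ (Fin m → ℝ)) {a : ℝ} (ha : 0 ≤ a) :
    (0 : Fin m → ℤ) ∈ LL N a := by
  show N _ ≤ a
  have : (fun i : Fin m => (((0 : Fin m → ℤ) i : ℤ) : ℝ)) = 0 := by funext i; simp
  rw [this, map_zero]
  exact ha

/-- number of lattice points -/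
theorem LL_card {m : ℕ} {N : Seminorm ℝ (Fin m → ℝ)} (hN : ∀ x, N x = 0 → x = 0) {r : ℝ}
    (hr : 0 ≤ r) (R : ℕ) (hR : 1 ≤ R) :
    (LL N (R * r)).ncard ≤ (2 * R * m + 1) ^ m * (LL N r).ncard := by
  have hR0 : (0 : ℝ) < R := by exact_mod_cast hR
  have hf1 := LL_finite hN (R * r)
  have hf2 := LL_finite hN r
  obtain ⟨T, hT, hcov⟩ := LL_cover N (r := R * r) (by positivity) hf1 R hR
  have e : (R : ℝ) * r / R = r := by field_simp
  rw [e] at hcov
  have h1 : hf1.toFinset ⊆ (T ×ˢ hf2.toFinset).image (fun p => p.1 + p.2) := by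
    intro y hy
    rw [Set.Finite.mem_toFinset] at hy
    obtain ⟨t, ht, hyt⟩ := hcov y hy
    refine Finset.mem_image.2 ⟨(t, y - t), Finset.mem_product.2 ⟨ht, ?_⟩, ?_⟩
    · rw [Set.Finite.mem_toFinset]; exact hyt
    · simp
  have h2 := (Finset.card_le_card h1).trans Finset.card_image_le
  rw [Finset.card_product, ← Set.ncard_eq_toFinset_card _ hf1,
    ← Set.ncard_eq_toFinset_card _ hf2] at h2
  exact h2.trans (Nat.mul_le_mul_right _ hT)

end V5helper1.SD
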