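import Pool.Agent.V5helper1.SR.Grow
set_option autoImplicit false

/-! The inequality of Petridis for homomorphic images (with finite kernels), chains of dilates. -/

open scoped Classical Pointwise
set_option linter.unusedSectionVars false
set_option linter.unusedVariables false

namespace V5helper1.SD

variable {G Q : Type*} [AddCommGroup G] [AddCommGroup Q]

/-- the inequality of Petridis -/
def Pet (K : ℝ) (Y B : Finset G) : Prop :=
  ∀ Z : Finset G, ((Y + B + Z).card : ℝ) ≤ K * (Y + Z).card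

theorem pet_exists {X₀ B : Finset G} (hX₀ : X₀.Nonempty) {K : ℝ}
    (hK : ((X₀ + B).card : ℝ) ≤ K * X₀.card) : ∃ Y ⊆ X₀, Y.Nonempty ∧ Pet K Y B := by
  obtain ⟨Y, hY, hYne, hYK, hmin⟩ := SR.exists_petridis hX₀ hK
  refine ⟨Y, hY, hYne, fun Z => ?_⟩
  have hYc : (0 : ℝ) < Y.card := by exact_mod_cast hYne.card_pos
  have h1 := Finset.pluennecke_petridis_inequality_add (A := Y) (B := B) Z hmin
  have h2 : ((Z + Y + B).card : ℝ) * Y.card ≤ (Y + B).card * (Z + Y).card := by exact_mod_cast h1
  have h3 : ((Z + Y + B).card : ℝ) * Y.card ≤ (K * (Z + Y).card) * Y.card := by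
    calc ((Z + Y + B).card : ℝ) * Y.card ≤ (Y + B).card * (Z + Y).card := h2
      _ ≤ (K * Y.card) * (Z + Y).card := mul_le_mul_of_nonneg_right hYK (Nat.cast_nonneg _)
      _ = _ := by ring
  have h4 := le_of_mul_le_mul_right h3 hYc
  rw [add_assoc Z, add_comm Z, add_comm Z] at h4
  exact h4

/-- cardinality of an image under a homomorphism with a finite kernel -/
theorem card_image_mul (Φ : G →+ Q) (N₀ : Finset G) (hN₀ : ∀ x, x ∈ N₀ ↔ Φ x = 0)
    (U : Finset G) : (U.image Φ).card * N₀.card = (U + N₀).card := by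
  have hmaps : ∀ z ∈ U + N₀, Φ z ∈ U.image Φ := by
    intro z hz
    obtain ⟨u, hu, n, hn, rfl⟩ := Finset.mem_add.1 hz
    rw [map_add, (hN₀ n).1 hn, add_zero]
    exact Finset.mem_image_of_mem _ hu
  rw [Finset.card_eq_sum_card_fiberwise hmaps, Finset.sum_const_nat]
  intro q hq
  obtain ⟨u, hu, rfl⟩ := Finset.mem_image.1 hq
  have e : (U + N₀).filter (fun z => Φ z = Φ u) = N₀.image (fun n => u + n) := by
    ext z
    simp only [Finset.mem_filter, Finset.mem_image]
    constructor
    · rintro ⟨_, h⟩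
      refine ⟨z - u, (hN₀ _).2 (by rw [map_sub, h, sub_self]), by abel⟩
    · rintro ⟨n, hn, rfl⟩
      refine ⟨Finset.add_mem_add hu hn, ?_⟩
      rw [map_add, (hN₀ n).1 hn, add_zero]
  rw [e, Finset.card_image_of_injective _ (add_right_injective u)]

/-- **Petridis for homomorphic images** -/
theorem pet_image {K : ℝ} {Y B : Finset G} (hP : Pet K Y B) (Φ : G →+ Q)
    (hker : {x : G | Φ x = 0}.Finite) (W : Finset Q) :
    (((Y + B).image Φ + W).card : ℝ) ≤ K * (Y.image Φ + W).card := by
  set N₀ := hker.toFinset with hN₀def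
  have hN₀ : ∀ x, x ∈ N₀ ↔ Φ x = 0 := fun x => by rw [hN₀def, Set.Finite.mem_toFinset]; rfl
  have hN₀c : (0 : ℝ) < N₀.card := by
    exact_mod_cast Finset.card_pos.2 ⟨0, (hN₀ 0).2 (map_zero Φ)⟩
  -- decomposition into the cosets of the range
  set mk : Q → Q ⧸ Φ.range := fun q => (q : Q ⧸ Φ.range) with hmk
  have hdec : ∀ U : Finset G, ((U.image Φ + W).card : ℝ) * N₀.card =
      ∑ c ∈ W.image mk, (((U.image Φ + W.filter (fun w => mk w = c)).card : ℝ) * N₀.card) := by
    intro U
    rw [← Finset.sum_mul]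
    congr 1
    have hmaps : ∀ z ∈ U.image Φ + W, mk z ∈ W.image mk := by
      intro z hz
      obtain ⟨u, hu, w, hw, rfl⟩ := Finset.mem_add.1 hz
      obtain ⟨x, hx, rfl⟩ := Finset.mem_image.1 hu
      refine Finset.mem_image.2 ⟨w, hw, ?_⟩
      simp only [hmk]
      rw [QuotientAddGroup.eq]
      refine ⟨x, ?_⟩
      abel
    rw [Finset.card_eq_sum_card_fiberwise hmaps]
    push_cast
    refine Finset.sum_congr rfl fun c hc => ?_
    congr 1
    have e : (U.image Φ + W).filter (fun z => mk z = c) =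
        U.image Φ + W.filter (fun w => mk w = c) := by
      ext z
      simp only [Finset.mem_filter]
      constructor
      · rintro ⟨hz, hzc⟩
        obtain ⟨u, hu, w, hw, rfl⟩ := Finset.mem_add.1 hz
        refine Finset.add_mem_add hu (Finset.mem_filter.2 ⟨hw, ?_⟩)
        obtain ⟨x, hx, rfl⟩ := Finset.mem_image.1 hu
        rw [← hzc]
        simp only [hmk]
        rw [QuotientAddGroup.eq]
        refine ⟨x, ?_⟩
        abel
      · intro hz
        obtain ⟨u, hu, w, hw, rfl⟩ := Finset.mem_add.1 hz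
        obtain ⟨hw1, hw2⟩ := Finset.mem_filter.1 hw
        refine ⟨Finset.add_mem_add hu hw1, ?_⟩
        obtain ⟨x, hx, rfl⟩ := Finset.mem_image.1 hu
        rw [← hw2]
        simp only [hmk]
        rw [QuotientAddGroup.eq]
        refine ⟨-x, ?_⟩
        rw [map_neg]
        abel
    rw [e]
  -- one coset
  have hone : ∀ c ∈ W.image mk,
      ((((Y + B).image Φ + W.filter (fun w => mk w = c)).card : ℝ) * N₀.card) ≤
        K * ((((Y.image Φ + W.filter (fun w => mk w = c)).card : ℝ) * N₀.card)) := by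
    intro c hc
    obtain ⟨w₀, hw₀, rfl⟩ := Finset.mem_image.1 hc
    -- the preimage of the coset
    have hlift : ∀ w : Q, ∃ x : G, mk w = mk w₀ → w = w₀ + Φ x := by
      intro w
      by_cases h : mk w = mk w₀
      · have h1 : mk w₀ = mk w := h.symm
        simp only [hmk] at h1
        rw [QuotientAddGroup.eq] at h1
        obtain ⟨x, hx⟩ := h1
        refine ⟨x, fun _ => ?_⟩
        rw [hx]; abel
      · exact ⟨0, fun h' => absurd h' h⟩
    choose l hl using hlift
    set Wc := W.filter (fun w => mk w = mk w₀) with hWc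
    set V := Wc.image l with hV
    have e1 : Wc = (V.image Φ).image (fun q => w₀ + q) := by
      ext w
      simp only [Finset.mem_image, hV]
      constructor
      · intro hw
        exact ⟨Φ (l w), ⟨l w, ⟨w, hw, rfl⟩, rfl⟩, (hl w (Finset.mem_filter.1 hw).2).symm⟩
      · rintro ⟨q, ⟨x, ⟨w', hw', rfl⟩, rfl⟩, rfl⟩
        rw [← hl w' (Finset.mem_filter.1 hw').2]
        exact hw'
    have e2 : ∀ U : Finset G, (U.image Φ + Wc).card * N₀.card = (U + (V + N₀)).card := by
      intro U
      have e3 : U.image Φ + Wc = ((U + V).image Φ).image (fun q => w₀ + q) := by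
        rw [e1, Finset.image_add]
        ext z
        simp only [Finset.mem_add, Finset.mem_image]
        constructor
        · rintro ⟨u, ⟨x, hx, rfl⟩, w, ⟨q, ⟨v, hv, rfl⟩, rfl⟩, rfl⟩
          exact ⟨Φ x + Φ v, ⟨Φ x, ⟨x, hx, rfl⟩, Φ v, ⟨v, hv, rfl⟩, rfl⟩, by abel⟩
        · rintro ⟨q, ⟨a, ⟨x, hx, rfl⟩, b, ⟨v, hv, rfl⟩, rfl⟩, rfl⟩
          exact ⟨Φ x, ⟨x, hx, rfl⟩, w₀ + Φ v, ⟨Φ v, ⟨v, hv, rfl⟩, rfl⟩, by abel⟩
      rw [e3, Finset.card_image_of_injective _ (add_right_injective w₀),
        card_image_mul Φ N₀ hN₀, add_assoc]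
    have h1 := hP (V + N₀)
    have h2 : (((Y + B).image Φ + Wc).card : ℝ) * N₀.card = ((Y + B + (V + N₀)).card : ℝ) := by
      exact_mod_cast e2 (Y + B)
    have h3 : ((Y.image Φ + Wc).card : ℝ) * N₀.card = ((Y + (V + N₀)).card : ℝ) := by
      exact_mod_cast e2 Y
    rw [h2, h3]
    exact h1
  have hsum := Finset.sum_le_sum hone
  rw [← hdec, ← Finset.mul_sum, ← hdec] at hsum
  refine le_of_mul_le_mul_right ?_ hN₀c
  rw [mul_assoc]
  exact hsum

/-- the homomorphism `x ↦ 2 ^ i π (x)` -/
def dil (π : G →+ Q) (i : ℕ) : G →+ Q := (nsmulAddMonoidHom (2 ^ i)).comp π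

@[simp] theorem dil_apply (π : G →+ Q) (i : ℕ) (x : G) : dil π i x = (2 ^ i) • π x := rfl

theorem pet_chain {K : ℝ} (hK0 : 0 ≤ K) {Y B : Finset G} (hP : Pet K Y B) (hYB : Y ⊆ B)
    (π : G →+ Q) (hker : ∀ i, {x : G | dil π i x = 0}.Finite) (W : Finset Q) (k : ℕ) :
    ((Y.image (dil π k) + W).card : ℝ) ≤ K ^ k * (Y.image π + W).card := by
  induction k with
  | zero =>
    have e : Y.image (dil π 0) = Y.image π := by
      apply Finset.image_congr
      intro x _
      simp
    rw [e, pow_zero, one_mul]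
  | succ k ih =>
    have h1 := pet_image hP (dil π k) (hker k) W
    have hsub : Y.image (dil π (k + 1)) + W ⊆ (Y + B).image (dil π k) + W := by
      apply Finset.add_subset_add_right
      intro z hz
      obtain ⟨y, hy, rfl⟩ := Finset.mem_image.1 hz
      refine Finset.mem_image.2 ⟨y + y, Finset.add_mem_add hy (hYB hy), ?_⟩
      simp only [dil_apply, map_add]
      rw [pow_succ, mul_two, add_smul]
    have h2 : ((Y.image (dil π (k + 1)) + W).card : ℝ) ≤ ((Y + B).image (dil π k) + W).card := by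
      exact_mod_cast Finset.card_le_card hsub
    calc ((Y.image (dil π (k + 1)) + W).card : ℝ)
        ≤ K * (Y.image (dil π k) + W).card := h2.trans h1
      _ ≤ K * (K ^ k * (Y.image π + W).card) := mul_le_mul_of_nonneg_left ih hK0
      _ = _ := by ring

/-- **Upper bound** for `2 ^ k Y + Y + F` in a quotient. -/
theorem pet_upper {K : ℝ} (hK0 : 0 ≤ K) {Y B F : Finset G} (hP : Pet K Y B) (hYB : Y ⊆ B)
    (hYF : Y + F ⊆ B) (π : G →+ Q) (hker : ∀ i, {x : G | dil π i x = 0}.Finite) (k : ℕ) :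
    ((Y.image (dil π k) + (Y + F).image π).card : ℝ) ≤ K ^ (k + 1) * (Y.image π).card := by
  have h1 := pet_chain hK0 hP hYB π hker ((Y + F).image π) k
  have hker0 : {x : G | π x = 0}.Finite := by
    refine (hker 0).subset fun x hx => ?_
    simp only [Set.mem_ofPred_eq] at hx ⊢
    simp [hx]
  have h2 := pet_image hP π hker0 0
  rw [add_zero, add_zero] at h2
  have h3 : ((Y.image π + (Y + F).image π).card : ℝ) ≤ ((Y + B).image π).card := by
    rw [← Finset.image_add]
    exact_mod_cast Finset.card_le_card (Finset.image_subset_image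
      (Finset.add_subset_add_left hYF))
  calc ((Y.image (dil π k) + (Y + F).image π).card : ℝ)
      ≤ K ^ k * (Y.image π + (Y + F).image π).card := h1
    _ ≤ K ^ k * (K * (Y.image π).card) :=
        mul_le_mul_of_nonneg_left (h3.trans h2) (pow_nonneg hK0 _)
    _ = _ := by ring

/-- torsion subgroups of finitely generated groups are finite -/
theorem fin_tors [AddGroup.FG G] (N : AddSubgroup G) (h : ∀ x ∈ N, IsOfFinAddOrder x) :
    Finite N := by
  have : Module.Finite ℤ G := by
    rw [Module.Finite.iff_addGroup_fg]; infer_instance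
  have : IsNoetherian ℤ G := inferInstance
  have h1 : (AddSubgroup.toIntSubmodule N).FG := IsNoetherian.noetherian _
  have : Module.Finite ℤ (AddSubgroup.toIntSubmodule N) := Module.Finite.iff_fg.2 h1
  have h2 : AddGroup.FG (AddSubgroup.toIntSubmodule N) := by
    rw [← Module.Finite.iff_addGroup_fg]; infer_instance
  have h3 : AddGroup.FG N := h2
  refine AddCommGroup.finite_of_fg_isAddTorsion _ ?_
  intro x
  have h4 := h x.1 x.2
  rw [isOfFinAddOrder_iff_nsmul_eq_zero] at h4 ⊢
  obtain ⟨n, hn, h5⟩ := h4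
  exact ⟨n, hn, Subtype.ext h5⟩

/-- the kernels of the dilates of a homomorphism with finite kernel -/
theorem dil_ker_finite [AddGroup.FG G] (π : G →+ Q) (h : {x : G | π x = 0}.Finite) (i : ℕ) :
    {x : G | dil π i x = 0}.Finite := by
  have : Finite π.ker := h.to_subtype
  have h1 : ∀ x ∈ (dil π i).ker, IsOfFinAddOrder x := by
    intro x hx
    have h2 : (2 ^ i) • x ∈ π.ker := by
      rw [AddMonoidHom.mem_ker, map_nsmul]
      exact hx
    have h3 : IsOfFinAddOrder (⟨(2 ^ i) • x, h2⟩ : π.ker) := isOfFinAddOrder_of_finite _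
    rw [isOfFinAddOrder_iff_nsmul_eq_zero] at h3 ⊢
    obtain ⟨n, hn, h4⟩ := h3
    refine ⟨n * 2 ^ i, by positivity, ?_⟩
    have h5 := congrArg Subtype.val h4
    simp only [AddSubgroup.coe_nsmul, AddSubgroup.coe_zero] at h5
    rw [mul_smul]
    exact h5
  have := fin_tors (dil π i).ker h1
  exact Set.toFinite ((dil π i).ker : Set G)

end V5helper1.SD
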