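import Pool.Agent.V5helper1.SD.LLx
set_option autoImplicit false

/-! The lattice generated by a part of a finite Bohr set (generalisation of the starting result
`H112.lattice_repr`). -/

open scoped ENNReal
set_option linter.unusedVariables false

namespace V5helper1.SD

open H112

variable {G : Type*} [AddCommGroup G]

/-- a part of a finite Bohr set generates a lattice -/
theorem lattice_repr' (S : Set (G →+ UnitAddCircle)) (hfin : (bohr S (1 / 6)).Finite)
    {ρ : ℝ} (hρ0 : 0 ≤ ρ) (hρ : ρ ≤ 1 / 6) (Y : Set G) (hY : Y ⊆ bohr S ρ) :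
    ∃ (m : ℕ) (N : Seminorm ℝ (Fin m → ℝ)) (ψ : (Fin m → ℤ) →+ G),
      (∀ x, N x = 0 → x = 0) ∧
      (∀ c : Fin m → ℤ, N (fun i => (c i : ℝ)) < 1 / 2 → ∀ r : ℝ, 0 ≤ r →
        (ψ c ∈ bohr S r ↔ c ∈ LL N r)) ∧
      (∀ x ∈ Y, ∃ c ∈ LL N ρ, x - ψ c ∈ ann S) ∧
      Submodule.span ℤ {c : Fin m → ℤ | c ∈ LL N ρ ∧ ∃ x ∈ Y, x - ψ c ∈ ann S} = ⊤ := by
  classical
  set X : Set (LatE S) := lv S '' Y with hX
  have hXfin : X.Finite := ((hfin.subset (bohr_mono S hρ)).subset hY).image _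
  set V : Submodule ℝ (LatE S) := Submodule.span ℝ X with hV
  have : FiniteDimensional ℝ V := FiniteDimensional.span_of_finite ℝ hXfin
  set L : Submodule ℤ (LatE S) := Submodule.span ℤ X with hL
  have hLV : ∀ l ∈ L, l ∈ V := fun l hl => by
    have : L ≤ V.restrictScalars ℤ := Submodule.span_le.mpr fun x hx => Submodule.subset_span hx
    exact this hl
  let L₀ : Submodule ℤ V := L.comap (V.subtype.restrictScalars ℤ)
  have hmem : ∀ v : V, v ∈ L₀ ↔ (v : LatE S) ∈ L := fun v => Iff.rfl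
  obtain ⟨ε, hε, hgap⟩ := lattice_gap S hfin Y
  have : DiscreteTopology L₀ := by
    apply discreteTopology_of_isOpen_singleton_zero
    rw [Metric.isOpen_singleton_iff]
    refine ⟨ε, hε, fun y hy => ?_⟩
    have h1 : ‖((y : V) : LatE S)‖ < ε := by
      rw [dist_zero_right] at hy; exact hy
    have := hgap _ ((hmem y).mp y.2) h1
    ext1; ext1; exact this
  have : IsZLattice ℝ L₀ := ⟨by
    rw [eq_top_iff]
    rintro ⟨v, hv⟩ -
    induction hv using Submodule.span_induction with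
    | mem x hx => exact Submodule.subset_span ((hmem _).mpr (Submodule.subset_span hx))
    | zero => exact Submodule.zero_mem _
    | add a b ha hb iha ihb => exact Submodule.add_mem _ iha ihb
    | smul n a ha ih => exact Submodule.smul_mem _ n ih⟩
  have : Module.Finite ℤ L₀ := ZLattice.module_finite ℝ L₀
  have : Module.Free ℤ L₀ := ZLattice.module_free ℝ L₀
  let m := Module.finrank ℤ L₀
  let b : Module.Basis (Fin m) ℤ L₀ := Module.finBasis ℤ L₀
  let B : Module.Basis (Fin m) ℝ V := b.ofZLatticeBasis ℝ L₀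
  have hB : ∀ i, B i = (b i : V) := fun i => Module.Basis.ofZLatticeBasis_apply ℝ L₀ b i
  have hlift : ∀ i, ∃ y : G, ∀ γ : S, γ.1 y = (((((b i : V) : LatE S) : ∀ _ : S, ℝ) γ : ℝ) : UnitAddCircle) :=
    fun i => lattice_lift S Y _ ((hmem _).mp (b i).2)
  choose x hx using hlift
  let T : (Fin m → ℝ) →ₗ[ℝ] LatE S := V.subtype ∘ₗ (B.equivFun.symm : (Fin m → ℝ) →ₗ[ℝ] V)
  have hT : ∀ a, T a = ∑ i, a i • ((b i : V) : LatE S) := fun a => by
    simp only [T, LinearMap.comp_apply, LinearEquiv.coe_coe, Module.Basis.equivFun_symm_apply,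
      map_sum, map_smul, hB]
    rfl
  have hTinj : ∀ a, T a = 0 → a = 0 := fun a ha => by
    have h1 : (B.equivFun.symm a : V) = 0 := by
      apply Subtype.ext; exact ha
    have h2 := congrArg B.equivFun h1
    rw [LinearEquiv.apply_symm_apply, map_zero] at h2
    exact h2
  let ψ : (Fin m → ℤ) →+ G :=
    AddMonoidHom.mk' (fun c => ∑ i, c i • x i) (fun c d => by
      simp [add_smul, Finset.sum_add_distrib])
  have hψ : ∀ c, ψ c = ∑ i, c i • x i := fun c => rfl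
  let N : Seminorm ℝ (Fin m → ℝ) := (normSeminorm ℝ (LatE S)).comp T
  have hN : ∀ a, N a = ‖T a‖ := fun a => rfl
  have hkey : ∀ (c : Fin m → ℤ) (γ : S), γ.1 (ψ c) =
      (((T (fun i => (c i : ℝ)) : ∀ _ : S, ℝ) γ : ℝ) : UnitAddCircle) := fun c γ => by
    rw [hψ, map_sum, hT]
    have h1 : ((∑ i, (c i : ℝ) • ((b i : V) : LatE S) : LatE S) : ∀ _ : S, ℝ) γ =
        ∑ i, (c i : ℝ) * (((b i : V) : LatE S) : ∀ _ : S, ℝ) γ := by
      rw [lp.coeFn_sum, Finset.sum_apply]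
      rfl
    rw [h1]
    have h2 : ∀ t : Fin m → ℝ, ((∑ i, t i : ℝ) : UnitAddCircle) = ∑ i, ((t i : ℝ) : UnitAddCircle) :=
      fun t => map_sum (QuotientAddGroup.mk' (AddSubgroup.zmultiples (1 : ℝ))) t Finset.univ
    rw [h2]
    refine Finset.sum_congr rfl fun i _ => ?_
    rw [map_zsmul, hx, ← zsmul_eq_mul]
    rfl
  have hrepr : ∀ y ∈ Y, ∀ hyL : lv S y ∈ L, T (fun i => ((b.equivFun
      (⟨⟨lv S y, hLV _ hyL⟩, hyL⟩ : L₀) i : ℤ) : ℝ)) = lv S y := fun y hy hyL => by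
    let z : L₀ := ⟨⟨lv S y, hLV _ hyL⟩, hyL⟩
    change T (fun i => ((b.repr z i : ℤ) : ℝ)) = lv S y
    rw [hT]
    have h1 : ∑ i, b.repr z i • b i = z := b.sum_repr z
    have h2 : (((∑ i, b.repr z i • b i : L₀) : V) : LatE S) = ((z : V) : LatE S) := by rw [h1]
    have h3 : ((z : V) : LatE S) = lv S y := rfl
    rw [h3] at h2
    rw [← h2]
    have h4 : (((∑ i, b.repr z i • b i : L₀) : V) : LatE S) =
        ∑ i, (((b.repr z i • b i : L₀) : V) : LatE S) := by
      rw [Submodule.coe_sum, Submodule.coe_sum]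
    rw [h4]
    refine Finset.sum_congr rfl fun i _ => ?_
    have h5 : (((b.repr z i • b i : L₀) : V) : LatE S) = b.repr z i • ((b i : V) : LatE S) := rfl
    rw [h5]
    exact Int.cast_smul_eq_zsmul ℝ _ _
  have hnl : ∀ y ∈ Y, ‖lv S y‖ ≤ ρ := fun y hy =>
    lp.norm_le_of_forall_le hρ0 fun γ => by
      rw [lv_apply, Real.norm_eq_abs, lrep_abs]; exact (hY hy) _ γ.2
  have hcoord : ∀ y ∈ Y, ∀ hyL : lv S y ∈ L,
      b.equivFun (⟨⟨lv S y, hLV _ hyL⟩, hyL⟩ : L₀) ∈ LL N ρ ∧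
        y - ψ (b.equivFun (⟨⟨lv S y, hLV _ hyL⟩, hyL⟩ : L₀)) ∈ ann S := by
    intro y hy hyL
    have hc := hrepr y hy hyL
    constructor
    · change N _ ≤ ρ
      rw [hN, hc]; exact hnl y hy
    · intro γ hγ
      have h1 := hkey (b.equivFun (⟨⟨lv S y, hLV _ hyL⟩, hyL⟩ : L₀)) ⟨γ, hγ⟩
      simp only at h1
      rw [map_sub, h1, hc, lv_apply, lrep_coe, sub_self]
  refine ⟨m, N, ψ, ?_, ?_, ?_, ?_⟩
  · intro a ha
    rw [hN, norm_eq_zero] at ha
    exact hTinj a ha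
  · intro c hc r hr
    rw [hN] at hc
    have h1 : ∀ γ : S, ‖γ.1 (ψ c)‖ = |(T (fun i => (c i : ℝ)) : ∀ _ : S, ℝ) γ| := fun γ => by
      rw [hkey]
      apply lattice_norm_lt
      have h0 : ‖(T (fun i => (c i : ℝ)) : ∀ _ : S, ℝ) γ‖ ≤ ‖T (fun i => (c i : ℝ))‖ :=
        lp.norm_apply_le_norm ENNReal.top_ne_zero (T (fun i => (c i : ℝ))) γ
      rw [Real.norm_eq_abs] at h0
      exact lt_of_le_of_lt h0 hc
    constructor
    · intro h
      change N _ ≤ r
      rw [hN]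
      exact lp.norm_le_of_forall_le hr fun γ => by
        rw [Real.norm_eq_abs, ← h1]; exact h _ γ.2
    · intro h γ hγ
      have h2 := h1 ⟨γ, hγ⟩
      simp only at h2
      rw [h2]
      have h3 : ‖T (fun i => (c i : ℝ))‖ ≤ r := h
      exact (lp.norm_apply_le_norm ENNReal.top_ne_zero _ _).trans h3
  · intro y hy
    have hyL : lv S y ∈ L := Submodule.subset_span ⟨y, hy, rfl⟩
    exact ⟨_, (hcoord y hy hyL).1, (hcoord y hy hyL).2⟩
  · rw [eq_top_iff]
    set W := Submodule.span ℤ {c : Fin m → ℤ | c ∈ LL N ρ ∧ ∃ x ∈ Y, x - ψ c ∈ ann S} with hW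
    have hall : ∀ (l : LatE S) (hl : l ∈ L), b.equivFun (⟨⟨l, hLV l hl⟩, hl⟩ : L₀) ∈ W := by
      intro l hl
      induction hl using Submodule.span_induction with
      | mem u hu =>
        obtain ⟨y, hy, rfl⟩ := hu
        have hyL : lv S y ∈ L := Submodule.subset_span ⟨y, hy, rfl⟩
        exact Submodule.subset_span ⟨(hcoord y hy hyL).1, y, hy, (hcoord y hy hyL).2⟩
      | zero =>
        have : b.equivFun (⟨⟨0, hLV 0 L.zero_mem⟩, L.zero_mem⟩ : L₀) = 0 := map_zero b.equivFun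
        rw [this]; exact Submodule.zero_mem _
      | add a a' ha ha' iha ihb =>
        have : b.equivFun (⟨⟨a + a', hLV _ (L.add_mem ha ha')⟩, L.add_mem ha ha'⟩ : L₀) =
          b.equivFun (⟨⟨a, hLV _ ha⟩, ha⟩ : L₀) + b.equivFun (⟨⟨a', hLV _ ha'⟩, ha'⟩ : L₀) :=
            map_add b.equivFun (⟨⟨a, hLV _ ha⟩, ha⟩ : L₀) (⟨⟨a', hLV _ ha'⟩, ha'⟩ : L₀)
        rw [this]; exact Submodule.add_mem _ iha ihb
      | smul t a ha ih =>
        have : b.equivFun (⟨⟨t • a, hLV _ (L.smul_mem t ha)⟩, L.smul_mem t ha⟩ : L₀) =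
          t • b.equivFun (⟨⟨a, hLV _ ha⟩, ha⟩ : L₀) :=
            map_smul b.equivFun t (⟨⟨a, hLV _ ha⟩, ha⟩ : L₀)
        rw [this]; exact Submodule.smul_mem _ t ih
    intro a _
    have h2 : b.equivFun (b.equivFun.symm a) = a :=
      LinearEquiv.apply_symm_apply b.equivFun a
    have h1 : b.equivFun (b.equivFun.symm a) ∈ W := hall _ (b.equivFun.symm a).2
    rw [h2] at h1
    exact h1

end V5helper1.SD
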