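import Pool.Agent.V5helper1.SD.Rep
import Pool.Agent.V5helper1.SD.Pet
set_option autoImplicit false

/-! Convex coset progressions `DD r` and their Bohr sets. -/

open scoped Classical Pointwise
set_option linter.unusedSectionVars false
set_option linter.unusedVariables false

namespace V5helper1.SD

open H112

variable {G : Type*} [AddCommGroup G] {m : ℕ}

/-- the coset progression of radius `r` as a set -/
def DS (N : Seminorm ℝ (Fin m → ℝ)) (ψ : (Fin m → ℤ) →+ G) (H₀ : AddSubgroup G) (r : ℝ) : Set G :=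
  {x | ∃ c ∈ LL N r, x - ψ c ∈ H₀}

theorem DS_eq (N : Seminorm ℝ (Fin m → ℝ)) (ψ : (Fin m → ℤ) →+ G) (H₀ : AddSubgroup G) (r : ℝ) :
    DS N ψ H₀ r = (fun p : (Fin m → ℤ) × G => ψ p.1 + p.2) '' (LL N r ×ˢ (H₀ : Set G)) := by
  ext x
  constructor
  · rintro ⟨c, hc, hx⟩
    exact ⟨(c, x - ψ c), ⟨hc, hx⟩, by simp⟩
  · rintro ⟨⟨c, h⟩, ⟨hc, hh⟩, rfl⟩
    refine ⟨c, hc, ?_⟩
    simp only at hh ⊢
    rw [add_sub_cancel_left]
    exact hh

section
variable {N : Seminorm ℝ (Fin m → ℝ)} (hN : ∀ x, N x = 0 → x = 0) (ψ : (Fin m → ℤ) →+ G)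
  (H₀ : AddSubgroup G) [Finite H₀]

include hN in
theorem DS_finite (r : ℝ) : (DS N ψ H₀ r).Finite := by
  rw [DS_eq]
  exact ((LL_finite hN r).prod (Set.toFinite _)).image _

/-- the coset progression of radius `r` -/
noncomputable def DD (r : ℝ) : Finset G := (DS_finite hN ψ H₀ r).toFinset

theorem mem_DD {r : ℝ} {x : G} : x ∈ DD hN ψ H₀ r ↔ ∃ c ∈ LL N r, x - ψ c ∈ H₀ := by
  unfold DD
  rw [Set.Finite.mem_toFinset]
  rfl

theorem DD_zero {r : ℝ} (hr : 0 ≤ r) : (0 : G) ∈ DD hN ψ H₀ r := by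
  rw [mem_DD]
  refine ⟨0, LL_zero_mem N hr, ?_⟩
  rw [map_zero, sub_zero]
  exact H₀.zero_mem

theorem DD_add {r s : ℝ} {x y : G} (hx : x ∈ DD hN ψ H₀ r) (hy : y ∈ DD hN ψ H₀ s) :
    x + y ∈ DD hN ψ H₀ (r + s) := by
  rw [mem_DD] at *
  obtain ⟨c, hc, hxc⟩ := hx
  obtain ⟨d, hd, hyd⟩ := hy
  refine ⟨c + d, LL_add' N hc hd, ?_⟩
  rw [map_add]
  have e : x + y - (ψ c + ψ d) = (x - ψ c) + (y - ψ d) := by abel
  rw [e]
  exact H₀.add_mem hxc hyd

theorem DD_neg {r : ℝ} {x : G} (hx : x ∈ DD hN ψ H₀ r) : -x ∈ DD hN ψ H₀ r := by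
  rw [mem_DD] at *
  obtain ⟨c, hc, hxc⟩ := hx
  refine ⟨-c, LL_neg N hc, ?_⟩
  rw [map_neg]
  have e : -x - -ψ c = -(x - ψ c) := by abel
  rw [e]
  exact H₀.neg_mem hxc

theorem DD_sub {r s : ℝ} {x y : G} (hx : x ∈ DD hN ψ H₀ r) (hy : y ∈ DD hN ψ H₀ s) :
    x - y ∈ DD hN ψ H₀ (r + s) := by
  rw [sub_eq_add_neg]
  exact DD_add hN ψ H₀ hx (DD_neg hN ψ H₀ hy)

theorem DD_mono {r s : ℝ} (h : r ≤ s) : DD hN ψ H₀ r ⊆ DD hN ψ H₀ s := by
  intro x hx
  rw [mem_DD] at *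
  obtain ⟨c, hc, hxc⟩ := hx
  exact ⟨c, LL_mono N h hc, hxc⟩

theorem DD_sum {r : ℝ} {M : ℕ} (f : Fin M → G) (a : Fin M → ℤ) {A : ℝ}
    (ha : ∀ i, |(a i : ℝ)| ≤ A) (hf : ∀ i, f i ∈ DD hN ψ H₀ r) :
    ∑ i, a i • f i ∈ DD hN ψ H₀ (M * (A * r)) := by
  have hf' : ∀ i, ∃ c ∈ LL N r, f i - ψ c ∈ H₀ := fun i => (mem_DD hN ψ H₀).1 (hf i)
  choose c hc hcf using hf'
  rw [mem_DD]
  refine ⟨∑ i, a i • c i, ?_, ?_⟩
  · show N _ ≤ _
    have e : (fun l => (((∑ i, a i • c i) l : ℤ) : ℝ) : Fin m → ℝ) =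
        ∑ i, ((a i : ℤ) : ℝ) • (fun l => ((c i l : ℤ) : ℝ) : Fin m → ℝ) := by
      funext l
      simp [Finset.sum_apply]
    rw [e]
    refine (Dim_sum_le N _ _).trans ?_
    calc ∑ i : Fin M, N (((a i : ℤ) : ℝ) • (fun l => ((c i l : ℤ) : ℝ) : Fin m → ℝ))
        ≤ ∑ i : Fin M, A * r := by
          refine Finset.sum_le_sum fun i _ => ?_
          rw [map_smul_eq_mul, Real.norm_eq_abs]
          exact mul_le_mul (ha i) (hc i) (apply_nonneg N _) ((abs_nonneg _).trans (ha i))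
      _ = M * (A * r) := by simp
  · rw [map_sum, ← Finset.sum_sub_distrib]
    refine AddSubgroup.sum_mem _ fun i _ => ?_
    rw [map_zsmul, ← smul_sub]
    exact AddSubgroup.zsmul_mem _ (hcf i) _

/-- upper bound for the cardinality -/
theorem DD_card_le (r : ℝ) : (DD hN ψ H₀ r).card ≤ (LL N r).ncard * Nat.card H₀ := by
  unfold DD
  rw [← Set.ncard_eq_toFinset_card _ (DS_finite hN ψ H₀ r), DS_eq]
  refine (Set.ncard_image_le ((LL_finite hN r).prod (Set.toFinite _))).trans ?_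
  rw [Set.ncard_prod]
  exact le_rfl

/-- covering of a progression by smaller ones -/
theorem DD_cover {r : ℝ} (hr : 0 ≤ r) (R : ℕ) (hR : 1 ≤ R) :
    ∃ T : Finset G, T.card ≤ (2 * R * m + 1) ^ m ∧
      ∀ x ∈ DD hN ψ H₀ (R * r), ∃ t ∈ T, x - t ∈ DD hN ψ H₀ r := by
  have hR0 : (0 : ℝ) < R := by exact_mod_cast hR
  obtain ⟨T, hT, hcov⟩ := LL_cover N (r := R * r) (by positivity) (LL_finite hN _) R hR
  have e : (R : ℝ) * r / R = r := by field_simp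
  rw [e] at hcov
  refine ⟨T.image ψ, Finset.card_image_le.trans hT, fun x hx => ?_⟩
  rw [mem_DD] at hx
  obtain ⟨c, hc, hxc⟩ := hx
  obtain ⟨t, ht, hct⟩ := hcov c hc
  refine ⟨ψ t, Finset.mem_image_of_mem _ ht, ?_⟩
  rw [mem_DD]
  refine ⟨c - t, hct, ?_⟩
  rw [map_sub]
  have e : x - ψ t - (ψ c - ψ t) = x - ψ c := by abel
  rw [e]; exact hxc

/-- multiples of a progression with the full cardinality -/
theorem DD_growth {τ : ℝ} (hτ : 0 ≤ τ)
    (hcard : (DD hN ψ H₀ τ).card = (LL N τ).ncard * Nat.card H₀) (j : ℕ) (hj : 1 ≤ j) :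
    (DD hN ψ H₀ (j * τ)).card ≤ (2 * j * m + 1) ^ m * (DD hN ψ H₀ τ).card := by
  refine (DD_card_le hN ψ H₀ _).trans ?_
  rw [hcard, ← mul_assoc]
  exact Nat.mul_le_mul_right _ (LL_card hN hτ j hj)

theorem U_pow_support {τ : ℝ} (hτ : 0 ≤ τ) (j : ℕ) :
    ((U (DD hN ψ H₀ τ)) ^ j).coeff.support ⊆ DD hN ψ H₀ (j * τ) := by
  induction j with
  | zero =>
    intro x hx
    rw [pow_zero, AddMonoidAlgebra.one_def, AddMonoidAlgebra.coeff_single] at hx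
    have h1 := Finsupp.support_single_subset hx
    rw [Finset.mem_singleton] at h1
    subst h1
    apply DD_zero
    simp
  | succ j ih =>
    rw [pow_succ]
    refine support_mul_subset ih (size_support_U (A := DD hN ψ H₀ τ)) ?_
    intro a ha b hb
    have h1 := DD_add hN ψ H₀ ha hb
    have e : (j : ℝ) * τ + τ = ((j + 1 : ℕ) : ℝ) * τ := by push_cast; ring
    rw [e] at h1
    exact h1

theorem H_U_pow_le {τ : ℝ} (hτ : 0 ≤ τ)
    (hcard : (DD hN ψ H₀ τ).card = (LL N τ).ncard * Nat.card H₀) (j : ℕ) (hj : 1 ≤ j) :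
    H ((U (DD hN ψ H₀ τ)) ^ j) ≤
      Real.log (DD hN ψ H₀ τ).card + m * Real.log (2 * j * m + 1) := by
  have hne : (DD hN ψ H₀ τ).Nonempty := ⟨0, DD_zero hN ψ H₀ hτ⟩
  have hpos : (0 : ℝ) < (DD hN ψ H₀ τ).card := by exact_mod_cast hne.card_pos
  have h1 : H ((U (DD hN ψ H₀ τ)) ^ j) ≤ Real.log (DD hN ψ H₀ (j * τ)).card :=
    ent_le_log_card ((law_U hne).pow j) (U_pow_support hN ψ H₀ hτ j)
  refine h1.trans ?_
  have hne2 : (DD hN ψ H₀ (j * τ)).Nonempty := ⟨0, DD_zero hN ψ H₀ (by positivity)⟩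
  have h2 : ((DD hN ψ H₀ (j * τ)).card : ℝ) ≤ (2 * j * m + 1) ^ m * (DD hN ψ H₀ τ).card := by
    exact_mod_cast DD_growth hN ψ H₀ hτ hcard j hj
  have h3 := Real.log_le_log (by exact_mod_cast hne2.card_pos) h2
  rw [Real.log_mul (by positivity) hpos.ne', Real.log_pow] at h3
  linarith

/-- **The Bohr set of a convex coset progression.** -/
theorem bohr_step [AddGroup.FG G] {τ : ℝ} (hτ : 0 ≤ τ)
    (hcard : (DD hN ψ H₀ τ).card = (LL N τ).ncard * Nat.card H₀) {n : ℕ} (hn : 1 ≤ n) {c ε : ℝ}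
    (hc : c = 2 * (m * Real.log (8 * n * n * m + 1)) + 2 * (m * Real.log (4 * m + 1)))
    (h4 : (1 / 4 : ℝ) ^ n ≤ Real.exp (-c) / 4)
    (hε : m * Real.log (4 * (n + 1) * m + 1) ≤ n * ε) :
    ∃ (S : Set (G →+ UnitAddCircle)) (E : Finset G), E ⊆ DD hN ψ H₀ τ ∧
      (bohr S (1 / 6)).Finite ∧
      ((bohr S (1 / 6)).ncard : ℝ) ≤ 8 * Real.exp c * (DD hN ψ H₀ τ).card ∧
      ((DD hN ψ H₀ τ).card : ℝ) ≤ Real.exp 1 * E.card ∧
      ∀ x ∈ E, ∀ y ∈ E, x - y ∈ bohr S (4 * Real.sqrt ε) := by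
  set P := DD hN ψ H₀ τ with hP
  have hne : P.Nonempty := ⟨0, DD_zero hN ψ H₀ hτ⟩
  have hPpos : (0 : ℝ) < P.card := by exact_mod_cast hne.card_pos
  have hlaw : Law (U P) := law_U hne
  have hHU : H (U P) = Real.log P.card := H_U hne
  have hsupp : (U P).coeff.support ⊆ P := size_support_U
  have hlog : ∀ x : ℝ, 0 ≤ x → 0 ≤ Real.log (x + 1) := fun x hx => Real.log_nonneg (by linarith)
  -- doubling
  have hKP : ((P + P).card : ℝ) ≤ ((4 * m + 1 : ℝ) ^ m) * P.card := by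
    have h1 : P + P ⊆ DD hN ψ H₀ ((2 : ℕ) * τ) := by
      intro z hz
      obtain ⟨x, hx, y, hy, rfl⟩ := Finset.mem_add.1 hz
      have h2 := DD_add hN ψ H₀ hx hy
      have e : τ + τ = ((2 : ℕ) : ℝ) * τ := by push_cast; ring
      rwa [e] at h2
    have h2 := (Finset.card_le_card h1).trans (DD_growth hN ψ H₀ hτ hcard 2 (by norm_num))
    have h3 : ((P + P).card : ℝ) ≤ (2 * 2 * m + 1) ^ m * P.card := by exact_mod_cast h2
    have e : (2 * 2 * (m : ℝ) + 1) = 4 * m + 1 := by ring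
    rwa [e] at h3
  have hD : Real.log P.card - 0 ≤ H (U P) := by rw [hHU]; linarith
  have hlogK : Real.log ((4 * m + 1 : ℝ) ^ m) = m * Real.log (4 * m + 1) := Real.log_pow _ _
  have hb : H ((U P * U P) ^ (2 * n * n)) ≤ (H (U P) + H (U P)) / 2 +
      m * Real.log (8 * n * n * m + 1) := by
    have e : (U P * U P) ^ (2 * n * n) = U P ^ (4 * n * n) := by
      rw [← pow_two, ← pow_mul]; congr 1; ring
    rw [e]
    have hj : 1 ≤ 4 * n * n := by nlinarith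
    have h1 := H_U_pow_le hN ψ H₀ hτ hcard (4 * n * n) hj
    rw [← hP] at h1
    refine h1.trans (le_of_eq ?_)
    rw [hHU]
    have e2 : (2 * ((4 * n * n : ℕ) : ℝ) * m + 1) = 8 * n * n * m + 1 := by push_cast; ring
    rw [e2]
    ring
  have hc' : 2 * (m * Real.log (8 * n * n * m + 1)) + 2 * Real.log ((4 * m + 1 : ℝ) ^ m) + 2 * 0 =
      c := by
    rw [hlogK, hc]; ring
  have hsz := bohr_size hne hKP hlaw hlaw hsupp hsupp hD hn hn hb (by rw [hc']; exact h4)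
  rw [hc'] at hsz
  have hinc : H ((U P * U P) ^ (n + 1)) - H (U P * U P) ≤ n * ε := by
    have e : (U P * U P) ^ (n + 1) = U P ^ (2 * (n + 1)) := by
      rw [← pow_two, ← pow_mul]
    rw [e]
    have h1 := H_U_pow_le hN ψ H₀ hτ hcard (2 * (n + 1)) (by omega)
    rw [← hP] at h1
    have h2 : H (U P) ≤ H (U P * U P) := H_le_mul hlaw hlaw
    have e2 : (2 * ((2 * (n + 1) : ℕ) : ℝ) * m + 1) = 4 * (n + 1) * m + 1 := by push_cast; ring
    rw [e2] at h1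
    linarith
  obtain ⟨E, hEP, hEcard, hE⟩ := near_invariance hlaw hlaw hsupp hn hD hinc
  refine ⟨_, E, hEP, hsz.1, ?_, ?_, ?_⟩
  · refine hsz.2.trans (le_of_eq ?_)
    ring
  · have e : (P.card : ℝ) = Real.exp 1 * (P.card * Real.exp (-(2 * 0 + 1))) := by
      have : (-(2 * 0 + 1) : ℝ) = -1 := by ring
      rw [this, Real.exp_neg]
      field_simp
    rw [e]
    exact mul_le_mul_of_nonneg_left hEcard (Real.exp_pos _).le
  · intro x hx y hy γ hγ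
    exact hE x hx y hy γ hγ

end

end V5helper1.SD
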